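import Pool.Agent.Q115.DF.Bas

/-! # MP_4006b4_co, job DF-2 (helper154): potential in a modified structure -/

open Finset

namespace Pool.Agent.Q115.DF

theorem mod_ins {V E : Type} [DecidableEq V] [DecidableEq E] (G : Str V E) {S : Finset V}
    (Z : Finset E) (x y : V → ℕ) {T : Finset V} (hT : T ⊆ S) :
    (G.mod S Z x y).ins T = G.ins T \ Z := by
  ext e
  rw [mem_ins, mem_sdiff, mem_ins]
  show e ∈ G.ins S \ Z ∧ G.p e ∈ T ∧ G.q e ∈ T ↔ _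
  rw [mem_sdiff, mem_ins]
  constructor
  · rintro ⟨⟨⟨h1, -, -⟩, h2⟩, h3, h4⟩
    exact ⟨⟨h1, h3, h4⟩, h2⟩
  · rintro ⟨⟨h1, h3, h4⟩, h2⟩
    exact ⟨⟨⟨h1, hT h3, hT h4⟩, h2⟩, h3, h4⟩

theorem tMod : XMod := by
  intro V E _ _ a b G S Z x y T hT ha
  have h2 : ∑ e ∈ (G.mod S Z x y).ins T, (G.mod S Z x y).cost a b e =
      ∑ e ∈ G.ins T \ Z, G.cost a b e := by
    rw [mod_ins G Z x y hT]; rfl
  have h3 : ∑ e ∈ G.ins T ∩ Z, G.cost (a : ℤ) b e + ∑ e ∈ G.ins T \ Z, G.cost (a : ℤ) b e =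
      ∑ e ∈ G.ins T, G.cost (a : ℤ) b e := Finset.sum_inter_add_sum_sdiff _ _ _
  have h4 : ∑ v ∈ T, (G.wt a b v - ((a : ℤ) * (x v : ℤ) + (b : ℤ) * (y v : ℤ))) ≤
      ∑ v ∈ T, (G.mod S Z x y).wt a b v := by
    refine Finset.sum_le_sum fun v _ => ?_
    show (a : ℤ) * (G.A v : ℤ) + (b : ℤ) * (G.B v : ℤ) - b -
      ((a : ℤ) * (x v : ℤ) + (b : ℤ) * (y v : ℤ)) ≤
      (a : ℤ) * ((G.A v - x v : ℕ) : ℤ) + (b : ℤ) * ((G.B v - y v : ℕ) : ℤ) - b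
    have e1 : (G.A v : ℤ) - (x v : ℤ) ≤ ((G.A v - x v : ℕ) : ℤ) := by omega
    have e2 : (G.B v : ℤ) - (y v : ℤ) ≤ ((G.B v - y v : ℕ) : ℤ) := by omega
    have e3 := mul_le_mul_of_nonneg_left e1 (Int.natCast_nonneg a)
    have e4 := mul_le_mul_of_nonneg_left e2 (Int.natCast_nonneg b)
    linarith
  rw [Finset.sum_sub_distrib] at h4
  unfold Str.rho
  rw [h2, Finset.inter_comm Z]
  linarith

end Pool.Agent.Q115.DF
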