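import Pool.Agent.Q115.DF.Bas

/-!
# MP_4006b4_co: potential in the residual structure (job DF-3)
-/

set_option linter.unusedSectionVars false
set_option linter.unusedVariables false

open Finset

namespace Pool.Agent.Q115.DF

variable {V E : Type} [DecidableEq V] [DecidableEq E]

theorem rsd_num (a b : ℤ) (h1 h2 s1 s2 A B : ℕ) (hb : 1 ≤ b) (hab : b ≤ a) (hA : (A : ℤ) + 1 ≤ b)
    (hB : (B : ℤ) + 1 ≤ a) :
    a * ((if h1 = 0 then s2 else A : ℕ) : ℤ) + b * ((if h2 = 0 then s1 else B : ℕ) : ℤ) ≤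
      (h1 : ℤ) * (b * (a - 1) - (a - b)) + (h2 : ℤ) * (b * (a - 1)) + (s1 : ℤ) * (a - (a - b)) + (s2 : ℤ) * a := by
  have e1 : (0 : ℤ) ≤ s1 := by positivity
  have e2 : (0 : ℤ) ≤ s2 := by positivity
  have k1 : a * ((if h1 = 0 then s2 else A : ℕ) : ℤ) ≤ (h1 : ℤ) * (a * (b - 1)) + s2 * a := by
    split
    · next h => rw [h]; push_cast; linarith
    · next h =>
      have h5 : (1 : ℤ) ≤ h1 := by exact_mod_cast Nat.one_le_iff_ne_zero.2 h
      have h6 : (0 : ℤ) ≤ a * (b - 1) := mul_nonneg (by linarith) (by linarith)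
      have h7 : a * (A : ℤ) ≤ a * (b - 1) := mul_le_mul_of_nonneg_left (by linarith) (by linarith)
      have h8 : (0 : ℤ) ≤ s2 * a := mul_nonneg e2 (by linarith)
      nlinarith
  have k2 : b * ((if h2 = 0 then s1 else B : ℕ) : ℤ) ≤ (h2 : ℤ) * (b * (a - 1)) + s1 * b := by
    split
    · next h => rw [h]; push_cast; linarith
    · next h =>
      have h5 : (1 : ℤ) ≤ h2 := by exact_mod_cast Nat.one_le_iff_ne_zero.2 h
      have h6 : (0 : ℤ) ≤ b * (a - 1) := mul_nonneg (by linarith) (by linarith)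
      have h7 : b * (B : ℤ) ≤ b * (a - 1) := mul_le_mul_of_nonneg_left (by linarith) (by linarith)
      have h8 : (0 : ℤ) ≤ s1 * b := mul_nonneg e1 (by linarith)
      nlinarith
  have e3 : b * (a - 1) - (a - b) = a * (b - 1) := by ring
  have e4 : a - (a - b) = b := by ring
  rw [e3, e4]
  linarith

/-- local inequality at one vertex -/
theorem rsd_loc {a b : ℕ} {G : Str V E} (hG : WF a b G) (hb : 1 ≤ b) (hab : b ≤ a) (K : Finset E) (f : V → Bool)
    {v : V} (hv : v ∈ G.R) :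
    (a : ℤ) * (G.tA K f v : ℤ) + (b : ℤ) * (G.tB K f v : ℤ) ≤
      ∑ e ∈ K.filter (fun e => G.p e = v ∨ G.q e = v),
        (G.cost a b e - ((a : ℤ) - b) * (if f (G.oth e v) = true then 1 else 0)) := by
  have hs : ∑ e ∈ K.filter (fun e => G.p e = v ∨ G.q e = v),
        (G.cost a b e - ((a : ℤ) - b) * (if f (G.oth e v) = true then 1 else 0)) =
      ((K.filter (fun e => (G.p e = v ∨ G.q e = v) ∧ G.hd e = true ∧ f (G.oth e v) = true)).card : ℤ) *
        ((b : ℤ) * (a - 1) - (a - b)) +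
      ((K.filter (fun e => (G.p e = v ∨ G.q e = v) ∧ G.hd e = true ∧ f (G.oth e v) = false)).card : ℤ) *
        ((b : ℤ) * (a - 1)) +
      ((K.filter (fun e => (G.p e = v ∨ G.q e = v) ∧ G.hd e = false ∧ f (G.oth e v) = true)).card : ℤ) *
        ((a : ℤ) - (a - b)) +
      ((K.filter (fun e => (G.p e = v ∨ G.q e = v) ∧ G.hd e = false ∧ f (G.oth e v) = false)).card : ℤ) * a := by
    have h1 : ∀ (P : E → Prop) [DecidablePred P] (c : ℤ),
        ((K.filter (fun e => (G.p e = v ∨ G.q e = v) ∧ P e)).card : ℤ) * c =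
        ∑ e ∈ K.filter (fun e => G.p e = v ∨ G.q e = v), (if P e then c else 0) := by
      intro P _ c
      rw [← sum_filter, filter_filter, sum_const, nsmul_eq_mul]
    rw [h1 (fun e => G.hd e = true ∧ f (G.oth e v) = true), h1 (fun e => G.hd e = true ∧ f (G.oth e v) = false),
      h1 (fun e => G.hd e = false ∧ f (G.oth e v) = true), h1 (fun e => G.hd e = false ∧ f (G.oth e v) = false),
      ← sum_add_distrib, ← sum_add_distrib, ← sum_add_distrib]
    apply sum_congr rfl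
    intro e he
    unfold Str.cost
    cases h2 : G.hd e <;> cases h3 : f (G.oth e v) <;> simp
  rw [hs]
  have h2 := hG.2 v hv
  exact rsd_num a b _ _ _ _ (G.A v) (G.B v) (by exact_mod_cast hb) (by exact_mod_cast hab)
    (by exact_mod_cast h2.1) (by exact_mod_cast h2.2)

theorem tRsd (h1 : XMod) (h2 : XUnion) : XRsd := by
  intro V E _ _ a b G S K Z f x y T hb hab hG hS hK hT
  have hd : Disjoint S T := by
    rw [disjoint_left]
    intro v hv hv2
    exact (mem_sdiff.1 (hT hv2)).2 hv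
  have hST : ∀ v ∈ T, v ∉ S := fun v hv hv2 => disjoint_left.1 hd hv2 hv
  have hTR : T ⊆ G.R := fun v hv => (mem_sdiff.1 (hT hv)).1
  have k1 := h1 V E a b G (G.R \ S) Z (fun v => G.tA K f v + x v) (fun v => G.tB K f v + y v) T hT (by omega)
  have k2 := h2 V E a b G S T hd
  have k3 : ∑ v ∈ T, ((a : ℤ) * ((G.tA K f v + x v : ℕ) : ℤ) + (b : ℤ) * ((G.tB K f v + y v : ℕ) : ℤ)) =
      ∑ v ∈ T, ((a : ℤ) * (G.tA K f v : ℤ) + (b : ℤ) * (G.tB K f v : ℤ)) +
      ∑ v ∈ T, ((a : ℤ) * (x v : ℤ) + (b : ℤ) * (y v : ℤ)) := by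
    rw [← sum_add_distrib]
    apply sum_congr rfl
    intro v hv
    push_cast; ring
  have k4 : ∑ e ∈ G.cro S T, G.cost (a : ℤ) b e = ∑ e ∈ G.cro S T \ K, G.cost (a : ℤ) b e +
      ∑ e ∈ G.cro S T ∩ K, G.cost (a : ℤ) b e := by
    rw [add_comm, sum_inter_add_sum_sdiff]
  -- the main inequality
  have k5 : ∑ v ∈ T, ((a : ℤ) * (G.tA K f v : ℤ) + (b : ℤ) * (G.tB K f v : ℤ)) ≤
      ∑ e ∈ G.cro S T ∩ K, G.cost (a : ℤ) b e - ((a : ℤ) - b) * (G.n1 K f S T : ℤ) := by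
    have m1 : (G.n1 K f S T : ℤ) = ∑ e ∈ G.cro S T ∩ K,
        (if f (if G.p e ∈ S then G.p e else G.q e) = true then (1 : ℤ) else 0) := by
      unfold Str.n1
      rw [sum_boole]
      congr 2
      ext e
      simp only [mem_filter, mem_inter, mem_cro]
      constructor
      · rintro ⟨q1, q2⟩
        have q3 := mem_cro.1 (hK q1)
        rcases q2 with ⟨r1, r2, r3⟩ | ⟨r1, r2, r3⟩
        · exact ⟨⟨⟨q3.1, Or.inl ⟨r1, r2⟩⟩, q1⟩, by rw [if_pos r1]; exact r3⟩
        · exact ⟨⟨⟨q3.1, Or.inr ⟨r1, r2⟩⟩, q1⟩, by rw [if_neg (hST _ r1)]; exact r3⟩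
      · rintro ⟨⟨⟨q1, q2⟩, q3⟩, q4⟩
        refine ⟨q3, ?_⟩
        rcases q2 with ⟨r1, r2⟩ | ⟨r1, r2⟩
        · rw [if_pos r1] at q4; exact Or.inl ⟨r1, r2, q4⟩
        · rw [if_neg (hST _ r1)] at q4; exact Or.inr ⟨r1, r2, q4⟩
    rw [m1, mul_sum, ← sum_sub_distrib]
    have m2 : ∀ e ∈ G.cro S T ∩ K, (if G.p e ∈ S then G.q e else G.p e) ∈ T := by
      intro e he
      obtain ⟨q1, q2⟩ := mem_inter.1 he
      obtain ⟨q3, q4⟩ := mem_cro.1 q1
      rcases q4 with ⟨r1, r2⟩ | ⟨r1, r2⟩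
      · rw [if_pos r1]; exact r2
      · rw [if_neg (hST _ r1)]; exact r1
    rw [← sum_fiberwise_of_maps_to m2]
    apply sum_le_sum
    intro v hv
    have m3 := rsd_loc hG hb hab K f (hTR hv)
    refine le_trans m3 (le_of_eq ?_)
    have m4 : (G.cro S T ∩ K).filter (fun e => (if G.p e ∈ S then G.q e else G.p e) = v) =
        K.filter (fun e => G.p e = v ∨ G.q e = v) := by
      ext e
      simp only [mem_filter, mem_inter, mem_cro]
      constructor
      · rintro ⟨⟨⟨q1, q2⟩, q3⟩, q4⟩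
        refine ⟨q3, ?_⟩
        by_cases r : G.p e ∈ S
        · rw [if_pos r] at q4; exact Or.inr q4
        · rw [if_neg r] at q4; exact Or.inl q4
      · rintro ⟨q1, q2⟩
        have q3 := mem_cro.1 (hK q1)
        obtain ⟨q4, q5⟩ := q3
        rcases q2 with r | r
        · rcases q5 with ⟨s1, s2⟩ | ⟨s1, s2⟩
          · exact absurd (r ▸ s1) (hST v hv)
          · exact ⟨⟨⟨q4, Or.inr ⟨r ▸ hv, s2⟩⟩, q1⟩, by rw [if_neg (fun h => hST v hv (r ▸ h))]; exact r⟩
        · rcases q5 with ⟨s1, s2⟩ | ⟨s1, s2⟩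
          · exact ⟨⟨⟨q4, Or.inl ⟨s1, r ▸ hv⟩⟩, q1⟩, by rw [if_pos s1]; exact r⟩
          · exact absurd (r ▸ s2) (hST v hv)
    rw [m4]
    apply sum_congr rfl
    intro e he
    obtain ⟨q1, q2⟩ := mem_filter.1 he
    obtain ⟨q4, q5⟩ := mem_cro.1 (hK q1)
    have m5 : G.oth e v = (if G.p e ∈ S then G.p e else G.q e) := by
      rcases q2 with r | r
      · rw [oth_p r, if_neg (fun h => hST v hv (r ▸ h))]
      · rw [oth_q hG q4 r]
        rcases q5 with ⟨s1, s2⟩ | ⟨s1, s2⟩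
        · rw [if_pos s1]
        · exact absurd (r ▸ s2) (hST v hv)
    rw [m5]
  have k6 : (G.rsd S K Z f x y).rho (a : ℤ) b T =
      (G.mod (G.R \ S) Z (fun v => G.tA K f v + x v) (fun v => G.tB K f v + y v)).rho (a : ℤ) b T := rfl
  rw [k6]
  rw [k3] at k1
  linarith

end Pool.Agent.Q115.DF
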