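import Pool.Agent.Q115.DF.Bas

/-! # MP_4006b4_co, job DF-4 (helper154): gluing of colourings -/

open Finset

namespace Pool.Agent.Q115.DF

/-- the glued assignment of the edges -/
def glueL {V E : Type} [DecidableEq V] [DecidableEq E] (G : Str V E) (S : Finset V) (K Z : Finset E)
    (f : V → Bool) (L1 L2 X : E → Finset V) (e : E) : Finset V :=
  if e ∈ G.ins S then L1 e ∩ S
  else if e ∈ G.ins (G.R \ S) \ Z then L2 e ∩ (G.R \ S)
  else if e ∈ K then
    (if G.hd e = false ∧ f (G.p e) ≠ f (G.q e) then {if G.p e ∈ S then G.q e else G.p e} else ∅)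
  else X e

theorem tComb : XComb := by
  intro V E _ _ a b G S K Z x y f1 f2 L1 L2 X hW hS hK hc1 hc2 hX hl1 hl2
  obtain ⟨F, hF⟩ : ∃ F, F = (G.cro S (G.R \ S) \ K) ∪ (Z ∩ G.ins (G.R \ S)) := ⟨_, rfl⟩
  rw [← hF] at hX hl1 hl2
  rw [isCol_res] at hc1
  rw [isCol_rsd] at hc2
  obtain ⟨c1, d1⟩ := hc1
  obtain ⟨c2, d2⟩ := hc2
  obtain ⟨f, hf⟩ : ∃ f : V → Bool, f = fun v => if v ∈ S then f1 v else f2 v := ⟨_, rfl⟩
  rw [← hf] at hX
  have hfS : ∀ v ∈ S, f v = f1 v := fun v hv => by rw [hf]; simp only [if_pos hv]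
  have hfN : ∀ v, v ∉ S → f v = f2 v := fun v hv => by rw [hf]; simp only [if_neg hv]
  -- classification of the edges
  have hcls : ∀ e ∈ G.D, e ∈ G.ins S ∨ (e ∉ G.ins S ∧ e ∈ G.ins (G.R \ S) \ Z) ∨
      (e ∉ G.ins S ∧ e ∉ G.ins (G.R \ S) \ Z ∧ e ∈ K) ∨
      (e ∉ G.ins S ∧ e ∉ G.ins (G.R \ S) \ Z ∧ e ∉ K ∧ e ∈ F) := by
    intro e he
    obtain ⟨hp, hq, hne⟩ := hW.1 e he
    by_cases h1 : e ∈ G.ins S
    · exact Or.inl h1
    · by_cases h2 : e ∈ G.ins (G.R \ S) \ Z
      · exact Or.inr (Or.inl ⟨h1, h2⟩)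
      · by_cases h3 : e ∈ K
        · exact Or.inr (Or.inr (Or.inl ⟨h1, h2, h3⟩))
        · refine Or.inr (Or.inr (Or.inr ⟨h1, h2, h3, ?_⟩))
          rw [hF, mem_union, mem_sdiff, mem_inter, mem_cro]
          rw [mem_ins] at h1
          rw [mem_sdiff] at h2
          by_cases hpS : G.p e ∈ S
          · by_cases hqS : G.q e ∈ S
            · exact absurd ⟨he, hpS, hqS⟩ h1
            · exact Or.inl ⟨⟨he, Or.inl ⟨hpS, mem_sdiff.2 ⟨hq, hqS⟩⟩⟩, h3⟩
          · by_cases hqS : G.q e ∈ S
            · exact Or.inl ⟨⟨he, Or.inr ⟨mem_sdiff.2 ⟨hp, hpS⟩, hqS⟩⟩, h3⟩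
            · have h4 : e ∈ G.ins (G.R \ S) :=
                mem_ins.2 ⟨he, mem_sdiff.2 ⟨hp, hpS⟩, mem_sdiff.2 ⟨hq, hqS⟩⟩
              refine Or.inr ⟨?_, h4⟩
              by_contra hz
              exact h2 ⟨h4, hz⟩
  obtain ⟨L, hL⟩ : ∃ L, L = glueL G S K Z f L1 L2 X := ⟨_, rfl⟩
  have L_1 : ∀ e, e ∈ G.ins S → L e = L1 e ∩ S := fun e h => by rw [hL, glueL, if_pos h]
  have L_2 : ∀ e, e ∉ G.ins S → e ∈ G.ins (G.R \ S) \ Z → L e = L2 e ∩ (G.R \ S) := fun e h h' => by
    rw [hL, glueL, if_neg h, if_pos h']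
  have L_3 : ∀ e, e ∉ G.ins S → e ∉ G.ins (G.R \ S) \ Z → e ∈ K → L e =
      (if G.hd e = false ∧ f (G.p e) ≠ f (G.q e) then {if G.p e ∈ S then G.q e else G.p e}
        else ∅) := fun e h h' h'' => by
    rw [hL, glueL, if_neg h, if_neg h', if_pos h'']
  have L_4 : ∀ e, e ∉ G.ins S → e ∉ G.ins (G.R \ S) \ Z → e ∉ K → L e = X e :=
    fun e h h' h'' => by rw [hL, glueL, if_neg h, if_neg h', if_neg h'']
  -- hard edges of K have ends of different colours
  have hardK : ∀ e ∈ K, ∀ u v, u ∈ S → v ∈ G.R \ S →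
      ((G.p e = u ∧ G.q e = v) ∨ (G.p e = v ∧ G.q e = u)) → G.hd e = true → f1 u ≠ f2 v := by
    intro e he u v hu hv hpq hh heq
    have heD : e ∈ G.D := (mem_cro.1 (hK he)).1
    have hvS : v ∉ S := (mem_sdiff.1 hv).2
    have hend : G.p e = v ∨ G.q e = v := by
      rcases hpq with h | h
      · exact Or.inr h.2
      · exact Or.inl h.1
    have hoth : G.oth e v = u := by
      rcases hpq with h | h
      · rw [oth_q hW heD h.2, h.1]
      · rw [oth_p h.1, h.2]
    have hcap := d2 v hv
    cases hfv : f2 v with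
    | true =>
      have hne : ((K.filter (fun e => (G.p e = v ∨ G.q e = v) ∧ G.hd e = true ∧
          f1 (G.oth e v) = true)).card ≠ 0) := by
        rw [Finset.card_ne_zero]
        exact ⟨e, mem_filter.2 ⟨he, hend, hh, by rw [hoth, heq, hfv]⟩⟩
      rw [if_pos hfv, Str.tA, if_neg hne] at hcap
      omega
    | false =>
      have hne : ((K.filter (fun e => (G.p e = v ∨ G.q e = v) ∧ G.hd e = true ∧
          f1 (G.oth e v) = false)).card ≠ 0) := by
        rw [Finset.card_ne_zero]
        exact ⟨e, mem_filter.2 ⟨he, hend, hh, by rw [hoth, heq, hfv]⟩⟩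
      rw [if_neg (by rw [hfv]; simp), Str.tB, if_neg hne] at hcap
      omega
  refine ⟨f, L, fun e he => ?_, fun v hv => ?_⟩
  · rcases hcls e he with h | ⟨h, h'⟩ | ⟨h, h', h''⟩ | ⟨h, h', h'', h3⟩
    · rw [L_1 e h]
      obtain ⟨-, hp, hq⟩ := mem_ins.1 h
      obtain ⟨k1, k2⟩ := c1 e h
      constructor
      · intro hh hff
        rw [hfS _ hp, hfS _ hq] at hff
        exact ⟨mem_inter.2 ⟨(k1 hh hff).1, hp⟩, mem_inter.2 ⟨(k1 hh hff).2, hq⟩⟩
      · intro hh hff
        rw [hfS _ hp, hfS _ hq] at hff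
        rcases k2 hh hff with k | k
        · exact Or.inl (mem_inter.2 ⟨k, hp⟩)
        · exact Or.inr (mem_inter.2 ⟨k, hq⟩)
    · rw [L_2 e h h']
      obtain ⟨-, hp, hq⟩ := mem_ins.1 (mem_sdiff.1 h').1
      obtain ⟨k1, k2⟩ := c2 e h'
      have hp' := (mem_sdiff.1 hp).2
      have hq' := (mem_sdiff.1 hq).2
      constructor
      · intro hh hff
        rw [hfN _ hp', hfN _ hq'] at hff
        exact ⟨mem_inter.2 ⟨(k1 hh hff).1, hp⟩, mem_inter.2 ⟨(k1 hh hff).2, hq⟩⟩
      · intro hh hff
        rw [hfN _ hp', hfN _ hq'] at hff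
        rcases k2 hh hff with k | k
        · exact Or.inl (mem_inter.2 ⟨k, hp⟩)
        · exact Or.inr (mem_inter.2 ⟨k, hq⟩)
    · rw [L_3 e h h' h'']
      obtain ⟨-, hcr⟩ := mem_cro.1 (hK h'')
      constructor
      · intro hh hff
        exfalso
        rcases hcr with ⟨hp, hq⟩ | ⟨hp, hq⟩
        · refine hardK e h'' (G.p e) (G.q e) hp hq (Or.inl ⟨rfl, rfl⟩) hh ?_
          rw [← hfS _ hp, ← hfN _ (mem_sdiff.1 hq).2]
          exact hff
        · refine hardK e h'' (G.q e) (G.p e) hq hp (Or.inr ⟨rfl, rfl⟩) hh ?_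
          rw [← hfS _ hq, ← hfN _ (mem_sdiff.1 hp).2]
          exact hff.symm
      · intro hh hff
        rw [if_pos ⟨hh, hff⟩]
        by_cases hpS : G.p e ∈ S
        · rw [if_pos hpS]; exact Or.inr (mem_singleton_self _)
        · rw [if_neg hpS]; exact Or.inl (mem_singleton_self _)
    · rw [L_4 e h h' h'']
      exact hX e h3
  · by_cases hvS : v ∈ S
    · have hsub : G.D.filter (fun e => v ∈ L e) ⊆
          (G.ins S).filter (fun e => v ∈ L1 e) ∪ F.filter (fun e => v ∈ X e) := by
        intro e he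
        obtain ⟨heD, hve⟩ := mem_filter.1 he
        rw [mem_union, mem_filter, mem_filter]
        rcases hcls e heD with h | ⟨h, h'⟩ | ⟨h, h', h''⟩ | ⟨h, h', h'', h3⟩
        · rw [L_1 e h] at hve
          exact Or.inl ⟨h, (mem_inter.1 hve).1⟩
        · rw [L_2 e h h'] at hve
          exact absurd hvS (mem_sdiff.1 (mem_inter.1 hve).2).2
        · exfalso
          rw [L_3 e h h' h''] at hve
          obtain ⟨-, hcr⟩ := mem_cro.1 (hK h'')
          split_ifs at hve with h4 h5
          · rw [mem_singleton] at hve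
            rcases hcr with ⟨hp, hq⟩ | ⟨hp, hq⟩
            · exact (mem_sdiff.1 hq).2 (hve ▸ hvS)
            · exact (mem_sdiff.1 hp).2 h5
          · rw [mem_singleton] at hve
            exact h5 (hve ▸ hvS)
          · exact absurd hve (notMem_empty v)
        · rw [L_4 e h h' h''] at hve
          exact Or.inr ⟨h3, hve⟩
      have h1 := (card_le_card hsub).trans (card_union_le _ _)
      have h2 := hl1 v hvS
      have h3 : G.cap f v = G.cap f1 v := by unfold Str.cap; rw [hfS v hvS]
      rw [h3]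
      unfold ld at h2 ⊢
      omega
    · have hvR : v ∈ G.R \ S := mem_sdiff.2 ⟨hv, hvS⟩
      obtain ⟨P, hP⟩ : ∃ P, P = K.filter (fun e => (G.p e = v ∨ G.q e = v) ∧ G.hd e = false ∧
          f1 (G.oth e v) ≠ f2 v) := ⟨_, rfl⟩
      have hsub : G.D.filter (fun e => v ∈ L e) ⊆
          ((G.ins (G.R \ S) \ Z).filter (fun e => v ∈ L2 e) ∪ P) ∪
            F.filter (fun e => v ∈ X e) := by
        intro e he
        obtain ⟨heD, hve⟩ := mem_filter.1 he
        rw [mem_union, mem_union, mem_filter, mem_filter]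
        rcases hcls e heD with h | ⟨h, h'⟩ | ⟨h, h', h''⟩ | ⟨h, h', h'', h3⟩
        · rw [L_1 e h] at hve
          exact absurd (mem_inter.1 hve).2 hvS
        · rw [L_2 e h h'] at hve
          exact Or.inl (Or.inl ⟨h', (mem_inter.1 hve).1⟩)
        · refine Or.inl (Or.inr ?_)
          rw [L_3 e h h' h''] at hve
          obtain ⟨-, hcr⟩ := mem_cro.1 (hK h'')
          rw [hP, mem_filter]
          split_ifs at hve with h4 h5
          · rw [mem_singleton] at hve
            have ho : G.oth e v = G.p e := oth_q hW heD hve.symm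
            refine ⟨h'', Or.inr hve.symm, h4.1, ?_⟩
            rw [ho, ← hfS _ h5, ← hfN v hvS, hve]
            exact h4.2
          · rw [mem_singleton] at hve
            have ho : G.oth e v = G.q e := oth_p hve.symm
            have hqS : G.q e ∈ S := by
              rcases hcr with ⟨hp, hq⟩ | ⟨hp, hq⟩
              · exact absurd hp h5
              · exact hq
            refine ⟨h'', Or.inl hve.symm, h4.1, ?_⟩
            rw [ho, ← hfS _ hqS, ← hfN v hvS, hve]
            exact fun hh => h4.2 hh.symm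
          · exact absurd hve (notMem_empty v)
        · rw [L_4 e h h' h''] at hve
          exact Or.inr ⟨h3, hve⟩
      have h1 := (card_le_card hsub).trans ((card_union_le _ _).trans
        (Nat.add_le_add_right (card_union_le _ _) _))
      have h2 := hl2 v hvR
      have h3 := d2 v hvR
      have h4 : G.cap f v = if f2 v = true then G.A v else G.B v := by
        unfold Str.cap; rw [hfN v hvS]
      rw [h4]
      unfold ld at h2 h3 ⊢
      cases hfv : f2 v with
      | true =>
        rw [if_pos hfv] at h2 h3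
        simp only [if_true]
        have hPc : P.card = (K.filter (fun e => (G.p e = v ∨ G.q e = v) ∧ G.hd e = false ∧
            f1 (G.oth e v) = false)).card := by
          rw [hP]
          congr 1
          refine filter_congr fun e _ => ?_
          rw [hfv]
          simp
        unfold Str.tA at h3
        split_ifs at h3 with h5
        · omega
        · omega
      | false =>
        have hfv' : ¬ (f2 v = true) := by rw [hfv]; simp
        rw [if_neg hfv'] at h2 h3
        simp only [Bool.false_eq_true, if_false]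
        have hPc : P.card = (K.filter (fun e => (G.p e = v ∨ G.q e = v) ∧ G.hd e = false ∧
            f1 (G.oth e v) = true)).card := by
          rw [hP]
          congr 1
          refine filter_congr fun e _ => ?_
          rw [hfv]
          simp
        unfold Str.tB at h3
        split_ifs at h3 with h5
        · omega
        · omega

end Pool.Agent.Q115.DF
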