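import Pool.Agent.Q115.DF.Bas

/-! # MP_4006b4_co: minimality (jobs DF-5, helper224) -/

set_option linter.unusedSectionVars false
set_option linter.unusedVariables false

open Finset

namespace Pool.Agent.Q115.DF

theorem wf_mod {V E : Type} [DecidableEq V] [DecidableEq E] {a b : ℕ} {G : Str V E} (hG : WF a b G)
    {S : Finset V} (hS : S ⊆ G.R) (Z : Finset E) (x y : V → ℕ) : WF a b (G.mod S Z x y) := by
  constructor
  · intro e he
    have h1 : e ∈ G.ins S := (mem_sdiff.1 he).1
    rw [mem_ins] at h1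
    exact ⟨h1.2.1, h1.2.2, (hG.1 e h1.1).2.2⟩
  · intro v hv
    obtain ⟨h1, h2⟩ := hG.2 v (hS hv)
    constructor
    · show G.A v - x v + 1 ≤ b
      omega
    · show G.B v - y v + 1 ≤ a
      omega

theorem meas_mod {V E : Type} [DecidableEq V] [DecidableEq E] {a b : ℕ} {G : Str V E} (hG : WF a b G)
    {S : Finset V} (hS : S ⊆ G.R) (Z : Finset E) (x y : V → ℕ) (h : S ≠ G.R ∨ (Z ∩ G.D).Nonempty) :
    (G.mod S Z x y).meas < G.meas := by
  show S.card + (G.ins S \ Z).card < G.R.card + G.D.card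
  have h1 : (G.ins S \ Z).card ≤ G.D.card := card_le_card (sdiff_subset.trans ins_sub)
  by_cases hSR : S = G.R
  · have hZ : (Z ∩ G.D).Nonempty := by
      rcases h with h | h
      · exact absurd hSR h
      · exact h
    have h2 : (G.ins S \ Z).card < G.D.card := by
      refine card_lt_card ?_
      rw [ssubset_iff_of_subset (sdiff_subset.trans ins_sub)]
      obtain ⟨e, he⟩ := hZ
      rw [mem_inter] at he
      exact ⟨e, he.2, fun h' => (mem_sdiff.1 h').2 he.1⟩
    rw [hSR] at h2 ⊢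
    omega
  · have h2 : S.card < G.R.card := card_lt_card (hS.ssubset_of_ne hSR)
    omega

theorem tMin (h1 : XMod) : XMin := by
  intro V E _ _ a b G S Z x y hb hab hG hS hne hT
  refine hG.2.2.2 _ (meas_mod hG.1 hS Z x y hne) (wf_mod hG.1 hS Z x y) ?_
  intro T hTS hTn
  exact lt_of_lt_of_le (hT T hTS hTn) (h1 V E a b G S Z x y T hTS (hb.trans hab))

theorem tMinR (h1 : XRsd) : XMinR := by
  intro V E _ _ a b G S K Z f x y hb hab hG hS hSn hK hT
  have hne : G.R \ S ≠ G.R := by
    intro h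
    obtain ⟨v, hv⟩ := hSn
    have h2 := hS hv
    rw [← h] at h2
    exact (mem_sdiff.1 h2).2 hv
  refine hG.2.2.2 _ (meas_mod hG.1 sdiff_subset Z _ _ (Or.inl hne)) (wf_mod hG.1 sdiff_subset Z _ _) ?_
  intro T hTS hTn
  exact lt_of_lt_of_le (hT T hTS hTn) (h1 V E a b G S K Z f x y T hb hab hG.1 hS hK hTS)

end Pool.Agent.Q115.DF
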