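import Pool.Agent.Q115.DF.Bas

/-! # MP_4006b4_co: the standard extension (job DF-6, helper224) -/

set_option linter.unusedSectionVars false
set_option linter.unusedVariables false

open Finset

namespace Pool.Agent.Q115.DF

theorem cro_mono_right {V E : Type} [DecidableEq V] [DecidableEq E] {G : Str V E} {S T T' : Finset V}
    (h : T ⊆ T') : G.cro S T ⊆ G.cro S T' := by
  intro e he
  rw [mem_cro] at he ⊢
  refine ⟨he.1, ?_⟩
  rcases he.2 with h1 | h1
  · exact Or.inl ⟨h1.1, h h1.2⟩
  · exact Or.inr ⟨h h1.1, h1.2⟩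

theorem tExt (h1 : XMinR) (h2 : XComb) : XExt := by
  intro V E _ _ a b G S f L hb hab hG hS hSn hcol
  by_contra hcon
  push Not at hcon
  have hK : ∀ T ⊆ G.R \ S, G.cro S T \ G.cro S (G.R \ S) = ∅ := fun T hT =>
    sdiff_eq_empty_iff_subset.2 (cro_mono_right hT)
  obtain ⟨f2, L2, h3⟩ := h1 V E a b G S (G.cro S (G.R \ S)) ∅ f (fun _ => 0) (fun _ => 0) hb hab hG hS hSn
    (Subset.refl _) (by
      intro T hT hTn
      have h4 := hcon T hT hTn
      rw [hK T hT, empty_inter, sum_empty]
      simp only [Nat.cast_zero, mul_zero, add_zero, sum_const_zero, sub_zero]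
      exact h4)
  refine hG.2.2.1 (h2 V E a b G S (G.cro S (G.R \ S)) ∅ (fun _ => 0) (fun _ => 0) f f2 L L2 (fun _ => ∅)
    hG.1 hS (Subset.refl _) hcol h3 ?_ ?_ ?_)
  · intro e he
    rw [sdiff_self, empty_inter] at he
    simp at he
  · intro v hv
    rw [sdiff_self, empty_inter, bot_eq_empty, empty_union, ld_empty, add_zero]
    exact (isCol_res.1 hcol).2 v hv
  · intro v hv
    rw [sdiff_self, empty_inter, bot_eq_empty, empty_union, ld_empty]
    exact Nat.zero_le _

end Pool.Agent.Q115.DF
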