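import Pool.Agent.Q115.DF.Bas

/-! # MP_4006b4_co: the extension with slack (job DF-7, helper224) -/

set_option linter.unusedSectionVars false
set_option linter.unusedVariables false

open Finset

namespace Pool.Agent.Q115.DF

theorem ld_one {V E : Type} [DecidableEq V] [DecidableEq E] (X : E → Finset V) (e : E) (v : V) :
    ld X {e} v = if v ∈ X e then 1 else 0 := by
  unfold ld
  rw [filter_singleton]
  split_ifs <;> simp

theorem tSlack (h1 : XMinR) (h2 : XComb) : XSlack := by
  intro V E _ _ a b G S f L e0 u t hp hG hS hcol hu ht he0 hends hslack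
  by_contra hcon
  push Not at hcon
  obtain ⟨hb3, hab⟩ := hp
  have hb3' : (3 : ℤ) ≤ b := by exact_mod_cast hb3
  have hab' : (b : ℤ) + 2 ≤ a := by exact_mod_cast hab
  have htR : t ∈ G.R := (mem_sdiff.1 ht).1
  have htS : t ∉ S := (mem_sdiff.1 ht).2
  have hut : u ≠ t := fun h => htS (h ▸ hu)
  have hmemc : ∀ T ⊆ G.R \ S, (e0 ∈ G.cro S T ↔ t ∈ T) := by
    intro T hT
    have huT : u ∉ T := fun h => (mem_sdiff.1 (hT h)).2 hu
    rw [mem_cro]
    rcases hends with ⟨hp, hq⟩ | ⟨hp, hq⟩
    · rw [hp, hq]
      constructor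
      · rintro ⟨-, h | h⟩
        · exact h.2
        · exact absurd h.1 huT
      · intro h
        exact ⟨he0, Or.inl ⟨hu, h⟩⟩
    · rw [hp, hq]
      constructor
      · rintro ⟨-, h | h⟩
        · exact absurd h.1 htS
        · exact h.1
      · intro h
        exact ⟨he0, Or.inr ⟨h, hu⟩⟩
  obtain ⟨K, hK⟩ : ∃ K : Finset E, K = (G.cro S (G.R \ S)).erase e0 := ⟨_, rfl⟩
  have hKs : K ⊆ G.cro S (G.R \ S) := by rw [hK]; exact erase_subset _ _
  have hcroK : ∀ T ⊆ G.R \ S, G.cro S T \ K = if t ∈ T then {e0} else ∅ := by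
    intro T hT
    have hsub : G.cro S T ⊆ G.cro S (G.R \ S) := by
      intro e he
      rw [mem_cro] at he ⊢
      refine ⟨he.1, ?_⟩
      rcases he.2 with h | h
      · exact Or.inl ⟨h.1, hT h.2⟩
      · exact Or.inr ⟨hT h.1, h.2⟩
    ext e
    rw [mem_sdiff, hK, mem_erase]
    constructor
    · rintro ⟨h3, h4⟩
      have h5 : e = e0 := by
        by_contra h
        exact h4 ⟨h, hsub h3⟩
      rw [h5] at h3
      rw [if_pos ((hmemc T hT).1 h3), h5]
      exact mem_singleton_self _
    · intro h3
      by_cases htT : t ∈ T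
      · rw [if_pos htT, mem_singleton] at h3
        rw [h3]
        exact ⟨(hmemc T hT).2 htT, fun h => h.1 rfl⟩
      · rw [if_neg htT] at h3
        simp at h3
  obtain ⟨x, hx⟩ : ∃ x : V → ℕ, x = fun v => if G.hd e0 = true ∧ f u = true ∧ v = t then 1 else 0 := ⟨_, rfl⟩
  obtain ⟨y, hy⟩ : ∃ y : V → ℕ, y = fun v => if G.hd e0 = true ∧ f u = false ∧ v = t then 1 else 0 := ⟨_, rfl⟩
  have hxt : ∀ v, v ≠ t → x v = 0 ∧ y v = 0 := by
    intro v hv
    rw [hx, hy]
    exact ⟨if_neg (fun h => hv h.2.2), if_neg (fun h => hv h.2.2)⟩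
  have hgain : (a : ℤ) ≤ G.cost a b e0 - ((a : ℤ) * (x t : ℤ) + (b : ℤ) * (y t : ℤ)) := by
    cases hh : G.hd e0
    · have h3 : x t = 0 := by rw [hx]; exact if_neg (fun h => by rw [hh] at h; exact absurd h.1 (by simp))
      have h4 : y t = 0 := by rw [hy]; exact if_neg (fun h => by rw [hh] at h; exact absurd h.1 (by simp))
      rw [cost_soft hh, h3, h4]
      simp
    · rw [cost_hard hh]
      cases hf : f u
      · have h3 : x t = 0 := by rw [hx]; exact if_neg (fun h => by rw [hf] at h; exact absurd h.2.1 (by simp))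
        have h4 : y t = 1 := by rw [hy]; exact if_pos ⟨hh, hf, rfl⟩
        rw [h3, h4]
        push_cast
        nlinarith
      · have h3 : x t = 1 := by rw [hx]; exact if_pos ⟨hh, hf, rfl⟩
        have h4 : y t = 0 := by rw [hy]; exact if_neg (fun h => by rw [hf] at h; exact absurd h.2.1 (by simp))
        rw [h3, h4]
        push_cast
        nlinarith
  obtain ⟨f2, L2, h3⟩ := h1 V E a b G S K ∅ f x y (by omega) (by omega) hG hS ⟨u, hu⟩ hKs (by
    intro T hT hTn
    have h4 := hcon T hT hTn
    rw [hcroK T hT, empty_inter, sum_empty]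
    have h5 : 0 ≤ ((a : ℤ) - b) * (G.n1 K f S T : ℤ) := mul_nonneg (by linarith) (Int.natCast_nonneg _)
    by_cases htT : t ∈ T
    · rw [if_pos htT] at h4 ⊢
      rw [sum_singleton]
      have h6 : ∑ v ∈ T, ((a : ℤ) * (x v : ℤ) + (b : ℤ) * (y v : ℤ)) = (a : ℤ) * (x t : ℤ) + (b : ℤ) * (y t : ℤ) := by
        refine sum_eq_single t (fun v _ hv => ?_) (fun h => absurd htT h)
        rw [(hxt v hv).1, (hxt v hv).2]
        simp
      rw [h6]
      linarith
    · rw [if_neg htT] at h4 ⊢
      rw [sum_empty]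
      have h6 : ∑ v ∈ T, ((a : ℤ) * (x v : ℤ) + (b : ℤ) * (y v : ℤ)) = 0 := by
        refine sum_eq_zero (fun v hv => ?_)
        have hvt : v ≠ t := fun h => htT (h ▸ hv)
        rw [(hxt v hvt).1, (hxt v hvt).2]
        simp
      rw [h6]
      linarith)
  have hF : (G.cro S (G.R \ S) \ K) ∪ (∅ ∩ G.ins (G.R \ S)) = {e0} := by
    rw [hcroK (G.R \ S) (Subset.refl _), if_pos ht, empty_inter, union_empty]
  obtain ⟨W, hW⟩ : ∃ W : Finset V, W = if G.hd e0 = false then (if f u ≠ f2 t then {u} else ∅) else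
      (if f u = f2 t then {u, t} else ∅) := ⟨_, rfl⟩
  refine hG.2.2.1 (h2 V E a b G S K ∅ x y f f2 L L2 (fun _ => W) hG.1 hS hKs hcol h3 ?_ ?_ ?_)
  · rw [hF]
    intro e he
    rw [mem_singleton] at he
    rw [he]
    have gu : (fun v => if v ∈ S then f v else f2 v) u = f u := if_pos hu
    have gt : (fun v => if v ∈ S then f v else f2 v) t = f2 t := if_neg htS
    constructor
    · intro hh heq
      have heq' : f u = f2 t := by
        rcases hends with ⟨hp, hq⟩ | ⟨hp, hq⟩
        · rw [hp, hq, gu, gt] at heq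
          exact heq
        · rw [hp, hq, gu, gt] at heq
          exact heq.symm
      have hW' : W = {u, t} := by
        rw [hW, if_neg (by rw [hh]; simp), if_pos heq']
      rw [hW']
      rcases hends with ⟨hp, hq⟩ | ⟨hp, hq⟩
      · rw [hp, hq]
        simp
      · rw [hp, hq]
        simp
    · intro hh hne
      have hne' : f u ≠ f2 t := by
        rcases hends with ⟨hp, hq⟩ | ⟨hp, hq⟩
        · rw [hp, hq, gu, gt] at hne
          exact hne
        · rw [hp, hq, gu, gt] at hne
          exact hne.symm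
      have hW' : W = {u} := by
        rw [hW, if_pos hh, if_pos hne']
      rw [hW']
      rcases hends with ⟨hp, hq⟩ | ⟨hp, hq⟩
      · rw [hp]
        simp
      · rw [hq]
        simp
  · intro v hv
    rw [hF, ld_one]
    have hvt : v ≠ t := fun h => htS (h ▸ hv)
    by_cases hvu : v = u
    · rw [hvu]
      split_ifs <;> omega
    · have hvW : v ∉ W := by
        rw [hW]
        split_ifs <;> simp [hvu, hvt]
      rw [if_neg hvW, add_zero]
      exact (isCol_res.1 hcol).2 v hv
  · intro v hv
    rw [hF, ld_one]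
    have hvu : v ≠ u := fun h => (mem_sdiff.1 hv).2 (h ▸ hu)
    by_cases hvW : v ∈ W
    · rw [if_pos hvW]
      cases hh : G.hd e0
      · rw [hW, if_pos hh] at hvW
        split_ifs at hvW
        · rw [mem_singleton] at hvW
          exact absurd hvW hvu
        · simp at hvW
      · rw [hW, if_neg (by rw [hh]; simp)] at hvW
        split_ifs at hvW with heq
        · have hvt : v = t := by
            rw [mem_insert, mem_singleton] at hvW
            exact hvW.resolve_left hvu
          rw [hvt]
          cases hf : f u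
          · have hf2 : f2 t = false := by rw [← heq, hf]
            rw [hf2, hy]
            simp [hh, hf]
          · have hf2 : f2 t = true := by rw [← heq, hf]
            rw [hf2, hx]
            simp [hh, hf]
        · simp at hvW
    · rw [if_neg hvW]
      exact Nat.zero_le _

end Pool.Agent.Q115.DF
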