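import Pool.Agent.Q115.DF.Bas

/-! # MP_4006b4_co: hard edges forcing a colour (job DF-8, helper224) -/

set_option linter.unusedSectionVars false
set_option linter.unusedVariables false

open Finset

namespace Pool.Agent.Q115.DF

theorem tForce (h1 : XMinR) (h2 : XComb) : XForce := by
  intro V E _ _ a b G S f L E0 y κ hb hab hG hS hSn hcol hy hE
  by_contra hcon
  push Not at hcon
  have hab' : (b : ℤ) ≤ a := by exact_mod_cast hab
  have hyS : y ∉ S := (mem_sdiff.1 hy).2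
  have hE0 : ∀ e ∈ E0, e ∈ G.D ∧ G.hd e = true ∧ ∃ x ∈ S, f x = κ ∧
      ((G.p e = x ∧ G.q e = y) ∨ (G.p e = y ∧ G.q e = x)) := by
    intro e he
    obtain ⟨x, hx, hHE, hfx⟩ := hE e he
    exact ⟨hHE.1, hHE.2.1, x, hx, hfx, hHE.2.2⟩
  have hmemc : ∀ e ∈ E0, ∀ T ⊆ G.R \ S, (e ∈ G.cro S T ↔ y ∈ T) := by
    intro e he T hT
    obtain ⟨h3, -, x, hx, -, hends⟩ := hE0 e he
    have hxT : x ∉ T := fun h => (mem_sdiff.1 (hT h)).2 hx
    rw [mem_cro]
    rcases hends with ⟨hp, hq⟩ | ⟨hp, hq⟩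
    · rw [hp, hq]
      constructor
      · rintro ⟨-, h | h⟩
        · exact h.2
        · exact absurd h.1 hxT
      · intro h
        exact ⟨h3, Or.inl ⟨hx, h⟩⟩
    · rw [hp, hq]
      constructor
      · rintro ⟨-, h | h⟩
        · exact absurd h.1 hyS
        · exact h.1
      · intro h
        exact ⟨h3, Or.inr ⟨h, hx⟩⟩
  obtain ⟨K, hK⟩ : ∃ K : Finset E, K = G.cro S (G.R \ S) \ E0 := ⟨_, rfl⟩
  have hKs : K ⊆ G.cro S (G.R \ S) := by rw [hK]; exact sdiff_subset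
  have hcroK : ∀ T ⊆ G.R \ S, G.cro S T \ K = if y ∈ T then E0 else ∅ := by
    intro T hT
    have hsub : G.cro S T ⊆ G.cro S (G.R \ S) := by
      intro e he
      rw [mem_cro] at he ⊢
      refine ⟨he.1, ?_⟩
      rcases he.2 with h | h
      · exact Or.inl ⟨h.1, hT h.2⟩
      · exact Or.inr ⟨hT h.1, h.2⟩
    ext e
    rw [mem_sdiff, hK, mem_sdiff]
    constructor
    · rintro ⟨h3, h4⟩
      have h5 : e ∈ E0 := by
        by_contra h
        exact h4 ⟨hsub h3, h⟩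
      rw [if_pos ((hmemc e h5 T hT).1 h3)]
      exact h5
    · intro h3
      by_cases hyT : y ∈ T
      · rw [if_pos hyT] at h3
        exact ⟨(hmemc e h3 T hT).2 hyT, fun h => h.2 h3⟩
      · rw [if_neg hyT] at h3
        simp at h3
  obtain ⟨xx, hxx⟩ : ∃ xx : V → ℕ, xx = fun v => if κ = true ∧ v = y then G.A y else 0 := ⟨_, rfl⟩
  obtain ⟨yy, hyy⟩ : ∃ yy : V → ℕ, yy = fun v => if κ = false ∧ v = y then G.B y else 0 := ⟨_, rfl⟩
  have hne : ∀ v, v ≠ y → xx v = 0 ∧ yy v = 0 := by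
    intro v hv
    rw [hxx, hyy]
    exact ⟨if_neg (fun h => hv h.2), if_neg (fun h => hv h.2)⟩
  have hval : (a : ℤ) * (xx y : ℤ) + (b : ℤ) * (yy y : ℤ) =
      if κ = true then (a : ℤ) * (G.A y : ℤ) else (b : ℤ) * (G.B y : ℤ) := by
    rw [hxx, hyy]
    cases κ <;> simp
  obtain ⟨f2, L2, h3⟩ := h1 V E a b G S K ∅ f xx yy hb hab hG hS hSn hKs (by
    intro T hT hTn
    have h4 := hcon T hT hTn
    rw [hcroK T hT, empty_inter, sum_empty]
    have h5 : 0 ≤ ((a : ℤ) - b) * (G.n1 K f S T : ℤ) := mul_nonneg (by linarith) (Int.natCast_nonneg _)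
    by_cases hyT : y ∈ T
    · rw [if_pos hyT] at h4 ⊢
      have h6 : ∑ v ∈ T, ((a : ℤ) * (xx v : ℤ) + (b : ℤ) * (yy v : ℤ)) = (a : ℤ) * (xx y : ℤ) + (b : ℤ) * (yy y : ℤ) := by
        refine sum_eq_single y (fun v _ hv => ?_) (fun h => absurd hyT h)
        rw [(hne v hv).1, (hne v hv).2]
        simp
      have h7 : ∑ e ∈ E0, G.cost a b e = (E0.card : ℤ) * (b * ((a : ℤ) - 1)) := by
        rw [← nsmul_eq_mul]
        refine sum_eq_card_nsmul (fun e he => ?_)
        exact cost_hard (hE0 e he).2.1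
      rw [h6, h7, hval]
      linarith
    · rw [if_neg hyT] at h4 ⊢
      rw [sum_empty]
      have h6 : ∑ v ∈ T, ((a : ℤ) * (xx v : ℤ) + (b : ℤ) * (yy v : ℤ)) = 0 := by
        refine sum_eq_zero (fun v hv => ?_)
        have hvy : v ≠ y := fun h => hyT (h ▸ hv)
        rw [(hne v hvy).1, (hne v hvy).2]
        simp
      rw [h6]
      linarith)
  have hf2 : f2 y ≠ κ := by
    have h4 := (isCol_rsd.1 h3).2 y hy
    intro h
    rw [h] at h4
    cases κ
    · rw [if_neg (by simp), hyy] at h4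
      simp at h4
    · rw [if_pos rfl, hxx] at h4
      simp at h4
  have hF : (G.cro S (G.R \ S) \ K) ∪ (∅ ∩ G.ins (G.R \ S)) = E0 := by
    rw [hcroK (G.R \ S) (Subset.refl _), if_pos hy, empty_inter, union_empty]
  have hld : ∀ v, ld (fun _ : E => (∅ : Finset V)) E0 v = 0 := by
    intro v
    unfold ld
    simp
  refine hG.2.2.1 (h2 V E a b G S K ∅ xx yy f f2 L L2 (fun _ => ∅) hG.1 hS hKs hcol h3 ?_ ?_ ?_)
  · rw [hF]
    intro e he
    obtain ⟨-, hh, x, hx, hfx, hends⟩ := hE0 e he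
    have gx : (fun v => if v ∈ S then f v else f2 v) x = f x := if_pos hx
    have gy : (fun v => if v ∈ S then f v else f2 v) y = f2 y := if_neg hyS
    refine cov_of_ne hh ?_ _
    rcases hends with ⟨hp, hq⟩ | ⟨hp, hq⟩
    · rw [hp, hq, if_pos hx, if_neg hyS, hfx]
      exact fun h => hf2 h.symm
    · rw [hp, hq, if_neg hyS, if_pos hx, hfx]
      exact hf2
  · intro v hv
    rw [hF, hld, add_zero]
    exact (isCol_res.1 hcol).2 v hv
  · intro v hv
    rw [hF, hld]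
    exact Nat.zero_le _

end Pool.Agent.Q115.DF
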