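import Pool.Agent.Q115.DF.J01

/-! # MP_4006b4_co, job DF-9: Step 1, connectivity, at least two vertices (helper91) -/

set_option linter.unusedSectionVars false
set_option linter.unusedVariables false

open Finset

namespace Pool.Agent.Q115.DF

/-- the restriction to a proper subset of a minimal counterexample is colourable -/
theorem res_colorable (h1 : XMin) {V E : Type} [DecidableEq V] [DecidableEq E] {a b : ℕ} {G : Str V E}
    (hb : 1 ≤ b) (hab : b ≤ a) (hG : MinCE a b G) {S : Finset V} (hS : S ⊆ G.R) (hS2 : S ≠ G.R) :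
    ∃ f L, IsCol (G.res S) f L := by
  have := h1 V E a b G S ∅ (fun _ => 0) (fun _ => 0) hb hab hG hS (Or.inl hS2)
    (fun T hT hT2 => by
      have := hG.2.1 T (hT.trans hS) hT2
      simpa using this)
  exact this

theorem tS1 (h1 : XMin) (h2 : XExt) : XS1 := by
  intro V E _ _ a b G hp hG S₀ hS₀ hne₀ hpr₀
  obtain ⟨hp1, hp2⟩ := par_int hp
  have hb : 1 ≤ b := by have := hp.1; omega
  have hab : b ≤ a := by have := hp.2; omega
  by_contra hcon
  push Not at hcon
  have hmem : S₀ ∈ G.R.powerset.filter (fun S => S.Nonempty ∧ S ≠ G.R) := by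
    rw [mem_filter, mem_powerset]; exact ⟨hS₀, hne₀, hpr₀⟩
  obtain ⟨S, hS, hmin⟩ := Finset.exists_min_image
    (G.R.powerset.filter (fun S => S.Nonempty ∧ S ≠ G.R)) (fun S => G.rho a b S) ⟨S₀, hmem⟩
  rw [mem_filter, mem_powerset] at hS
  obtain ⟨hSR, hne, hpr⟩ := hS
  have hS0 : G.rho a b S ≤ 0 := le_trans (hmin S₀ hmem) hcon
  obtain ⟨f, L, hc⟩ := res_colorable h1 hb hab hG hSR hpr
  obtain ⟨T, hT, hTne, hle⟩ := h2 V E a b G S f L hb hab hG hSR hne hc
  have hn : (0 : ℤ) ≤ ((a : ℤ) - b) * (G.n1 (G.cro S (G.R \ S)) f S T : ℤ) := by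
    apply mul_nonneg
    · linarith
    · positivity
  have hSTR : S ∪ T ⊆ G.R := union_subset hSR (hT.trans sdiff_subset)
  by_cases hR : S ∪ T = G.R
  · have := hG.2.1 G.R (Subset.refl _) (hne.mono hSR)
    rw [hR] at hle
    linarith
  · have hm : S ∪ T ∈ G.R.powerset.filter (fun S => S.Nonempty ∧ S ≠ G.R) := by
      rw [mem_filter, mem_powerset]
      exact ⟨hSTR, hne.mono subset_union_left, hR⟩
    have := hmin _ hm
    linarith

theorem tCon (h1 : XMin) (h2 : XMinR) (h3 : XComb) : XCon := by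
  intro V E _ _ a b G hp hG S hS hne hpr
  obtain ⟨hp1, hp2⟩ := par_int hp
  have hb : 1 ≤ b := by have := hp.1; omega
  have hab : b ≤ a := by have := hp.2; omega
  by_contra hcon
  rw [Finset.not_nonempty_iff_eq_empty] at hcon
  obtain ⟨f, L, hc⟩ := res_colorable h1 hb hab hG hS hpr
  have hr : Colorable (G.rsd S ∅ ∅ f (fun _ => 0) (fun _ => 0)) := by
    apply h2 V E a b G S ∅ ∅ f _ _ hb hab hG hS hne (empty_subset _)
    intro T hT hTne
    have hcro : G.cro S T = ∅ := by
      rw [← Finset.subset_empty, ← hcon]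
      intro e he
      rw [mem_cro] at he ⊢
      refine ⟨he.1, ?_⟩
      rcases he.2 with h | h
      · exact Or.inl ⟨h.1, hT h.2⟩
      · exact Or.inr ⟨hT h.1, h.2⟩
    have hdis : Disjoint S T := by
      rw [Finset.disjoint_left]
      intro v hv hv2
      exact (mem_sdiff.mp (hT hv2)).2 hv
    have hu := tUnion V E a b G S T hdis
    have hy := hG.2.1 T (hT.trans sdiff_subset) hTne
    rw [hcro, sum_empty] at hu
    have hn1 : G.n1 ∅ f S T = 0 := by simp [Str.n1]
    rw [hcro, hn1]
    simp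
    linarith
  obtain ⟨f2, L2, hc2⟩ := hr
  apply hG.2.2.1
  rw [isCol_res] at hc
  refine h3 V E a b G S ∅ ∅ (fun _ => 0) (fun _ => 0) f f2 L L2 (fun _ => ∅) hG.1 hS (empty_subset _)
    (isCol_res.mpr hc) hc2 ?_ ?_ ?_
  · intro e he
    rw [hcon] at he
    simp at he
  · intro v hv
    rw [hcon]
    simpa [ld_empty] using hc.2 v hv
  · intro v hv
    rw [hcon]
    simp [ld_empty]

theorem tTwo : XTwo := by
  intro V E _ _ a b G hp hG
  obtain ⟨hp1, hp2⟩ := par_int hp
  by_contra hcon
  push Not at hcon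
  have hD : G.D = ∅ := by
    rw [Finset.eq_empty_iff_forall_notMem]
    intro e he
    obtain ⟨h1, h2, h3⟩ := hG.1.1 e he
    have : 1 < G.R.card := Finset.one_lt_card.mpr ⟨_, h1, _, h2, h3⟩
    omega
  apply hG.2.2.1
  refine ⟨fun v => decide (1 ≤ G.A v), fun _ => ∅, ?_, ?_⟩
  · intro e he
    rw [hD] at he
    simp at he
  · intro v hv
    have hh := hG.2.1 {v} (by simpa using hv) (singleton_nonempty v)
    rw [rho_single hG.1] at hh
    unfold Str.wt at hh
    rw [hD, ld_empty]
    unfold Str.cap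
    by_cases hA : 1 ≤ G.A v
    · simp only [hA, decide_true, if_true]
    · have hA0 : G.A v = 0 := by omega
      simp only [hA, decide_false]
      rw [hA0] at hh
      have hB : G.B v ≠ 0 := by
        intro h0
        rw [h0] at hh
        simp at hh
      simp
      omega

end Pool.Agent.Q115.DF
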