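import Pool.Agent.Q115.DF.J09

/-! # MP_4006b4_co, job DF-10: Step 2 (helper91) -/

set_option linter.unusedSectionVars false
set_option linter.unusedVariables false

open Finset

namespace Pool.Agent.Q115.DF

theorem tS2 (h1 : XMin) (h2 : XExt) (h3 : XSlack) (h4 : XS1) (h5 : XCon) : XS2 := by
  intro V E _ _ a b G hp hG S₀ hS₀ hne₀ hpr₀
  obtain ⟨hp1, hp2⟩ := par_int hp
  have hb : 1 ≤ b := by have := hp.1; omega
  have hab : b ≤ a := by have := hp.2; omega
  have hmem : S₀ ∈ G.R.powerset.filter (fun S => S.Nonempty ∧ S ≠ G.R) := by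
    rw [mem_filter, mem_powerset]; exact ⟨hS₀, hne₀, hpr₀⟩
  obtain ⟨S, hS, hmin⟩ := Finset.exists_min_image
    (G.R.powerset.filter (fun S => S.Nonempty ∧ S ≠ G.R)) (fun S => G.rho a b S) ⟨S₀, hmem⟩
  rw [mem_filter, mem_powerset] at hS
  obtain ⟨hSR, hne, hpr⟩ := hS
  refine le_trans ?_ (hmin S₀ hmem)
  by_contra hcon
  push Not at hcon
  obtain ⟨e0, he0⟩ := h5 V E a b G hp hG S hSR hne hpr
  rw [mem_cro] at he0
  obtain ⟨heD, hends⟩ := he0
  obtain ⟨u, t, hu, ht, hut⟩ : ∃ u t, u ∈ S ∧ t ∈ G.R \ S ∧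
      ((G.p e0 = u ∧ G.q e0 = t) ∨ (G.p e0 = t ∧ G.q e0 = u)) := by
    rcases hends with h | h
    · exact ⟨_, _, h.1, h.2, Or.inl ⟨rfl, rfl⟩⟩
    · exact ⟨_, _, h.2, h.1, Or.inr ⟨rfl, rfl⟩⟩
  have hminT : ∀ T ⊆ G.R \ S, T.Nonempty → S ∪ T ≠ G.R → G.rho a b S ≤ G.rho a b (S ∪ T) := by
    intro T hT _ hne2
    apply hmin
    rw [mem_filter, mem_powerset]
    exact ⟨union_subset hSR (hT.trans sdiff_subset), hne.mono subset_union_left, hne2⟩
  have htT : ∀ T ⊆ G.R \ S, S ∪ T = G.R → t ∈ T := by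
    intro T hT hR
    have : t ∈ S ∪ T := by rw [hR]; exact (mem_sdiff.mp ht).1
    rcases mem_union.mp this with h | h
    · exact absurd h (mem_sdiff.mp ht).2
    · exact h
  have hcol : Colorable (G.mod S ∅ (fun _ => 0) (fun v => if v = u then 1 else 0)) := by
    apply h1 V E a b G S ∅ _ _ hb hab hG hSR (Or.inl hpr)
    intro T hT hTne
    have hpos := h4 V E a b G hp hG T (hT.trans hSR) hTne (by
      intro h
      apply hpr
      exact subset_antisymm hSR (h ▸ hT))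
    have hsum : (∑ v ∈ T, ((a : ℤ) * (((fun _ => 0 : V → ℕ) v : ℕ) : ℤ) +
        (b : ℤ) * (((if v = u then 1 else 0 : ℕ)) : ℤ))) ≤ b := by
      have : (∑ v ∈ T, ((a : ℤ) * (((fun _ => 0 : V → ℕ) v : ℕ) : ℤ) +
        (b : ℤ) * (((if v = u then 1 else 0 : ℕ)) : ℤ))) = ∑ v ∈ T, if v = u then (b : ℤ) else 0 := by
        apply Finset.sum_congr rfl
        intro v _
        split <;> simp
      rw [this, Finset.sum_ite_eq']
      split <;> linarith
    simp only [Finset.empty_inter, Finset.sum_empty]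
    linarith
  obtain ⟨f, L, hc⟩ := hcol
  obtain ⟨hc1, hc2⟩ := res_of_mod hc
  by_cases hfu : f u = true
  · obtain ⟨T, hT, hTne, hle⟩ := h2 V E a b G S f L hb hab hG hSR hne hc1
    by_cases hR : S ∪ T = G.R
    · have hn : 1 ≤ G.n1 (G.cro S (G.R \ S)) f S T := by
        unfold Str.n1
        rw [Nat.succ_le_iff, Finset.card_pos]
        refine ⟨e0, ?_⟩
        rw [mem_filter, mem_cro]
        have htt := htT T hT hR
        rcases hut with ⟨h, h'⟩ | ⟨h, h'⟩
        · exact ⟨⟨heD, Or.inl ⟨h ▸ hu, h' ▸ ht⟩⟩, Or.inl ⟨h ▸ hu, h' ▸ htt, by rw [h]; exact hfu⟩⟩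
        · exact ⟨⟨heD, Or.inr ⟨h ▸ ht, h' ▸ hu⟩⟩, Or.inr ⟨h ▸ htt, h' ▸ hu, by rw [h']; exact hfu⟩⟩
      have hn' : (1 : ℤ) ≤ (G.n1 (G.cro S (G.R \ S)) f S T : ℤ) := by exact_mod_cast hn
      rw [hR] at hle
      nlinarith
    · have hn : (0 : ℤ) ≤ ((a : ℤ) - b) * (G.n1 (G.cro S (G.R \ S)) f S T : ℤ) := by
        apply mul_nonneg
        · linarith
        · positivity
      have := hminT T hT hTne hR
      linarith
  · have hld : ld L (G.ins S) u + 2 ≤ G.cap f u := by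
      have := hc2 u hu
      simp only [hfu] at this
      simp at this
      omega
    obtain ⟨T, hT, hTne, hle⟩ := h3 V E a b G S f L e0 u t hp hG hSR hc1 hu ht heD hut hld
    by_cases hR : S ∪ T = G.R
    · rw [hR, if_pos (htT T hT hR)] at hle
      linarith
    · have := hminT T hT hTne hR
      split at hle <;> linarith

end Pool.Agent.Q115.DF
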