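import Pool.Agent.Q115.DF.Bas

/-!
# MP_4006b4_co, Step 3 (jobs DF-11 and helper lemmas for one deleted edge)
-/

set_option linter.unusedSectionVars false
set_option linter.unusedVariables false

open Finset

namespace Pool.Agent.Q115.DF

variable {V E : Type} [DecidableEq V] [DecidableEq E]

/-- put one edge back -/
theorem put_back {G : Str V E} {e : E} (he : e ∈ G.D) {f : V → Bool} {L : E → Finset V} (X : Finset V)
    (h1 : ∀ e' ∈ G.D.erase e, Cov G f e' (L e')) (h2 : Cov G f e X)
    (h3 : ∀ v ∈ G.R, ld L (G.D.erase e) v + 1 + (if v ∈ X then 1 else 0) ≤ G.cap f v) : Colorable G := by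
  refine ⟨f, Function.update L e X, ?_, ?_⟩
  · intro e' he'
    by_cases h : e' = e
    · subst h; simpa using h2
    · rw [Function.update_of_ne h]
      exact h1 e' (mem_erase.2 ⟨h, he'⟩)
  · intro v hv
    have h4 : G.D = {e} ∪ G.D.erase e := by
      ext x; simp only [mem_union, mem_singleton, mem_erase]
      constructor
      · intro hx; by_cases hxe : x = e
        · exact Or.inl hxe
        · exact Or.inr ⟨hxe, hx⟩
      · rintro (hx | hx)
        · rw [hx]; exact he
        · exact hx.2
    have h5 : Disjoint ({e} : Finset E) (G.D.erase e) := by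
      rw [disjoint_singleton_left]; simp
    have h6 : ld (Function.update L e X) G.D v = ld (Function.update L e X) {e} v +
        ld (Function.update L e X) (G.D.erase e) v := by
      conv_lhs => rw [h4]
      exact ld_union _ h5 v
    have h7 : ld (Function.update L e X) (G.D.erase e) v = ld L (G.D.erase e) v := by
      apply ld_congr
      intro e' he'
      rw [Function.update_of_ne (mem_erase.1 he').1]
    have h8 : ld (Function.update L e X) {e} v = if v ∈ X then 1 else 0 := by
      unfold ld
      rw [filter_singleton]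
      simp only [Function.update_self]
      split <;> simp
    rw [h6, h7, h8]
    have := h3 v hv
    omega

/-- deletion of one edge and minimality -/
theorem del_one (h1 : XMin) {a b : ℕ} {G : Str V E} (hp : Par a b) (hG : MinCE a b G) {e : E} (he : e ∈ G.D)
    (x y : V → ℕ)
    (h : ∀ T ⊆ G.R, T.Nonempty → -(b : ℤ) < G.rho a b T +
      (if G.p e ∈ T ∧ G.q e ∈ T then G.cost a b e else 0)
      - (∑ v ∈ T, ((a : ℤ) * (x v : ℤ) + (b : ℤ) * (y v : ℤ)))) :
    ∃ f L, (∀ e' ∈ G.D.erase e, Cov G f e' (L e')) ∧
      ∀ v ∈ G.R, ld L (G.D.erase e) v + 1 + (if f v = true then x v else y v) ≤ G.cap f v := by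
  have hb : 1 ≤ b := by have := hp.1; omega
  have hab : b ≤ a := by have := hp.2; omega
  obtain ⟨f, L, hf⟩ := h1 V E a b G G.R {e} x y hb hab hG (Subset.refl _)
    (Or.inr ⟨e, by simp [he]⟩) (by
      intro T hT hT2
      have h3 := h T hT hT2
      have h4 : ∑ e' ∈ {e} ∩ G.ins T, G.cost (a : ℤ) b e' =
          if G.p e ∈ T ∧ G.q e ∈ T then G.cost (a : ℤ) b e else 0 := by
        by_cases h5 : G.p e ∈ T ∧ G.q e ∈ T
        · have h6 : e ∈ G.ins T := mem_ins.2 ⟨he, h5⟩
          rw [singleton_inter_of_mem h6, sum_singleton, if_pos h5]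
        · have h6 : e ∉ G.ins T := fun h7 => h5 (mem_ins.1 h7).2
          rw [singleton_inter_of_notMem h6, sum_empty, if_neg h5]
      rw [h4]; exact h3)
  rw [isCol_mod, ins_R hG.1, ← erase_eq] at hf
  refine ⟨f, L, hf.1, ?_⟩
  intro v hv
  have h6 := hf.2 v hv
  unfold Str.cap
  split at h6
  · next h7 => rw [if_pos h7, if_pos h7]; omega
  · next h7 => rw [if_neg h7, if_neg h7]; omega

/-- sum over `T` of a constant supported on two points -/
theorem sum_two {T : Finset V} {p q : V} (hpq : p ≠ q) (c : ℤ) :
    ∑ v ∈ T, (if v = p ∨ v = q then c else 0) = (if p ∈ T then c else 0) + (if q ∈ T then c else 0) := by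
  have h : ∀ v, (if v = p ∨ v = q then c else 0) = (if v = p then c else 0) + (if v = q then c else 0) := by
    intro v
    by_cases h1 : v = p
    · have h2 : v ≠ q := fun h => hpq (h1 ▸ h)
      simp [h1, hpq]
    · by_cases h2 : v = q
      · have h3 : q ≠ p := fun h => hpq h.symm
        simp [h2, h3]
      · simp [h1, h2]
  simp only [h]
  rw [sum_add_distrib, sum_ite_eq', sum_ite_eq']

theorem sum_one {T : Finset V} (p : V) (c : ℤ) :
    ∑ v ∈ T, (if v = p then c else 0) = (if p ∈ T then c else 0) := by
  rw [sum_ite_eq']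

theorem tS3a (h1 : XMin) (h2 : XS2) (h3 : XS1) : XS3a := by
  intro V E _ _ a b G hp hG e he hs
  by_contra hcon
  push Not at hcon
  obtain ⟨hb, hab⟩ := par_int hp
  obtain ⟨hpe, hqe, hne⟩ := hG.1.1 e he
  obtain ⟨f, L, hf1, hf2⟩ := del_one h1 hp hG he (fun _ => 0) (fun v => if v = G.p e ∨ v = G.q e then 1 else 0) (by
    intro T hT hT2
    have h4 : ∑ v ∈ T, ((a : ℤ) * ((0 : ℕ) : ℤ) + (b : ℤ) * ((if v = G.p e ∨ v = G.q e then 1 else 0 : ℕ) : ℤ)) =
        (if G.p e ∈ T then (b : ℤ) else 0) + (if G.q e ∈ T then (b : ℤ) else 0) := by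
      rw [← sum_two hne]
      apply sum_congr rfl
      intro v hv
      split <;> simp
    rw [h4, cost_soft hs]
    by_cases hR : T = G.R
    · subst hR
      simp only [hpe, hqe, and_self, if_true]
      linarith
    · have h5 := low_lt h2 hp hG hT hT2 hR
      have h6 := h3 V E a b G hp hG T hT hT2 hR
      have h7 := hG.2.1 T hT hT2
      by_cases hp1 : G.p e ∈ T <;> by_cases hq1 : G.q e ∈ T <;> simp only [hp1, hq1, and_self, and_true, and_false,
        false_and, true_and, if_true, if_false] <;> linarith)
  apply hG.2.2.1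
  refine put_back he (if f (G.p e) = f (G.q e) then ∅ else if f (G.p e) = false then {G.p e} else {G.q e}) hf1 ?_ ?_
  · constructor
    · intro h5; rw [hs] at h5; exact absurd h5 (by simp)
    · intro _ h5
      rw [if_neg h5]
      by_cases h6 : f (G.p e) = false
      · rw [if_pos h6]; left; simp
      · rw [if_neg h6]; right; simp
  · intro v hv
    have h5 := hf2 v hv
    by_cases h6 : f (G.p e) = f (G.q e)
    · rw [if_pos h6]; simp only [notMem_empty, if_false]; omega
    · rw [if_neg h6]
      by_cases h7 : f (G.p e) = false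
      · rw [if_pos h7]
        by_cases h8 : v = G.p e
        · subst h8
          simp only [h7, Bool.false_eq_true, if_false, true_or, if_true, mem_singleton] at h5 ⊢
          exact h5
        · simp only [mem_singleton, h8, if_false]; omega
      · rw [if_neg h7]
        have h9 : f (G.q e) = false := by
          cases hh1 : f (G.p e) <;> cases hh2 : f (G.q e) <;> simp_all
        by_cases h8 : v = G.q e
        · subst h8
          simp only [h9, Bool.false_eq_true, if_false, or_true, if_true, mem_singleton] at h5 ⊢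
          exact h5
        · simp only [mem_singleton, h8, if_false]; omega

theorem tS3b (h1 : XMin) (h2 : XS2) (h3 : XS1) : XS3b := by
  intro V E _ _ a b G hp hG e x y hxy
  obtain ⟨hb, hab⟩ := par_int hp
  obtain ⟨hx, hy, hne⟩ := hxy.mem hG.1
  obtain ⟨he, hs, hends⟩ := hxy
  have hboth : ∀ T : Finset V, (G.p e ∈ T ∧ G.q e ∈ T) ↔ (x ∈ T ∧ y ∈ T) := by
    intro T
    rcases hends with ⟨h4, h5⟩ | ⟨h4, h5⟩
    · rw [h4, h5]
    · rw [h4, h5]; tauto
  have hcov : ∀ (f : V → Bool), f x ≠ f y → Cov G f e {y} := by
    intro f hf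
    refine ⟨fun h5 => ?_, fun _ _ => ?_⟩
    · rw [hs] at h5; exact absurd h5 (by simp)
    · rcases hends with ⟨h4, h5⟩ | ⟨h4, h5⟩
      · right; rw [h5]; simp
      · left; rw [h4]; simp
  have hcov2 : ∀ (f : V → Bool), f x = f y → Cov G f e ∅ := by
    intro f hf
    refine ⟨fun h5 => ?_, fun _ h6 => ?_⟩
    · rw [hs] at h5; exact absurd h5 (by simp)
    · exfalso; apply h6
      rcases hends with ⟨h4, h5⟩ | ⟨h4, h5⟩
      · rw [h4, h5]; exact hf
      · rw [h4, h5]; exact hf.symm
  constructor
  · by_contra hcon
    have hA : G.A x = 0 := by omega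
    obtain ⟨f, L, hf1, hf2⟩ := del_one h1 hp hG he (fun v => if v = y then 1 else 0) (fun _ => 0) (by
      intro T hT hT2
      have h4 : ∑ v ∈ T, ((a : ℤ) * ((if v = y then 1 else 0 : ℕ) : ℤ) + (b : ℤ) * ((0 : ℕ) : ℤ)) =
          (if y ∈ T then (a : ℤ) else 0) := by
        rw [← sum_one]
        apply sum_congr rfl
        intro v hv
        split <;> simp
      rw [h4, cost_soft hs]
      have h7 := hG.2.1 T hT hT2
      by_cases hy1 : y ∈ T
      · by_cases hx1 : x ∈ T
        · rw [if_pos ((hboth T).2 ⟨hx1, hy1⟩), if_pos hy1]; linarith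
        · have hR : T ≠ G.R := by intro h; rw [h] at hx1; exact hx1 hx
          have h5 := low_lt h2 hp hG hT hT2 hR
          rw [if_neg (fun h => hx1 ((hboth T).1 h).1), if_pos hy1]; linarith
      · rw [if_neg (fun h => hy1 ((hboth T).1 h).2), if_neg hy1]; linarith)
    apply hG.2.2.1
    have hfx : f x = false := by
      by_contra h5
      have h6 : f x = true := by simpa using h5
      have h7 := hf2 x hx
      rw [Str.cap, if_pos h6, if_pos h6, hA] at h7
      omega
    by_cases hfy : f y = true
    · refine put_back he {y} hf1 (hcov f (by rw [hfx, hfy]; simp)) ?_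
      intro v hv
      have h5 := hf2 v hv
      by_cases h8 : v = y
      · subst h8
        simp only [hfy, if_true, mem_singleton] at h5 ⊢
        exact h5
      · simp only [mem_singleton, h8, if_false]; omega
    · refine put_back he ∅ hf1 (hcov2 f (by rw [hfx]; simpa using (Eq.symm (by simpa using hfy)))) ?_
      intro v hv
      have h5 := hf2 v hv
      simp only [notMem_empty, if_false]; omega
  · by_contra hcon
    have hB : G.B x = 0 := by omega
    obtain ⟨f, L, hf1, hf2⟩ := del_one h1 hp hG he (fun _ => 0) (fun v => if v = y then 1 else 0) (by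
      intro T hT hT2
      have h4 : ∑ v ∈ T, ((a : ℤ) * ((0 : ℕ) : ℤ) + (b : ℤ) * ((if v = y then 1 else 0 : ℕ) : ℤ)) =
          (if y ∈ T then (b : ℤ) else 0) := by
        rw [← sum_one]
        apply sum_congr rfl
        intro v hv
        split <;> simp
      rw [h4, cost_soft hs]
      have h7 := hG.2.1 T hT hT2
      by_cases hy1 : y ∈ T
      · by_cases hx1 : x ∈ T
        · rw [if_pos ((hboth T).2 ⟨hx1, hy1⟩), if_pos hy1]; linarith
        · have hR : T ≠ G.R := by intro h; rw [h] at hx1; exact hx1 hx
          have h5 := h3 V E a b G hp hG T hT hT2 hR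
          rw [if_neg (fun h => hx1 ((hboth T).1 h).1), if_pos hy1]; linarith
      · rw [if_neg (fun h => hy1 ((hboth T).1 h).2), if_neg hy1]; linarith)
    apply hG.2.2.1
    have hfx : f x = true := by
      by_contra h5
      have h7 := hf2 x hx
      rw [Str.cap, if_neg h5, if_neg h5, hB] at h7
      omega
    by_cases hfy : f y = true
    · refine put_back he ∅ hf1 (hcov2 f (by rw [hfx, hfy])) ?_
      intro v hv
      have h5 := hf2 v hv
      simp only [notMem_empty, if_false]; omega
    · have hfy2 : f y = false := by simpa using hfy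
      refine put_back he {y} hf1 (hcov f (by rw [hfx, hfy2]; simp)) ?_
      intro v hv
      have h5 := hf2 v hv
      by_cases h8 : v = y
      · subst h8
        simp only [hfy2, Bool.false_eq_true, if_false, if_true, mem_singleton] at h5 ⊢
        exact h5
      · simp only [mem_singleton, h8, if_false]; omega

end Pool.Agent.Q115.DF
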