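import Pool.Agent.Q115.DF.Bas

/-! # MP_4006b4_co, job DF-12 (helper154): Step 4, degrees -/

set_option linter.unusedSectionVars false

open Finset

namespace Pool.Agent.Q115.DF

section

variable {V E : Type} [DecidableEq V] [DecidableEq E]

theorem cov_congr12 {G : Str V E} {f f' : V → Bool} {e : E} {L L' : Finset V}
    (hp : f (G.p e) = f' (G.p e)) (hq : f (G.q e) = f' (G.q e))
    (h1 : G.p e ∈ L → G.p e ∈ L') (h2 : G.q e ∈ L → G.q e ∈ L') (h : Cov G f e L) :
    Cov G f' e L' := by
  obtain ⟨k1, k2⟩ := h
  rw [hp, hq] at k1 k2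
  exact ⟨fun a b => ⟨h1 (k1 a b).1, h2 (k1 a b).2⟩, fun a b => (k2 a b).imp h1 h2⟩

/-- colouring of `R - v` and the edges at `v` -/
theorem glueV {a b : ℕ} {G : Str V E} (hW : WF a b G) {v : V} {f : V → Bool}
    {M L : E → Finset V} (h1 : ∀ e ∈ G.ins (G.R.erase v), Cov G f e (L e))
    (h2 : ∀ e ∈ G.at v, Cov G f e (M e))
    (h3 : ∀ w ∈ G.R.erase v, ld M (G.at v) w + ld L (G.ins (G.R.erase v)) w + 1 ≤ G.cap f w)
    (h4 : ld M (G.at v) v + 1 ≤ G.cap f v) : Colorable G := by
  have hD : ∀ e ∈ G.D, e ∉ G.at v → e ∈ G.ins (G.R.erase v) := by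
    intro e he hn
    rw [mem_at] at hn
    have hpv : G.p e ≠ v := fun h => hn ⟨he, Or.inl h⟩
    have hqv : G.q e ≠ v := fun h => hn ⟨he, Or.inr h⟩
    exact mem_ins.2 ⟨he, mem_erase.2 ⟨hpv, (hW.1 e he).1⟩, mem_erase.2 ⟨hqv, (hW.1 e he).2.1⟩⟩
  have hsub : ∀ w, (G.D.filter (fun e => w ∈ (if e ∈ G.at v then M e else (L e).erase v))) ⊆
      (G.at v).filter (fun e => w ∈ M e) ∪
        (G.ins (G.R.erase v)).filter (fun e => w ∈ (L e).erase v) := by
    intro w e he
    obtain ⟨heD, hwe⟩ := mem_filter.1 he
    rw [mem_union, mem_filter, mem_filter]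
    by_cases hat : e ∈ G.at v
    · rw [if_pos hat] at hwe
      exact Or.inl ⟨hat, hwe⟩
    · rw [if_neg hat] at hwe
      exact Or.inr ⟨hD e heD hat, hwe⟩
  refine ⟨f, fun e => if e ∈ G.at v then M e else (L e).erase v, fun e he => ?_, fun w hw => ?_⟩
  · by_cases hat : e ∈ G.at v
    · simp only [if_pos hat]; exact h2 e hat
    · simp only [if_neg hat]
      have hin := hD e he hat
      obtain ⟨-, hp, hq⟩ := mem_ins.1 hin
      exact cov_congr12 rfl rfl (fun h => mem_erase.2 ⟨(mem_erase.1 hp).1, h⟩)
        (fun h => mem_erase.2 ⟨(mem_erase.1 hq).1, h⟩) (h1 e hin)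
  · have k1 := (card_le_card (hsub w)).trans (card_union_le _ _)
    have k0 : ld (fun e => if e ∈ G.at v then M e else (L e).erase v) G.D w =
      (G.D.filter (fun e => w ∈ (if e ∈ G.at v then M e else (L e).erase v))).card := rfl
    rw [k0]
    by_cases hwv : w = v
    · subst hwv
      have k2 : ((G.ins (G.R.erase w)).filter (fun e => w ∈ (L e).erase w)).card = 0 := by
        rw [card_eq_zero, filter_eq_empty_iff]
        intro e _ h
        exact (mem_erase.1 h).1 rfl
      unfold ld at h4
      omega
    · have k2 : ((G.ins (G.R.erase v)).filter (fun e => w ∈ (L e).erase v)).card ≤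
          ((G.ins (G.R.erase v)).filter (fun e => w ∈ L e)).card := by
        refine card_le_card fun e he => ?_
        obtain ⟨k3, k4⟩ := mem_filter.1 he
        exact mem_filter.2 ⟨k3, (mem_erase.1 k4).2⟩
      have k5 := h3 w (mem_erase.2 ⟨hwv, hw⟩)
      unfold ld at k5
      omega

/-- the edges between `T` and `v` -/
theorem cro_v {a b : ℕ} {G : Str V E} (hW : WF a b G) {v : V} {T : Finset V} :
    G.cro T {v} = (G.hat v).filter (fun e => G.oth e v ∈ T) ∪
      (G.sat v).filter (fun e => G.oth e v ∈ T) := by
  ext e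
  rw [mem_cro, mem_union, mem_filter, mem_filter, mem_hat, mem_sat]
  constructor
  · rintro ⟨he, ⟨h1, h2⟩ | ⟨h1, h2⟩⟩
    · have hq := mem_singleton.1 h2
      have ho : G.oth e v = G.p e := oth_q hW he hq
      cases hh : G.hd e with
      | true => exact Or.inl ⟨⟨he, Or.inr hq, rfl⟩, by rw [ho]; exact h1⟩
      | false => exact Or.inr ⟨⟨he, Or.inr hq, rfl⟩, by rw [ho]; exact h1⟩
    · have hp := mem_singleton.1 h1
      have ho : G.oth e v = G.q e := oth_p hp
      cases hh : G.hd e with
      | true => exact Or.inl ⟨⟨he, Or.inl hp, rfl⟩, by rw [ho]; exact h2⟩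
      | false => exact Or.inr ⟨⟨he, Or.inl hp, rfl⟩, by rw [ho]; exact h2⟩
  · have key : ∀ e, e ∈ G.D → (G.p e = v ∨ G.q e = v) → G.oth e v ∈ T →
        (G.p e ∈ T ∧ G.q e ∈ ({v} : Finset V)) ∨ (G.p e ∈ ({v} : Finset V) ∧ G.q e ∈ T) := by
      intro e he hpq ho
      rcases at_ends hW (mem_at.2 ⟨he, hpq⟩) with ⟨h1, h2⟩ | ⟨h1, h2⟩
      · exact Or.inr ⟨mem_singleton.2 h1, by rw [h2]; exact ho⟩
      · exact Or.inl ⟨by rw [h1]; exact ho, mem_singleton.2 h2⟩
    rintro (⟨⟨he, h1, h2⟩, ho⟩ | ⟨⟨he, h1, h2⟩, ho⟩)
    · exact ⟨he, key e he h1 ho⟩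
    · exact ⟨he, key e he h1 ho⟩

theorem cro_sum {a b : ℕ} {G : Str V E} (hW : WF a b G) {v : V} {T : Finset V} :
    ∑ e ∈ G.cro T {v}, G.cost (a : ℤ) b e =
      (b : ℤ) * (a - 1) * (((G.hat v).filter (fun e => G.oth e v ∈ T)).card : ℤ) +
        a * (((G.sat v).filter (fun e => G.oth e v ∈ T)).card : ℤ) := by
  rw [cro_v hW, sum_union]
  · rw [sum_congr rfl fun e he => cost_hard (mem_hat.1 (mem_filter.1 he).1).2.2,
      sum_congr rfl fun e he => cost_soft (mem_sat.1 (mem_filter.1 he).1).2.2, sum_const, sum_const,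
      nsmul_eq_mul, nsmul_eq_mul]
    ring
  · rw [disjoint_left]
    intro e h1 h2
    have k1 := (mem_hat.1 (mem_filter.1 h1).1).2.2
    have k2 := (mem_sat.1 (mem_filter.1 h2).1).2.2
    rw [k1] at k2
    exact absurd k2 (by simp)

end

theorem tS4 (h1 : XMin) (h2 : XS2) (h3 : XS1) (h4 : XTwo) (h5 : XUnion) : XS4 := by
  intro V E _ _ a b G hp hG v hv
  by_contra hlt
  push Not at hlt
  have hW := hG.1
  obtain ⟨hb3, hab⟩ := hp
  have hp : Par a b := ⟨hb3, hab⟩
  obtain ⟨ib3, iab⟩ := par_int hp
  have hnc := hG.2.2.1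
  obtain ⟨S, hS⟩ : ∃ S, S = G.R.erase v := ⟨_, rfl⟩
  have hvS : v ∉ S := by rw [hS]; exact notMem_erase v _
  have hSR : S ⊆ G.R := by rw [hS]; exact erase_subset v _
  have hSne : S ≠ G.R := fun h => hvS (h ▸ hv)
  have hSnon : S.Nonempty := by
    rw [hS, ← card_pos, card_erase_of_mem hv]
    have := h4 V E a b G hp hG
    omega
  have hcapv := hW.2 v hv
  have iA : (G.A v : ℤ) + 1 ≤ b := by exact_mod_cast hcapv.1
  have iB : (G.B v : ℤ) + 1 ≤ a := by exact_mod_cast hcapv.2
  -- the potential of `T ∪ {v}`
  have hun : ∀ T ⊆ S, G.rho a b (T ∪ {v}) = G.rho a b T + G.wt a b v -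
      ((b : ℤ) * (a - 1) * (((G.hat v).filter (fun e => G.oth e v ∈ T)).card : ℤ) +
        a * (((G.sat v).filter (fun e => G.oth e v ∈ T)).card : ℤ)) := by
    intro T hT
    have hvT : v ∉ T := fun h => hvS (hT h)
    rw [h5 V E a b G T {v} (disjoint_singleton_right.2 hvT), rho_single hW, cro_sum hW]
  obtain ⟨y, hy⟩ : ∃ y : V → ℕ, ∀ w, y w = ((G.hat v).filter (fun e => G.oth e v = w)).card :=
    ⟨_, fun _ => rfl⟩
  have hysum : ∀ T : Finset V, ∑ w ∈ T, y w =
      ((G.hat v).filter (fun e => G.oth e v ∈ T)).card := by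
    intro T
    have hfib := card_eq_sum_card_fiberwise (s := (G.hat v).filter (fun e => G.oth e v ∈ T))
      (f := fun e => G.oth e v) (t := T) (fun e he => (mem_filter.1 (mem_coe.1 he)).2)
    rw [hfib]
    refine sum_congr rfl fun w hw => ?_
    rw [hy, filter_filter]
    congr 1
    refine filter_congr fun e _ => ?_
    constructor
    · intro h; exact ⟨by rw [h]; exact hw, h⟩
    · rintro ⟨-, h⟩; exact h
  by_cases hall : ∀ T ⊆ S, T.Nonempty →
      -(b : ℤ) < G.rho a b T - b * (((G.hat v).filter (fun e => G.oth e v ∈ T)).card : ℤ)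
  · -- main case
    have hcol := h1 V E a b G S ∅ (fun _ => 0) y (by omega) (by omega) hG hSR (Or.inl hSne) (by
      intro T hT hTn
      have k1 := hall T hT hTn
      rw [empty_inter, sum_empty]
      have k2 : ∑ w ∈ T, ((a : ℤ) * (((fun _ : V => 0) w : ℕ) : ℤ) + (b : ℤ) * (y w : ℤ)) =
          b * (((G.hat v).filter (fun e => G.oth e v ∈ T)).card : ℤ) := by
        rw [← hysum, Nat.cast_sum, mul_sum]
        refine sum_congr rfl fun w _ => ?_
        push_cast
        ring
      rw [k2]
      linarith)
    obtain ⟨f, L, hfL⟩ := hcol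
    obtain ⟨hres, hslack⟩ := res_of_mod hfL
    rw [isCol_res] at hres
    obtain ⟨f', hf'⟩ : ∃ f' : V → Bool, f' = Function.update f v false := ⟨_, rfl⟩
    have f'v : f' v = false := by rw [hf', Function.update_self]
    have f'w : ∀ w, w ≠ v → f' w = f w := fun w hw => by rw [hf', Function.update_of_ne hw]
    obtain ⟨M, hM⟩ : ∃ M : E → Finset V, ∀ e, M e = if G.hd e = true then
        (if f (G.oth e v) = false then {v, G.oth e v} else ∅) else {v} := ⟨_, fun _ => rfl⟩
    refine hnc (glueV hW (v := v) (f := f') (M := M) (L := L) ?_ ?_ ?_ ?_)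
    · intro e he
      rw [← hS] at he
      obtain ⟨-, hpe, hqe⟩ := mem_ins.1 he
      exact cov_congr12 (f'w _ fun h => hvS (h ▸ hpe)).symm (f'w _ fun h => hvS (h ▸ hqe)).symm
        (fun h => h) (fun h => h) (hres.1 e he)
    · intro e he
      obtain ⟨-, hov⟩ := oth_mem hW he
      have hfo := f'w _ hov
      constructor
      · intro hh heq
        rw [hM, if_pos hh]
        rcases at_ends hW he with ⟨k1, k2⟩ | ⟨k1, k2⟩
        · rw [k1, k2, f'v, hfo] at heq
          rw [if_pos heq.symm, k1, k2]
          simp
        · rw [k1, k2, f'v, hfo] at heq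
          rw [if_pos heq, k1, k2]
          simp
      · intro hh _
        rw [hM, if_neg (by rw [hh]; simp)]
        rcases at_ends hW he with ⟨k1, -⟩ | ⟨-, k2⟩
        · rw [k1]; exact Or.inl (mem_singleton_self v)
        · rw [k2]; exact Or.inr (mem_singleton_self v)
    · intro w hw
      rw [← hS] at hw ⊢
      have hwv : w ≠ v := fun h => hvS (h ▸ hw)
      have k1 := hslack w hw
      have k2 : ld M (G.at v) w ≤ if f w = true then 0 else y w := by
        unfold ld
        have k3 : ∀ e ∈ (G.at v).filter (fun e => w ∈ M e), G.hd e = true ∧ G.oth e v = w ∧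
            f w = false := by
          intro e he
          have k4 := (mem_filter.1 he).2
          rw [hM] at k4
          split_ifs at k4 with k5 k6
          · rw [mem_insert, mem_singleton] at k4
            rcases k4 with k4 | k4
            · exact absurd k4 hwv
            · exact ⟨k5, k4.symm, by rw [k4]; exact k6⟩
          · exact absurd k4 (notMem_empty w)
          · exact absurd (mem_singleton.1 k4) hwv
        cases hfw : f w with
        | true =>
          simp only [if_true]
          rw [Nat.le_zero, card_eq_zero, eq_empty_iff_forall_notMem]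
          intro e he
          have := (k3 e he).2.2
          rw [hfw] at this
          exact absurd this (by simp)
        | false =>
          simp only [Bool.false_eq_true, if_false]
          rw [hy]
          refine card_le_card fun e he => ?_
          have k4 := k3 e he
          have k5 := mem_at.1 (mem_filter.1 he).1
          exact mem_filter.2 ⟨mem_hat.2 ⟨k5.1, k5.2, k4.1⟩, k4.2.1⟩
      have k3 : G.cap f' w = G.cap f w := by unfold Str.cap; rw [f'w w hwv]
      rw [k3]
      omega
    · have k1 : G.cap f' v = G.B v := by unfold Str.cap; rw [f'v]; simp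
      have k2 : ld M (G.at v) v ≤ (G.at v).card := card_filter_le _ _
      rw [k1]
      omega
  · -- exceptional case
    push Not at hall
    obtain ⟨T, hTS, hTn, hbad⟩ := hall
    obtain ⟨h, hh⟩ : ∃ h, h = ((G.hat v).filter (fun e => G.oth e v ∈ T)).card := ⟨_, rfl⟩
    obtain ⟨s, hs⟩ : ∃ s, s = ((G.sat v).filter (fun e => G.oth e v ∈ T)).card := ⟨_, rfl⟩
    have hunT := hun T hTS
    rw [← hh, ← hs] at hunT
    rw [← hh] at hbad
    have hwt : G.wt (a : ℤ) b v = a * (G.A v : ℤ) + b * (G.B v : ℤ) - b := rfl
    have hTR : T ⊆ G.R := hTS.trans hSR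
    have hTne : T ≠ G.R := fun hT => hvS (hTS (hT ▸ hv))
    have iA2 : (a : ℤ) * (G.A v : ℤ) ≤ a * (b - 1) := mul_le_mul_of_nonneg_left (by linarith) (by linarith)
    have iB2 : (b : ℤ) * (G.B v : ℤ) ≤ b * (a - 1) := mul_le_mul_of_nonneg_left (by linarith) (by linarith)
    have hs0 : (0 : ℤ) ≤ s := Int.natCast_nonneg s
    have has0 : (0 : ℤ) ≤ a * s := mul_nonneg (by linarith) hs0
    have hh2 : 2 ≤ h := by
      by_contra hlt2
      have h01 : h = 0 ∨ h = 1 := by omega
      rcases h01 with h0 | h0
      · rw [h0] at hbad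
        have := hG.2.1 T hTR hTn
        push_cast at hbad
        linarith
      · rw [h0] at hbad
        have := h3 V E a b G hp hG T hTR hTn hTne
        push_cast at hbad
        linarith
    have ih2 : (2 : ℤ) ≤ h := by exact_mod_cast hh2
    have hHb : 0 ≤ (b : ℤ) * (a - 1) - b := by nlinarith
    have hgrow : ((b : ℤ) * (a - 1) - b) * 2 ≤ ((b : ℤ) * (a - 1) - b) * h :=
      mul_le_mul_of_nonneg_left ih2 hHb
    have hTv : T ∪ {v} = G.R := by
      by_contra hne
      have k1 : T ∪ {v} ⊆ G.R := union_subset hTR (singleton_subset_iff.2 hv)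
      have k2 := low_lt h2 hp hG k1 (hTn.mono subset_union_left) hne
      nlinarith
    have hTS' : T = S := by
      refine Subset.antisymm hTS fun w hw => ?_
      have : w ∈ T ∪ {v} := by rw [hTv]; exact hSR hw
      rcases mem_union.1 this with k | k
      · exact k
      · exact absurd ((mem_singleton.1 k) ▸ hw) hvS
    have hrR : -(b : ℤ) < G.rho a b (T ∪ {v}) := by
      rw [hTv]; exact hG.2.1 G.R (Subset.refl _) ⟨v, hv⟩
    -- exactly two hard edges
    have hh3 : h = 2 := by
      by_contra hne
      have h3' : 3 ≤ h := by omega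
      have ih3 : (3 : ℤ) ≤ h := by exact_mod_cast h3'
      have := mul_le_mul_of_nonneg_left ih3 hHb
      nlinarith
    rw [hh3] at hunT hbad
    push_cast at hunT hbad
    have hs3 : s = 0 := by
      by_contra hne
      have h1' : 1 ≤ s := by omega
      have i1 : (1 : ℤ) ≤ s := by exact_mod_cast h1'
      have := mul_le_mul_of_nonneg_left i1 (show (0 : ℤ) ≤ a by linarith)
      nlinarith
    rw [hs3] at hunT
    push_cast at hunT
    have hAv : G.A v + 1 = b := by
      by_contra hne
      have k1 : G.A v + 2 ≤ b := by omega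
      have k2 : (G.A v : ℤ) + 2 ≤ b := by exact_mod_cast k1
      have k3 : (a : ℤ) * (G.A v : ℤ) ≤ a * (b - 2) :=
        mul_le_mul_of_nonneg_left (by linarith) (by linarith)
      nlinarith
    have hBv : G.B v + 1 = a := by
      by_contra hne
      have k1 : G.B v + 2 ≤ a := by omega
      have k2 : (G.B v : ℤ) + 2 ≤ a := by exact_mod_cast k1
      have k3 : (b : ℤ) * (G.B v : ℤ) ≤ b * (a - 2) :=
        mul_le_mul_of_nonneg_left (by linarith) (by linarith)
      nlinarith
    have hoS : ∀ e ∈ G.at v, G.oth e v ∈ S := by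
      intro e he
      obtain ⟨k1, k2⟩ := oth_mem hW he
      rw [hS]
      exact mem_erase.2 ⟨k2, k1⟩
    have hsat : G.sat v = ∅ := by
      rw [eq_empty_iff_forall_notMem]
      intro e he
      have k1 : e ∈ (G.sat v).filter (fun e => G.oth e v ∈ T) :=
        mem_filter.2 ⟨he, by
          rw [hTS']
          exact hoS e (mem_at.2 ⟨(mem_sat.1 he).1, (mem_sat.1 he).2.1⟩)⟩
      have k2 := card_pos.2 ⟨e, k1⟩
      omega
    have hhat : (G.hat v).card = 2 := by
      rw [← hh3, hh]
      congr 1
      rw [eq_comm, filter_eq_self]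
      intro e he
      rw [hTS']
      exact hoS e (mem_at.2 ⟨(mem_hat.1 he).1, (mem_hat.1 he).2.1⟩)
    obtain ⟨e1, e2, he12, hhe⟩ := card_eq_two.1 hhat
    have hatv : G.at v = {e1, e2} := by
      rw [← hhe]
      ext e
      rw [mem_hat, mem_at]
      constructor
      · rintro ⟨k1, k2⟩
        refine ⟨k1, k2, ?_⟩
        by_contra k3
        have k4 : e ∈ G.sat v := mem_sat.2 ⟨k1, k2, by simpa using k3⟩
        rw [hsat] at k4
        exact absurd k4 (notMem_empty e)
      · rintro ⟨k1, k2, -⟩; exact ⟨k1, k2⟩
    have he1h : e1 ∈ G.hat v := by rw [hhe]; simp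
    have he2h : e2 ∈ G.hat v := by rw [hhe]; simp
    have he1a : e1 ∈ G.at v := by rw [hatv]; simp
    have he2a : e2 ∈ G.at v := by rw [hatv]; simp
    obtain ⟨he1D, -, he1d⟩ := mem_hat.1 he1h
    obtain ⟨he2D, -, he2d⟩ := mem_hat.1 he2h
    obtain ⟨w1, hw1⟩ : ∃ w1, w1 = G.oth e1 v := ⟨_, rfl⟩
    obtain ⟨w2, hw2⟩ : ∃ w2, w2 = G.oth e2 v := ⟨_, rfl⟩
    have hw1S : w1 ∈ S := by rw [hw1]; exact hoS e1 he1a
    have hw2S : w2 ∈ S := by rw [hw2]; exact hoS e2 he2a
    have hw1v : w1 ≠ v := fun k => hvS (k ▸ hw1S)
    have hw2v : w2 ≠ v := fun k => hvS (k ▸ hw2S)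
    -- covering of an edge at `v`
    have hcovd : ∀ (f : V → Bool) (e : E), e ∈ G.hat v → f v ≠ f (G.oth e v) → ∀ Q, Cov G f e Q := by
      intro f e he hne Q
      refine cov_of_ne (mem_hat.1 he).2.2 ?_ Q
      rcases at_ends hW (mem_at.2 ⟨(mem_hat.1 he).1, (mem_hat.1 he).2.1⟩) with ⟨k1, k2⟩ | ⟨k1, k2⟩
      · rw [k1, k2]; exact hne
      · rw [k1, k2]; exact hne.symm
    have hcove : ∀ (f : V → Bool) (e : E), e ∈ G.hat v → ∀ Q : Finset V, v ∈ Q → G.oth e v ∈ Q →
        Cov G f e Q := by
      intro f e he Q hvQ hoQ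
      have hhd := (mem_hat.1 he).2.2
      refine ⟨fun _ _ => ?_, fun k _ => absurd (hhd.symm.trans k) (by simp)⟩
      rcases at_ends hW (mem_at.2 ⟨(mem_hat.1 he).1, (mem_hat.1 he).2.1⟩) with ⟨k1, k2⟩ | ⟨k1, k2⟩
      · rw [k1, k2]; exact ⟨hvQ, hoQ⟩
      · rw [k1, k2]; exact ⟨hoQ, hvQ⟩
    have hcap2 : ∀ f : V → Bool, 2 ≤ G.cap f v := by
      intro f
      unfold Str.cap
      split_ifs <;> omega
    by_cases hww : w1 = w2
    · -- equal neighbours
      have hcol := h1 V E a b G S ∅ (fun _ => 0) (fun _ => 0) (by omega) (by omega) hG hSR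
        (Or.inl hSne) (by
        intro T' hT' hTn'
        have k1 := hG.2.1 T' (hT'.trans hSR) hTn'
        rw [empty_inter, sum_empty]
        have k2 : ∑ w ∈ T', ((a : ℤ) * (((fun _ : V => 0) w : ℕ) : ℤ) +
            (b : ℤ) * (((fun _ : V => 0) w : ℕ) : ℤ)) = 0 := by
          refine sum_eq_zero fun w _ => ?_
          push_cast
          ring
        rw [k2]
        linarith)
      obtain ⟨f, L, hfL⟩ := hcol
      obtain ⟨hres, -⟩ := res_of_mod hfL
      rw [isCol_res] at hres
      obtain ⟨f', hf'⟩ : ∃ f' : V → Bool, f' = Function.update f v (!(f w1)) := ⟨_, rfl⟩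
      have f'v : f' v = !(f w1) := by rw [hf', Function.update_self]
      have f'w : ∀ w, w ≠ v → f' w = f w := fun w hw => by rw [hf', Function.update_of_ne hw]
      have hdif : f' v ≠ f' w1 := by rw [f'v, f'w w1 hw1v]; cases f w1 <;> simp
      refine hnc (glueV hW (v := v) (f := f') (M := fun _ => ∅) (L := L) ?_ ?_ ?_ ?_)
      · intro e he
        rw [← hS] at he
        obtain ⟨-, hpe, hqe⟩ := mem_ins.1 he
        exact cov_congr12 (f'w _ fun h => hvS (h ▸ hpe)).symm (f'w _ fun h => hvS (h ▸ hqe)).symm
          (fun h => h) (fun h => h) (hres.1 e he)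
      · intro e he
        rw [hatv, mem_insert, mem_singleton] at he
        rcases he with rfl | rfl
        · exact hcovd f' _ he1h (by rw [← hw1]; exact hdif) _
        · exact hcovd f' _ he2h (by rw [← hw2, ← hww]; exact hdif) _
      · intro w hw
        rw [← hS] at hw ⊢
        have hwv : w ≠ v := fun h => hvS (h ▸ hw)
        have k3 : G.cap f' w = G.cap f w := by unfold Str.cap; rw [f'w w hwv]
        have k4 : ld (fun _ : E => (∅ : Finset V)) (G.at v) w = 0 := by simp [ld]
        rw [k3, k4, zero_add]
        exact hres.2 w hw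
      · have k4 : ld (fun _ : E => (∅ : Finset V)) (G.at v) v = 0 := by simp [ld]
        rw [k4]
        have := hcap2 f'
        omega
    · -- different neighbours: replace `v` by a soft edge
      have hvT1 : ∀ T', T' ⊆ S → v ∉ T' := fun T' hT' k => hvS (hT' k)
      have he1ins : ∀ T', T' ⊆ S → e1 ∉ G.ins T' := by
        intro T' hT' k
        obtain ⟨-, k1, k2⟩ := mem_ins.1 k
        rcases at_ends hW he1a with ⟨k3, -⟩ | ⟨-, k3⟩
        · exact hvT1 T' hT' (k3 ▸ k1)
        · exact hvT1 T' hT' (k3 ▸ k2)
      have he2ins : ∀ T', T' ⊆ S → e2 ∉ G.ins T' := by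
        intro T' hT' k
        obtain ⟨-, k1, k2⟩ := mem_ins.1 k
        rcases at_ends hW he2a with ⟨k3, -⟩ | ⟨-, k3⟩
        · exact hvT1 T' hT' (k3 ▸ k1)
        · exact hvT1 T' hT' (k3 ▸ k2)
      have hDcl : ∀ e ∈ G.D, e ≠ e1 → e ≠ e2 → e ∈ G.ins S := by
        intro e he hn1 hn2
        have hn : e ∉ G.at v := by rw [hatv]; simp [hn1, hn2]
        rw [mem_at] at hn
        rw [hS]
        exact mem_ins.2 ⟨he, mem_erase.2 ⟨fun h => hn ⟨he, Or.inl h⟩, (hW.1 e he).1⟩,
          mem_erase.2 ⟨fun h => hn ⟨he, Or.inr h⟩, (hW.1 e he).2.1⟩⟩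
      obtain ⟨G', hG'⟩ : ∃ G' : Str V E, G' = Str.mk S (G.D.erase e2)
        (Function.update G.p e1 w1) (Function.update G.q e1 w2)
        (Function.update G.hd e1 false) G.A G.B := ⟨_, rfl⟩
      have gR : G'.R = S := by rw [hG']
      have gD : G'.D = G.D.erase e2 := by rw [hG']
      have gp1 : G'.p e1 = w1 := by rw [hG']; exact Function.update_self _ _ _
      have gq1 : G'.q e1 = w2 := by rw [hG']; exact Function.update_self _ _ _
      have gh1 : G'.hd e1 = false := by rw [hG']; exact Function.update_self _ _ _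
      have gp : ∀ e, e ≠ e1 → G'.p e = G.p e := fun e he => by
        rw [hG']; exact Function.update_of_ne he _ _
      have gq : ∀ e, e ≠ e1 → G'.q e = G.q e := fun e he => by
        rw [hG']; exact Function.update_of_ne he _ _
      have gh : ∀ e, e ≠ e1 → G'.hd e = G.hd e := fun e he => by
        rw [hG']; exact Function.update_of_ne he _ _
      have gA : G'.A = G.A := by rw [hG']
      have gB : G'.B = G.B := by rw [hG']
      have gmeas : G'.meas < G.meas := by
        unfold Str.meas
        rw [gR, gD]
        have k1 : S.card ≤ G.R.card := card_le_card hSR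
        have k2 : (G.D.erase e2).card < G.D.card := card_erase_lt_of_mem he2D
        omega
      have gWF : WF a b G' := by
        refine ⟨fun e he => ?_, fun w hw => ?_⟩
        · rw [gD, mem_erase] at he
          rw [gR]
          by_cases k : e = e1
          · rw [k, gp1, gq1]; exact ⟨hw1S, hw2S, hww⟩
          · rw [gp e k, gq e k]
            obtain ⟨-, k1, k2⟩ := mem_ins.1 (hDcl e he.2 k he.1)
            exact ⟨k1, k2, (hW.1 e he.2).2.2⟩
        · rw [gR] at hw
          rw [gA, gB]
          exact hW.2 w (hSR hw)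
      have gins : ∀ T' ⊆ S, G'.ins T' = if w1 ∈ T' ∧ w2 ∈ T' then insert e1 (G.ins T') else G.ins T' := by
        intro T' hT'
        ext e
        rw [mem_ins, gD, mem_erase]
        by_cases k : e = e1
        · rw [k, gp1, gq1]
          split_ifs with k1
          · rw [mem_insert]
            exact ⟨fun _ => Or.inl rfl, fun _ => ⟨⟨he12, he1D⟩, k1⟩⟩
          · exact ⟨fun k2 => absurd k2.2 k1, fun k2 => absurd k2 (he1ins T' hT')⟩
        · rw [gp e k, gq e k]
          have k3 : (e ≠ e2 ∧ e ∈ G.D) ∧ G.p e ∈ T' ∧ G.q e ∈ T' ↔ e ∈ G.ins T' := by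
            rw [mem_ins]
            constructor
            · rintro ⟨⟨-, k4⟩, k5⟩; exact ⟨k4, k5⟩
            · rintro ⟨k4, k5⟩
              refine ⟨⟨fun k6 => ?_, k4⟩, k5⟩
              rw [k6] at k4 k5
              exact he2ins T' hT' (mem_ins.2 ⟨k4, k5⟩)
          rw [k3]
          split_ifs with k1
          · rw [mem_insert]
            exact ⟨fun k4 => Or.inr k4, fun k4 => k4.resolve_left k⟩
          · rfl
      have gcost : ∀ e, e ≠ e1 → G'.cost (a : ℤ) b e = G.cost (a : ℤ) b e := by
        intro e he
        unfold Str.cost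
        rw [gh e he]
      have gwt : ∀ w, G'.wt (a : ℤ) b w = G.wt (a : ℤ) b w := by
        intro w
        unfold Str.wt
        rw [gA, gB]
      have gHyp : Hyp a b G' := by
        intro T' hT' hTn'
        rw [gR] at hT'
        have k1 := hG.2.1 T' (hT'.trans hSR) hTn'
        have k2 : ∑ e ∈ G.ins T', G'.cost (a : ℤ) b e = ∑ e ∈ G.ins T', G.cost (a : ℤ) b e :=
          sum_congr rfl fun e he => gcost e fun k => he1ins T' hT' (k ▸ he)
        have k3 : ∑ w ∈ T', G'.wt (a : ℤ) b w = ∑ w ∈ T', G.wt (a : ℤ) b w :=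
          sum_congr rfl fun w _ => gwt w
        unfold Str.rho
        rw [gins T' hT', k3]
        split_ifs with k4
        · rw [sum_insert (he1ins T' hT'), k2, cost_soft gh1]
          have k5 := hun T' hT'
          have k6 : ((G.hat v).filter (fun e => G.oth e v ∈ T')).card = 2 := by
            rw [← hhat]
            congr 1
            rw [filter_eq_self, hhe]
            intro e he
            rw [mem_insert, mem_singleton] at he
            rcases he with rfl | rfl
            · rw [← hw1]; exact k4.1
            · rw [← hw2]; exact k4.2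
          have k7 : ((G.sat v).filter (fun e => G.oth e v ∈ T')).card = 0 := by
            rw [hsat]; simp
          rw [k6, k7] at k5
          have k8 : G.wt (a : ℤ) b v = 2 * (b * (a - 1)) - a := by
            rw [hwt]
            have k9 : (G.A v : ℤ) = b - 1 := by
              have : ((G.A v + 1 : ℕ) : ℤ) = b := by rw [hAv]
              push_cast at this; linarith
            have k10 : (G.B v : ℤ) = a - 1 := by
              have : ((G.B v + 1 : ℕ) : ℤ) = a := by rw [hBv]
              push_cast at this; linarith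
            rw [k9, k10]; ring
          have k9 : T' ∪ {v} ⊆ G.R := union_subset (hT'.trans hSR) (singleton_subset_iff.2 hv)
          have k10 := hG.2.1 (T' ∪ {v}) k9 (hTn'.mono subset_union_left)
          rw [k5, k8] at k10
          unfold Str.rho at k10
          push_cast at k10
          linarith
        · rw [k2]
          exact k1
      obtain ⟨f, L, hc, hl⟩ := hG.2.2.2 G' gmeas gWF gHyp
      rw [gD] at hc hl
      rw [gR] at hl
      have hcapG : ∀ w, G'.cap f w = G.cap f w := fun w => by unfold Str.cap; rw [gA, gB]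
      have hinsS : ∀ e ∈ G.ins S, e ≠ e1 ∧ e ≠ e2 := fun e he =>
        ⟨fun k => he1ins S (Subset.refl _) (k ▸ he), fun k => he2ins S (Subset.refl _) (k ▸ he)⟩
      have hcS : ∀ e ∈ G.ins S, Cov G f e (L e) := by
        intro e he
        obtain ⟨k1, k2⟩ := hinsS e he
        obtain ⟨k3, k4⟩ := hc e (mem_erase.2 ⟨k2, ins_sub he⟩)
        rw [gh e k1, gp e k1, gq e k1] at k3 k4
        exact ⟨k3, k4⟩
      have hDe : G.D.erase e2 = {e1} ∪ G.ins S := by
        ext e
        rw [mem_erase, mem_union, mem_singleton]
        constructor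
        · rintro ⟨k1, k2⟩
          by_cases k3 : e = e1
          · exact Or.inl k3
          · exact Or.inr (hDcl e k2 k3 k1)
        · rintro (k1 | k1)
          · rw [k1]; exact ⟨he12, he1D⟩
          · exact ⟨(hinsS e k1).2, ins_sub k1⟩
      have hdis : Disjoint ({e1} : Finset E) (G.ins S) :=
        disjoint_singleton_left.2 (he1ins S (Subset.refl _))
      have hlS : ∀ w ∈ S, ld L {e1} w + ld L (G.ins S) w + 1 ≤ G.cap f w := by
        intro w hw
        have k1 := hl w hw
        rw [hDe, ld_union L hdis, hcapG] at k1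
        exact k1
      -- a general extension
      have hext : ∀ (c : Bool) (M : E → Finset V), Cov G (Function.update f v c) e1 (M e1) →
          Cov G (Function.update f v c) e2 (M e2) →
          (∀ w ∈ S, ld M (G.at v) w ≤ ld L {e1} w) → ld M (G.at v) v ≤ 1 → False := by
        intro c M m1 m2 m3 m4
        have f'w : ∀ w, w ≠ v → (Function.update f v c) w = f w := fun w hw =>
          Function.update_of_ne hw _ _
        refine hnc (glueV hW (v := v) (f := Function.update f v c) (M := M) (L := L) ?_ ?_ ?_ ?_)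
        · intro e he
          rw [← hS] at he
          obtain ⟨-, hpe, hqe⟩ := mem_ins.1 he
          exact cov_congr12 (f'w _ fun h => hvS (h ▸ hpe)).symm (f'w _ fun h => hvS (h ▸ hqe)).symm
            (fun h => h) (fun h => h) (hcS e he)
        · intro e he
          rw [hatv, mem_insert, mem_singleton] at he
          rcases he with rfl | rfl
          · exact m1
          · exact m2
        · intro w hw
          rw [← hS] at hw ⊢
          have hwv : w ≠ v := fun h => hvS (h ▸ hw)
          have k3 : G.cap (Function.update f v c) w = G.cap f w := by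
            unfold Str.cap; rw [f'w w hwv]
          rw [k3]
          have k4 := hlS w hw
          have k5 := m3 w hw
          omega
        · have := hcap2 (Function.update f v c)
          omega
      have f'w1 : ∀ c : Bool, (Function.update f v c) w1 = f w1 := fun c =>
        Function.update_of_ne hw1v _ _
      have f'w2 : ∀ c : Bool, (Function.update f v c) w2 = f w2 := fun c =>
        Function.update_of_ne hw2v _ _
      have f'v : ∀ c : Bool, (Function.update f v c) v = c := fun c => Function.update_self _ _ _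
      by_cases hff : f w1 = f w2
      · refine hext (!(f w1)) (fun _ => ∅) ?_ ?_ ?_ ?_
        · refine hcovd _ _ he1h ?_ _
          rw [← hw1, f'v, f'w1]; cases f w1 <;> simp
        · refine hcovd _ _ he2h ?_ _
          rw [← hw2, f'v, f'w2, hff]; cases f w2 <;> simp
        · intro w _; simp [ld]
        · simp [ld]
      · have hce1 := (hc e1 (mem_erase.2 ⟨he12, he1D⟩)).2 gh1 (by rw [gp1, gq1]; exact hff)
        rw [gp1, gq1] at hce1
        rcases hce1 with k | k
        · refine hext (f w1) (fun e => if e = e1 then {v, w1} else ∅) ?_ ?_ ?_ ?_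
          · refine hcove _ _ he1h _ ?_ ?_
            · simp
            · rw [← hw1]; simp
          · refine hcovd _ _ he2h ?_ _
            rw [← hw2, f'v, f'w2]; exact hff
          · intro w hw
            have hwv : w ≠ v := fun h => hvS (h ▸ hw)
            unfold ld
            refine card_le_card fun e he => ?_
            obtain ⟨k1, k2⟩ := mem_filter.1 he
            beta_reduce at k2
            split_ifs at k2 with k3
            · rw [mem_insert, mem_singleton] at k2
              rw [mem_filter, mem_singleton]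
              refine ⟨k3, ?_⟩
              rw [k3, k2.resolve_left hwv]
              exact k
            · exact absurd k2 (notMem_empty w)
          · unfold ld
            rw [← card_singleton e1]
            refine card_le_card fun e he => ?_
            obtain ⟨k1, k2⟩ := mem_filter.1 he
            beta_reduce at k2
            split_ifs at k2 with k3
            · exact mem_singleton.2 k3
            · exact absurd k2 (notMem_empty v)
        · refine hext (f w2) (fun e => if e = e2 then {v, w2} else ∅) ?_ ?_ ?_ ?_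
          · refine hcovd _ _ he1h ?_ _
            rw [← hw1, f'v, f'w1]; exact fun h => hff h.symm
          · refine hcove _ _ he2h _ ?_ ?_
            · simp
            · rw [← hw2]; simp
          · intro w hw
            have hwv : w ≠ v := fun h => hvS (h ▸ hw)
            by_cases hww2 : w = w2
            · have k5 : ld L {e1} w = 1 := by
                unfold ld
                rw [filter_singleton, if_pos (by rw [hww2]; exact k), card_singleton]
              rw [k5]
              unfold ld
              rw [← card_singleton e2]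
              refine card_le_card fun e he => ?_
              obtain ⟨k1, k2⟩ := mem_filter.1 he
              beta_reduce at k2
              split_ifs at k2 with k3
              · exact mem_singleton.2 k3
              · exact absurd k2 (notMem_empty w)
            · have k5 : ld (fun e => if e = e2 then ({v, w2} : Finset V) else ∅) (G.at v) w = 0 := by
                unfold ld
                rw [card_eq_zero, eq_empty_iff_forall_notMem]
                intro e he
                obtain ⟨k1, k2⟩ := mem_filter.1 he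
                beta_reduce at k2
                split_ifs at k2 with k3
                · rw [mem_insert, mem_singleton] at k2
                  rcases k2 with k2 | k2
                  · exact hwv k2
                  · exact hww2 k2
                · exact absurd k2 (notMem_empty w)
              rw [k5]
              exact Nat.zero_le _
          · unfold ld
            rw [← card_singleton e2]
            refine card_le_card fun e he => ?_
            obtain ⟨k1, k2⟩ := mem_filter.1 he
            beta_reduce at k2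
            split_ifs at k2 with k3
            · exact mem_singleton.2 k3
            · exact absurd k2 (notMem_empty v)

end Pool.Agent.Q115.DF
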