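import Pool.Agent.Q115.DF.J11

/-!
# MP_4006b4_co, Step 5, first half (job DF-13)
-/

set_option linter.unusedSectionVars false
set_option linter.unusedVariables false

open Finset

namespace Pool.Agent.Q115.DF

theorem tS5a (a b : ℕ) (hp : Par a b) (hH : 2 * a + 2 * b ≤ b * (a - 1)) (h1 : XMin) (h2 : XS1) : XS5a a b := by
  intro V E _ _ G hG e x y hxy
  obtain ⟨hb, hab⟩ := par_int hp
  obtain ⟨hx, hy, hne⟩ := hxy.mem hG.1
  obtain ⟨he, hs, hends⟩ := hxy
  have hHZ : 2 * (a : ℤ) + 2 * b ≤ b * (a - 1) := by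
    have h3 : 1 ≤ a := by omega
    have h4 : ((2 * a + 2 * b : ℕ) : ℤ) ≤ ((b * (a - 1) : ℕ) : ℤ) := by exact_mod_cast hH
    push_cast [Nat.cast_sub h3] at h4
    exact h4
  have hboth : ∀ T : Finset V, (G.p e ∈ T ∧ G.q e ∈ T) ↔ (x ∈ T ∧ y ∈ T) := by
    intro T
    rcases hends with ⟨h4, h5⟩ | ⟨h4, h5⟩
    · rw [h4, h5]
    · rw [h4, h5]; tauto
  by_contra hcon
  push Not at hcon
  obtain ⟨f, L, hf1, hf2⟩ := del_one h1 hp hG he (fun v => if v = x ∨ v = y then 1 else 0)
    (fun v => if v = x ∨ v = y then 1 else 0) (by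
    intro T hT hT2
    have h4 : ∑ v ∈ T, ((a : ℤ) * ((if v = x ∨ v = y then 1 else 0 : ℕ) : ℤ) +
        (b : ℤ) * ((if v = x ∨ v = y then 1 else 0 : ℕ) : ℤ)) =
        (if x ∈ T then (a : ℤ) + b else 0) + (if y ∈ T then (a : ℤ) + b else 0) := by
      rw [← sum_two hne]
      apply sum_congr rfl
      intro v hv
      split <;> simp
    rw [h4, cost_hard hs]
    have h7 := hG.2.1 T hT hT2
    by_cases hx1 : x ∈ T
    · by_cases hy1 : y ∈ T
      · rw [if_pos ((hboth T).2 ⟨hx1, hy1⟩), if_pos hx1, if_pos hy1]; linarith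
      · have hR : T ≠ G.R := by intro h; rw [h] at hy1; exact hy1 hy
        have h8 : ¬ Low a b G T := fun h9 => (hcon T h9).1 hx1 |> fun h10 => absurd h10 hy1
        have h9 : (a : ℤ) < G.rho a b T := by
          by_contra h10
          exact h8 ⟨hT, hT2, hR, by linarith⟩
        rw [if_neg (fun h => hy1 ((hboth T).1 h).2), if_pos hx1, if_neg hy1]; linarith
    · by_cases hy1 : y ∈ T
      · have hR : T ≠ G.R := by intro h; rw [h] at hx1; exact hx1 hx
        have h8 : ¬ Low a b G T := fun h9 => (hcon T h9).2 hy1 |> fun h10 => absurd h10 hx1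
        have h9 : (a : ℤ) < G.rho a b T := by
          by_contra h10
          exact h8 ⟨hT, hT2, hR, by linarith⟩
        rw [if_neg (fun h => hx1 ((hboth T).1 h).1), if_neg hx1, if_pos hy1]; linarith
      · rw [if_neg (fun h => hx1 ((hboth T).1 h).1), if_neg hx1, if_neg hy1]; linarith)
  apply hG.2.2.1
  refine put_back he {x, y} hf1 ?_ ?_
  · constructor
    · intro _ _
      rcases hends with ⟨h4, h5⟩ | ⟨h4, h5⟩
      · rw [h4, h5]; simp
      · rw [h4, h5]; simp
    · intro h5; rw [hs] at h5; exact absurd h5 (by simp)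
  · intro v hv
    have h5 := hf2 v hv
    simp only [ite_self, mem_insert, mem_singleton] at h5 ⊢
    exact h5

end Pool.Agent.Q115.DF
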