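import Pool.Agent.Q115.DF.Bas

/-! # MP_4006b4_co, job DF-14: saturation, both colours (helper91) -/

set_option linter.unusedSectionVars false
set_option linter.unusedVariables false

open Finset

namespace Pool.Agent.Q115.DF

theorem tS6a (h1 : XSlack) (h2 : XS2) : XS6a := by
  intro V E _ _ a b G hp hG S f L u hlow hc hbd
  obtain ⟨hp1, hp2⟩ := par_int hp
  obtain ⟨hSR, hne, hpr, hrho⟩ := hlow
  obtain ⟨hu, e0, he0, hends⟩ := hbd
  by_contra hcon
  push Not at hcon
  obtain ⟨t, ht, hut⟩ : ∃ t, t ∈ G.R \ S ∧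
      ((G.p e0 = u ∧ G.q e0 = t) ∨ (G.p e0 = t ∧ G.q e0 = u)) := by
    have hw := hG.1.1 e0 he0
    rcases hends with h | h
    · exact ⟨G.q e0, mem_sdiff.mpr ⟨hw.2.1, h.2⟩, Or.inl ⟨h.1, rfl⟩⟩
    · exact ⟨G.p e0, mem_sdiff.mpr ⟨hw.1, h.2⟩, Or.inr ⟨rfl, h.1⟩⟩
  obtain ⟨T, hT, hTne, hle⟩ := h1 V E a b G S f L e0 u t hp hG hSR hc hu ht he0 hut (by omega)
  have hSTR : S ∪ T ⊆ G.R := union_subset hSR (hT.trans sdiff_subset)
  by_cases hR : S ∪ T = G.R
  · have htT : t ∈ T := by
      have : t ∈ S ∪ T := by rw [hR]; exact (mem_sdiff.mp ht).1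
      rcases mem_union.mp this with h | h
      · exact absurd h (mem_sdiff.mp ht).2
      · exact h
    rw [hR, if_pos htT] at hle
    have := hG.2.1 G.R (Subset.refl _) (hne.mono hSR)
    linarith
  · have := low_lt h2 hp hG hSTR (hne.mono subset_union_left) hR
    split at hle <;> linarith

theorem tS6c (h1 : XMin) (h2 : XS2) (h3 : XS1) (h4 : XS6a) : XS6c := by
  intro V E _ _ a b G hp hG S u κ hlow hbd
  obtain ⟨hp1, hp2⟩ := par_int hp
  have hb : 1 ≤ b := by have := hp.1; omega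
  have hab : b ≤ a := by have := hp.2; omega
  obtain ⟨hSR, hne, hpr, hrho⟩ := hlow
  have hTR : ∀ T ⊆ S, T ≠ G.R := by
    intro T hT h
    apply hpr
    exact subset_antisymm hSR (h ▸ hT)
  cases κ with
  | true =>
    have hcol : Colorable (G.mod S ∅ (fun _ => 0) (fun v => if v = u then 1 else 0)) := by
      apply h1 V E a b G S ∅ _ _ hb hab hG hSR (Or.inl hpr)
      intro T hT hTne
      have hpos := h3 V E a b G hp hG T (hT.trans hSR) hTne (hTR T hT)
      have hsum : (∑ v ∈ T, ((a : ℤ) * (((fun _ => 0 : V → ℕ) v : ℕ) : ℤ) +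
          (b : ℤ) * (((if v = u then 1 else 0 : ℕ)) : ℤ))) ≤ b := by
        have : (∑ v ∈ T, ((a : ℤ) * (((fun _ => 0 : V → ℕ) v : ℕ) : ℤ) +
          (b : ℤ) * (((if v = u then 1 else 0 : ℕ)) : ℤ))) = ∑ v ∈ T, if v = u then (b : ℤ) else 0 := by
          apply Finset.sum_congr rfl
          intro v _
          split <;> simp
        rw [this, Finset.sum_ite_eq']
        split <;> linarith
      simp only [Finset.empty_inter, Finset.sum_empty]
      linarith
    obtain ⟨f, L, hc⟩ := hcol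
    obtain ⟨hc1, hc2⟩ := res_of_mod hc
    refine ⟨f, L, hc1, ?_⟩
    by_contra hfu
    have h := hc2 u hbd.1
    simp only [hfu] at h
    have h' := h4 V E a b G hp hG S f L u ⟨hSR, hne, hpr, hrho⟩ hc1 hbd
    simp at h
    omega
  | false =>
    have hcol : Colorable (G.mod S ∅ (fun v => if v = u then 1 else 0) (fun _ => 0)) := by
      apply h1 V E a b G S ∅ _ _ hb hab hG hSR (Or.inl hpr)
      intro T hT hTne
      have hpos := low_lt h2 hp hG (hT.trans hSR) hTne (hTR T hT)
      have hsum : (∑ v ∈ T, ((a : ℤ) * (((if v = u then 1 else 0 : ℕ)) : ℤ) +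
          (b : ℤ) * (((fun _ => 0 : V → ℕ) v : ℕ) : ℤ))) ≤ a := by
        have : (∑ v ∈ T, ((a : ℤ) * (((if v = u then 1 else 0 : ℕ)) : ℤ) +
          (b : ℤ) * (((fun _ => 0 : V → ℕ) v : ℕ) : ℤ))) = ∑ v ∈ T, if v = u then (a : ℤ) else 0 := by
          apply Finset.sum_congr rfl
          intro v _
          split <;> simp
        rw [this, Finset.sum_ite_eq']
        split <;> linarith
      simp only [Finset.empty_inter, Finset.sum_empty]
      linarith
    obtain ⟨f, L, hc⟩ := hcol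
    obtain ⟨hc1, hc2⟩ := res_of_mod hc
    refine ⟨f, L, hc1, ?_⟩
    by_contra hfu
    have hfu' : f u = true := by
      cases h : f u
      · exact absurd h hfu
      · rfl
    have h := hc2 u hbd.1
    simp only [hfu'] at h
    have h' := h4 V E a b G hp hG S f L u ⟨hSR, hne, hpr, hrho⟩ hc1 hbd
    simp at h
    omega

end Pool.Agent.Q115.DF
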