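import Pool.Agent.Q115.DF.Bas

/-! # MP_4006b4_co, job DF-15: capacities of a hard neighbour (helper91) -/

set_option linter.unusedSectionVars false
set_option linter.unusedVariables false

open Finset

namespace Pool.Agent.Q115.DF

theorem tS6e (h1 : XForce) (h2 : XS2) (h3 : XS6c) : XS6e := by
  intro V E _ _ a b G hp hG S e x y hlow hHE hx hy
  obtain ⟨hp1, hp2⟩ := par_int hp
  have hb : 1 ≤ b := by have := hp.1; omega
  have hab : b ≤ a := by have := hp.2; omega
  have hlow' := hlow
  obtain ⟨hSR, hne, hpr, hrho⟩ := hlow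
  obtain ⟨hxR, hyR, hxy⟩ := hHE.mem hG.1
  have hbd : Bd G S x := by
    refine ⟨hx, e, hHE.1, ?_⟩
    rcases hHE.2.2 with h | h
    · left; exact ⟨h.1, by rw [h.2]; exact hy⟩
    · right; exact ⟨h.2, by rw [h.1]; exact hy⟩
  have hyS : y ∈ G.R \ S := mem_sdiff.mpr ⟨hyR, hy⟩
  have hcaps := hG.1.2 y hyR
  have hA : (G.A y : ℤ) + 1 ≤ b := by exact_mod_cast hcaps.1
  have hB : (G.B y : ℤ) + 1 ≤ a := by exact_mod_cast hcaps.2
  have key : ∀ κ : Bool, ((b : ℤ) * ((a : ℤ) - 1)) -
      (if κ = true then (a : ℤ) * (G.A y : ℤ) else (b : ℤ) * (G.B y : ℤ)) < a := by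
    intro κ
    have hnn : 0 ≤ ((b : ℤ) * ((a : ℤ) - 1)) -
      (if κ = true then (a : ℤ) * (G.A y : ℤ) else (b : ℤ) * (G.B y : ℤ)) := by
      split
      · nlinarith
      · nlinarith
    obtain ⟨f, L, hc, hfx⟩ := h3 V E a b G hp hG S x κ hlow' hbd
    obtain ⟨T, hT, hTne, hle⟩ := h1 V E a b G S f L {e} y κ hb hab hG hSR hne hc hyS
      (fun e' he' => ⟨x, hx, by rw [mem_singleton] at he'; rw [he']; exact hHE, hfx⟩)
    have hSTR : S ∪ T ⊆ G.R := union_subset hSR (hT.trans sdiff_subset)
    rw [card_singleton] at hle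
    by_cases hR : S ∪ T = G.R
    · have hyT : y ∈ T := by
        have : y ∈ S ∪ T := by rw [hR]; exact hyR
        rcases mem_union.mp this with h | h
        · exact absurd h hy
        · exact h
      rw [hR, if_pos hyT] at hle
      have := hG.2.1 G.R (Subset.refl _) (hne.mono hSR)
      push_cast at hle
      linarith
    · exfalso
      have := low_lt h2 hp hG hSTR (hne.mono subset_union_left) hR
      by_cases hyT : y ∈ T
      · rw [if_pos hyT] at hle
        push_cast at hle
        linarith
      · rw [if_neg hyT] at hle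
        linarith
  have k1 := key true
  have k2 := key false
  simp only [if_true] at k1
  simp only [Bool.false_eq_true, if_false] at k2
  constructor
  · have h : (G.A y : ℤ) + 1 = b := by
      by_contra hne2
      have h' : (G.A y : ℤ) + 2 ≤ b := by omega
      nlinarith
    exact_mod_cast h
  · nlinarith

end Pool.Agent.Q115.DF
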