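import Pool.Agent.Q115.DF.Bas

/-! # MP_4006b4_co: job DF-17, Step 5, not both ends -/

open Finset

namespace Pool.Agent.Q115.DF

theorem tS5b (h1 : XS2) (h2 : XSub) (h3 : XS6c) (h4 : XComb) : XS5b := by
  intro V E _ _ a b G hp hM e x y hHE S T hS hT hxS hyS hyT hxT
  have hG := hM.1
  obtain ⟨hxR, hyR, hxy⟩ := hHE.mem hG
  obtain ⟨hb, hab⟩ := par_int hp
  have ha1 : 1 ≤ a := by obtain ⟨h5, h6⟩ := hp; omega
  -- the edge e crosses
  have hecro : e ∈ G.cro (S \ T) (T \ S) := by
    rw [mem_cro]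
    refine ⟨hHE.1, ?_⟩
    rcases hHE.2.2 with ⟨h6, h7⟩ | ⟨h6, h7⟩
    · left; rw [h6, h7]; exact ⟨mem_sdiff.2 ⟨hxS, hxT⟩, mem_sdiff.2 ⟨hyT, hyS⟩⟩
    · right; rw [h6, h7]; exact ⟨mem_sdiff.2 ⟨hyT, hyS⟩, mem_sdiff.2 ⟨hxS, hxT⟩⟩
  have hce : G.cost (a : ℤ) b e = b * (a - 1) := cost_hard hHE.2.1
  have hsum1 : (b : ℤ) * (a - 1) ≤ ∑ e ∈ G.cro (S \ T) (T \ S), G.cost (a : ℤ) b e := by
    rw [← hce]
    exact single_le_sum (f := fun e => G.cost (a : ℤ) b e) (fun i _ => cost_nonneg ha1 G i) hecro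
  have hsub := h2 V E (a : ℤ) (b : ℤ) G S T
  have hSr := hS.2.2.2
  have hTr := hT.2.2.2
  have hU : S ∪ T ⊆ G.R := union_subset hS.1 hT.1
  have hI : S ∩ T ⊆ G.R := inter_subset_left.trans hS.1
  have hIne : S ∩ T ≠ G.R := by
    intro h; rw [← h] at hxR; exact hxT (mem_of_mem_inter_right hxR)
  have hI0 : (S ∩ T).Nonempty → (a : ℤ) - b < G.rho a b (S ∩ T) := fun h =>
    low_lt h1 hp hM hI h hIne
  by_cases hUR : S ∪ T = G.R
  · have hRr := hM.2.1 G.R (Subset.refl _) ⟨x, hxR⟩
    rw [hUR] at hsub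
    rcases (S ∩ T).eq_empty_or_nonempty with hem | hne
    · rw [hem, rho_empty] at hsub
      have hTS : T = G.R \ S := by
        ext v
        rw [mem_sdiff, ← hUR, mem_union]
        constructor
        · intro hv
          refine ⟨Or.inr hv, fun hvS => ?_⟩
          have : v ∈ S ∩ T := mem_inter.2 ⟨hvS, hv⟩
          rw [hem] at this; simp at this
        · rintro ⟨h5 | h5, h6⟩
          · exact absurd h5 h6
          · exact h5
      have hST : S \ T = S := by
        ext v
        rw [mem_sdiff]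
        refine ⟨fun h => h.1, fun h => ⟨h, fun h' => ?_⟩⟩
        have : v ∈ S ∩ T := mem_inter.2 ⟨h, h'⟩
        rw [hem] at this; simp at this
      have hTS' : T \ S = T := by
        rw [hTS]; ext v; simp
      rw [hST, hTS'] at hsub hsum1 hecro
      -- the only crossing edge
      have hone : ∀ e' ∈ G.cro S T, e' = e := by
        intro e' he'
        by_contra hne
        have h6 : G.cost (a : ℤ) b e + G.cost (a : ℤ) b e' ≤ ∑ e ∈ G.cro S T, G.cost (a : ℤ) b e := by
          have h7 : ({e, e'} : Finset E) ⊆ G.cro S T := by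
            intro i hi; rw [mem_insert, mem_singleton] at hi
            rcases hi with rfl | rfl
            · exact hecro
            · exact he'
          have h8 := sum_le_sum_of_subset_of_nonneg (f := fun e => G.cost (a : ℤ) b e) h7
            (fun i _ _ => cost_nonneg ha1 G i)
          rw [sum_pair (fun h => hne h.symm)] at h8
          exact h8
        have h9 := le_cost hp G e'
        rw [hce] at h6
        nlinarith
      obtain ⟨f1, L1, hc1, hf1⟩ := h3 V E a b G hp hM S x true hS (by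
        refine ⟨hxS, e, hHE.1, ?_⟩
        rcases hHE.2.2 with ⟨h6, h7⟩ | ⟨h6, h7⟩
        · left; exact ⟨h6, by rw [h7]; exact hyS⟩
        · right; exact ⟨h7, by rw [h6]; exact hyS⟩)
      obtain ⟨f2, L2, hc2, hf2⟩ := h3 V E a b G hp hM T y false hT (by
        refine ⟨hyT, e, hHE.1, ?_⟩
        rcases hHE.2.2 with ⟨h6, h7⟩ | ⟨h6, h7⟩
        · right; exact ⟨h7, by rw [h6]; exact hxT⟩
        · left; exact ⟨h6, by rw [h7]; exact hxT⟩)
      rw [isCol_res] at hc2
      refine hM.2.2.1 (h4 V E a b G S ∅ ∅ (fun _ => 0) (fun _ => 0) f1 f2 L1 L2 (fun _ => ∅) hG hS.1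
        (empty_subset _) hc1 ?_ ?_ ?_ ?_)
      · rw [isCol_rsd, ← hTS, sdiff_empty]
        refine ⟨hc2.1, fun v hv => ?_⟩
        have := hc2.2 v hv
        unfold Str.cap at this
        simpa [Str.tA, Str.tB] using this
      · intro e' he'
        rw [← hTS] at he'
        simp only [sdiff_empty, empty_inter, union_empty] at he'
        have := hone e' he'
        subst this
        apply cov_of_ne hHE.2.1
        rcases hHE.2.2 with ⟨h6, h7⟩ | ⟨h6, h7⟩
        · rw [h6, h7]; simp only [hxS, hyS, if_true, if_false, hf1, hf2]; simp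
        · rw [h6, h7]; simp only [hxS, hyS, if_true, if_false, hf1, hf2]; simp
      · intro v hv
        rw [isCol_res] at hc1
        have := hc1.2 v hv
        have h0 : ∀ X : Finset E, ld (fun _ => (∅ : Finset V)) X v = 0 := by intro X; simp [ld]
        rw [h0]; simpa using this
      · intro v hv
        have h0 : ∀ X : Finset E, ld (fun _ => (∅ : Finset V)) X v = 0 := by intro X; simp [ld]
        rw [h0]; exact Nat.zero_le _
    · have := hI0 hne
      nlinarith [mul_nonneg (sub_nonneg.2 (show (5 : ℤ) ≤ (a : ℤ) by linarith)) (show (0 : ℤ) ≤ (b : ℤ) - 3 by linarith)]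
  · have h6 : (a : ℤ) - b < G.rho a b (S ∪ T) := low_lt h1 hp hM hU ⟨x, mem_union_left _ hxS⟩ hUR
    have h7 : 0 ≤ G.rho a b (S ∩ T) := by
      rcases (S ∩ T).eq_empty_or_nonempty with hem | hne
      · rw [hem, rho_empty]
      · have := hI0 hne; linarith
    nlinarith

end Pool.Agent.Q115.DF
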