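import Pool.Agent.Q115.DF.Bas

/-! # MP_4006b4_co, job DF-18 (helper154): a hard edge exists -/

open Finset

namespace Pool.Agent.Q115.DF

theorem tS7b (h1 : XTwo) (h2 : XCon) (h3 : XS3b) : XS7b := by
  intro V E _ _ a b G hp hG
  by_contra hno
  have hno' : ∀ e x y, ¬ HE G e x y := fun e x y h => hno ⟨e, x, y, h⟩
  have hsoft : ∀ e ∈ G.D, G.hd e = false := by
    intro e he
    by_contra hh
    have hh' : G.hd e = true := by simpa using hh
    exact hno' e (G.p e) (G.q e) ⟨he, hh', Or.inl ⟨rfl, rfl⟩⟩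
  apply hG.2.2.1
  refine ⟨fun _ => true, fun _ => ∅, fun e he => cov_of_eq (hsoft e he) rfl _, fun v hv => ?_⟩
  have hld : ld (fun _ : E => (∅ : Finset V)) G.D v = 0 := by simp [ld]
  rw [hld]
  show 0 + 1 ≤ G.cap (fun _ => true) v
  have hcap : G.cap (fun _ => true) v = G.A v := by simp [Str.cap]
  rw [hcap]
  have hne : ({v} : Finset V) ≠ G.R := by
    intro h
    have := h1 V E a b G hp hG
    rw [← h, card_singleton] at this
    omega
  obtain ⟨e, he⟩ := h2 V E a b G hp hG {v} (singleton_subset_iff.2 hv) (singleton_nonempty v) hne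
  rw [mem_cro] at he
  obtain ⟨heD, h | h⟩ := he
  · have := h3 V E a b G hp hG e v (G.q e) ⟨heD, hsoft e heD, Or.inl ⟨mem_singleton.1 h.1, rfl⟩⟩
    omega
  · have := h3 V E a b G hp hG e v (G.p e) ⟨heD, hsoft e heD, Or.inr ⟨rfl, mem_singleton.1 h.2⟩⟩
    omega

end Pool.Agent.Q115.DF
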