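import Pool.Agent.Q115.DF.Bas

/-! # MP_4006b4_co: job DF-19, in-degree at most one -/

set_option linter.unusedSectionVars false

open Finset

namespace Pool.Agent.Q115.DF

theorem tS7e (h1 : XMinR) (h2 : XComb) (h3 : XS2) (h4 : XS5b) (h5 : XS6c) (h6 : XS6d) : XS7e := by
  intro V E _ _ a b G hp hG e1 e2 x1 x2 y he1 he2 ho1 ho2
  by_contra hne
  classical
  have hWF := hG.1
  obtain ⟨hb3, hab⟩ := par_int hp
  have hpN := hp
  obtain ⟨hb3', hab'⟩ := hpN
  -- a maximal low set
  obtain ⟨_, S0, hS0, hx0, hy0⟩ := ho1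
  obtain ⟨S, hSm, hSmax⟩ := Finset.exists_max_image
    (G.R.powerset.filter (fun S => Low a b G S ∧ x1 ∈ S ∧ y ∉ S)) Finset.card
    ⟨S0, Finset.mem_filter.2 ⟨Finset.mem_powerset.2 hS0.1, hS0, hx0, hy0⟩⟩
  rw [Finset.mem_filter] at hSm
  obtain ⟨_, hS, hx1S, hyS⟩ := hSm
  obtain ⟨hSR, hSne, hSneR, hSlow⟩ := hS
  have hSL : Low a b G S := ⟨hSR, hSne, hSneR, hSlow⟩
  have hmax : ∀ W, Low a b G W → x1 ∈ W → y ∉ W → W.card ≤ S.card := fun W hW hx hy =>
    hSmax W (Finset.mem_filter.2 ⟨Finset.mem_powerset.2 hW.1, hW, hx, hy⟩)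
  have hx2S : x2 ∉ S := fun hx =>
    hne (h6 V E a b G hp hG S e1 e2 x1 x2 y hSL he1 he2 hx1S hx hyS)
  obtain ⟨_, hyR, hx1y⟩ := he1.mem hWF
  obtain ⟨hx2R, _, hx2y⟩ := he2.mem hWF
  have hbd : Bd G S x1 := by
    refine ⟨hx1S, e1, he1.1, ?_⟩
    rcases he1.2.2 with ⟨h7, h8⟩ | ⟨h7, h8⟩
    · left
      exact ⟨h7, by rw [h8]; exact hyS⟩
    · right
      exact ⟨h8, by rw [h7]; exact hyS⟩
  obtain ⟨f, L, hf, hfx1⟩ := h5 V E a b G hp hG S x1 true hSL hbd
  have hx2R' : x2 ∈ G.R \ S := Finset.mem_sdiff.2 ⟨hx2R, hx2S⟩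
  have hyR' : y ∈ G.R \ S := Finset.mem_sdiff.2 ⟨hyR, hyS⟩
  -- the crossing edges
  set K : Finset E := G.cro S (G.R \ S) with hK
  have he1K : e1 ∈ K := by
    rw [hK, mem_cro]
    refine ⟨he1.1, ?_⟩
    rcases he1.2.2 with ⟨h7, h8⟩ | ⟨h7, h8⟩
    · left
      rw [h7, h8]
      exact ⟨hx1S, hyR'⟩
    · right
      rw [h7, h8]
      exact ⟨hyR', hx1S⟩
  set yf : V → ℕ := fun v => if v = x2 ∨ v = y then 1 else 0 with hyf
  have hHR : -(b : ℤ) < G.rho a b G.R := hG.2.1 G.R (Finset.Subset.refl _) ⟨y, hyR⟩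
  have hmin : Colorable (G.rsd S K {e2} f (fun _ => 0) yf) := by
    refine h1 V E a b G S K {e2} f (fun _ => 0) yf (by omega) (by omega) hG hSR hSne
      (Finset.Subset.refl _) ?_
    intro T hT hTne
    have hTR : T ⊆ G.R := hT.trans Finset.sdiff_subset
    have hTS : Disjoint S T := by
      rw [Finset.disjoint_right]
      intro v hv
      exact (Finset.mem_sdiff.1 (hT hv)).2
    have hUR : S ∪ T ⊆ G.R := Finset.union_subset hSR hTR
    have hUne : (S ∪ T).Nonempty := hSne.mono Finset.subset_union_left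
    have s1 : 0 ≤ ∑ e ∈ G.cro S T \ K, G.cost (a : ℤ) b e :=
      Finset.sum_nonneg fun e _ => cost_nonneg (by omega) G e
    have s2 : 0 ≤ ∑ e ∈ ({e2} : Finset E) ∩ G.ins T, G.cost (a : ℤ) b e :=
      Finset.sum_nonneg fun e _ => cost_nonneg (by omega) G e
    have s3 : (0 : ℤ) ≤ (G.n1 K f S T : ℤ) := by positivity
    have s3' : y ∈ T → (1 : ℤ) ≤ (G.n1 K f S T : ℤ) := by
      intro hyT
      have : 1 ≤ G.n1 K f S T := by
        unfold Str.n1
        refine Finset.card_pos.2 ⟨e1, Finset.mem_filter.2 ⟨he1K, ?_⟩⟩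
        rcases he1.2.2 with ⟨h7, h8⟩ | ⟨h7, h8⟩
        · left
          rw [h7, h8]
          exact ⟨hx1S, hyT, hfx1⟩
        · right
          rw [h7, h8]
          exact ⟨hyT, hx1S, hfx1⟩
      exact_mod_cast this
    have s4 : ∑ v ∈ T, ((a : ℤ) * ((0 : ℕ) : ℤ) + (b : ℤ) * (yf v : ℤ)) =
        (b : ℤ) * ((if x2 ∈ T then 1 else 0) + (if y ∈ T then 1 else 0)) := by
      have h7 : ∀ v ∈ T, ((a : ℤ) * ((0 : ℕ) : ℤ) + (b : ℤ) * (yf v : ℤ)) =
          (b : ℤ) * ((if v = x2 then 1 else 0) + (if v = y then 1 else 0)) := by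
        intro v _
        rw [hyf]
        by_cases hv1 : v = x2
        · have hv2 : ¬ v = y := fun h => hx2y (hv1.symm.trans h)
          simp [hv1, hx2y]
        · by_cases hv2 : v = y
          · simp [hv2, Ne.symm hx2y]
          · simp [hv1, hv2]
      rw [Finset.sum_congr rfl h7, ← Finset.mul_sum, Finset.sum_add_distrib,
        Finset.sum_ite_eq', Finset.sum_ite_eq']
    have s5 : x2 ∈ T → y ∈ T → ∑ e ∈ ({e2} : Finset E) ∩ G.ins T, G.cost (a : ℤ) b e =
        (b : ℤ) * ((a : ℤ) - 1) := by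
      intro hx hy
      have h7 : e2 ∈ G.ins T := by
        rw [mem_ins]
        refine ⟨he2.1, ?_⟩
        rcases he2.2.2 with ⟨h7, h8⟩ | ⟨h7, h8⟩
        · rw [h7, h8]; exact ⟨hx, hy⟩
        · rw [h7, h8]; exact ⟨hy, hx⟩
      rw [Finset.singleton_inter_of_mem h7, Finset.sum_singleton, cost_hard he2.2.1]
    have hac : (0 : ℤ) ≤ ((a : ℤ) - b) * (G.n1 K f S T : ℤ) := by
      apply mul_nonneg _ s3
      linarith
    rw [s4]
    by_cases hx : x2 ∈ T <;> by_cases hy : y ∈ T
    · -- both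
      have h7 := s5 hx hy
      have h8 := s3' hy
      rw [h7, if_pos hx, if_pos hy]
      have h9 : (a : ℤ) - b ≤ ((a : ℤ) - b) * (G.n1 K f S T : ℤ) := by nlinarith
      have h10 : -(b : ℤ) < G.rho a b (S ∪ T) := hG.2.1 _ hUR hUne
      nlinarith
    · -- `x2` only
      have hyU : y ∉ S ∪ T := by
        rw [Finset.mem_union]
        tauto
      have hUneR : S ∪ T ≠ G.R := fun h => hyU (h ▸ hyR)
      have h8 : (a : ℤ) < G.rho a b (S ∪ T) := by
        by_contra h9
        push Not at h9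
        have h10 := hmax (S ∪ T) ⟨hUR, hUne, hUneR, h9⟩ (Finset.mem_union_left _ hx1S) hyU
        rw [Finset.card_union_of_disjoint hTS] at h10
        have := Finset.card_pos.2 hTne
        omega
      rw [if_pos hx, if_neg hy]
      linarith
    · -- `y` only
      have hxU : x2 ∉ S ∪ T := by
        rw [Finset.mem_union]
        tauto
      have hUneR : S ∪ T ≠ G.R := fun h => hxU (h ▸ hx2R)
      have h8 : (a : ℤ) < G.rho a b (S ∪ T) := by
        by_contra h9
        push Not at h9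
        obtain ⟨_, S2, hS2, hx2S2, hyS2⟩ := ho2
        exact h4 V E a b G hp hG e2 x2 y he2 S2 (S ∪ T) hS2 ⟨hUR, hUne, hUneR, h9⟩ hx2S2 hyS2
          (Finset.mem_union_right _ hy) hxU
      have h9 := s3' hy
      have h10 : (a : ℤ) - b ≤ ((a : ℤ) - b) * (G.n1 K f S T : ℤ) := by nlinarith
      rw [if_neg hx, if_pos hy]
      linarith
    · -- none
      have hyU : y ∉ S ∪ T := by
        rw [Finset.mem_union]
        tauto
      have hUneR : S ∪ T ≠ G.R := fun h => hyU (h ▸ hyR)
      have h8 := low_lt h3 hp hG hUR hUne hUneR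
      rw [if_neg hx, if_neg hy]
      linarith
  obtain ⟨f2, L2, hf2⟩ := hmin
  -- the colour of `y`
  have hf2' := hf2
  rw [isCol_rsd] at hf2'
  have hfy : f2 y = false := by
    by_contra h7
    have h8 : f2 y = true := by simpa using h7
    have h9 := hf2'.2 y hyR'
    rw [if_pos h8] at h9
    have h10 : G.tA K f y = G.A y := by
      unfold Str.tA
      rw [if_neg]
      intro h11
      rw [Finset.card_eq_zero] at h11
      have h12 : e1 ∈ K.filter (fun e => (G.p e = y ∨ G.q e = y) ∧ G.hd e = true ∧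
          f (G.oth e y) = true) := by
        refine Finset.mem_filter.2 ⟨he1K, ?_, he1.2.1, ?_⟩
        · rcases he1.2.2 with ⟨h7, h8⟩ | ⟨h7, h8⟩
          · right; exact h8
          · left; exact h7
        · rcases he1.2.2 with ⟨h7, h8⟩ | ⟨h7, h8⟩
          · rw [oth_q hWF he1.1 h8, h7]
            exact hfx1
          · rw [oth_p h7, h8]
            exact hfx1
      rw [h11] at h12
      simp at h12
    rw [h10] at h9
    omega
  -- combination
  apply hG.2.2.1
  set X : E → Finset V := fun _ => if f2 x2 = f2 y then {x2, y} else ∅ with hX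
  have hset : (G.cro S (G.R \ S) \ K) ∪ (({e2} : Finset E) ∩ G.ins (G.R \ S)) = {e2} := by
    rw [hK, Finset.sdiff_self, Finset.empty_union]
    apply Finset.singleton_inter_of_mem
    rw [mem_ins]
    refine ⟨he2.1, ?_⟩
    rcases he2.2.2 with ⟨h7, h8⟩ | ⟨h7, h8⟩
    · rw [h7, h8]; exact ⟨hx2R', hyR'⟩
    · rw [h7, h8]; exact ⟨hyR', hx2R'⟩
  refine h2 V E a b G S K {e2} (fun _ => 0) yf f f2 L L2 X hWF hSR (Finset.Subset.refl _) hf hf2
    ?_ ?_ ?_
  · rw [hset]
    intro e he
    rw [Finset.mem_singleton] at he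
    subst he
    refine ⟨fun _ h8 => ?_, fun h8 => absurd (he2.2.1.symm.trans h8) (by simp)⟩
    simp only at h8
    have h9 : f2 x2 = f2 y := by
      rcases he2.2.2 with ⟨h10, h11⟩ | ⟨h10, h11⟩
      · rw [h10, h11, if_neg hx2S, if_neg hyS] at h8
        exact h8
      · rw [h10, h11, if_neg hx2S, if_neg hyS] at h8
        exact h8.symm
    rw [hX]
    simp only [h9, if_true]
    rcases he2.2.2 with ⟨h10, h11⟩ | ⟨h10, h11⟩
    · rw [h10, h11]; simp
    · rw [h10, h11]; simp
  · rw [hset]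
    intro v hv
    have h7 := (isCol_res.1 hf).2 v hv
    have h8 : ld X {e2} v = 0 := by
      unfold ld
      rw [Finset.card_eq_zero, Finset.filter_eq_empty_iff]
      intro e _
      rw [hX]
      simp only
      split_ifs
      · rw [Finset.mem_insert, Finset.mem_singleton]
        rintro (rfl | rfl)
        · exact hx2S hv
        · exact hyS hv
      · simp
    rw [h8]
    omega
  · rw [hset]
    intro v hv
    by_cases h7 : f2 x2 = f2 y ∧ (v = x2 ∨ v = y)
    · have h8 : f2 v = false := by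
        rcases h7.2 with rfl | rfl
        · rw [h7.1]; exact hfy
        · exact hfy
      have h9 : yf v = 1 := by
        rw [hyf]
        simp only
        rw [if_pos h7.2]
      have h10 : ld X {e2} v ≤ 1 := by
        unfold ld
        exact (Finset.card_filter_le _ _).trans (by simp)
      rw [h8]
      simp only [Bool.false_eq_true, if_false]
      rw [h9]
      exact h10
    · have h8 : ld X {e2} v = 0 := by
        unfold ld
        rw [Finset.card_eq_zero, Finset.filter_eq_empty_iff]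
        intro e _
        rw [hX]
        simp only
        split_ifs with h9
        · rw [Finset.mem_insert, Finset.mem_singleton]
          intro h10
          exact h7 ⟨h9, h10⟩
        · simp
      rw [h8]
      exact Nat.zero_le _

end Pool.Agent.Q115.DF
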