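import Pool.Agent.Q115.DF.Bas

/-! # MP_4006b4_co: job DF-20, a sink -/

open Finset

namespace Pool.Agent.Q115.DF

theorem tS7d (h1 : XS5b) (h2 : XS7b) (h3 : XS7e) : XS7d := by
  classical
  intro V E _ _ a b G hp h5 hM
  have hG := hM.1
  -- heads
  let Hd : Finset V := G.R.filter (fun y => ∃ x, Ori a b G x y)
  let n : V → ℕ := fun v => (G.R.powerset.filter (fun T => Low a b G T ∧ v ∈ T)).card
  have hne : Hd.Nonempty := by
    obtain ⟨e, x, y, hHE⟩ := h2 V E a b G hp hM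
    obtain ⟨hx, hy, -⟩ := hHE.mem hG
    obtain ⟨S, hL, ⟨h6, h7⟩ | ⟨h6, h7⟩⟩ := h5 V E G hM e x y hHE
    · exact ⟨y, mem_filter.2 ⟨hy, x, ⟨e, hHE⟩, S, hL, h6, h7⟩⟩
    · exact ⟨x, mem_filter.2 ⟨hx, y, ⟨e, hHE.symm⟩, S, hL, h6, h7⟩⟩
  obtain ⟨y, hy, hmin⟩ := exists_min_image Hd n hne
  obtain ⟨hyR, x, hO⟩ := mem_filter.1 hy
  obtain ⟨⟨e0, hHE⟩, S, hL, hxS, hyS⟩ := id hO
  refine ⟨e0, x, y, S, hHE, ?_, hL, hxS, hyS⟩
  ext e
  rw [mem_singleton]
  constructor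
  · intro he
    rw [mem_hat] at he
    have ha : e ∈ G.at y := mem_at.2 ⟨he.1, he.2.1⟩
    have hz : HE G e (G.oth e y) y := by
      refine ⟨he.1, he.2.2, ?_⟩
      rcases at_ends hG ha with ⟨h6, h7⟩ | ⟨h6, h7⟩
      · right; exact ⟨h6, h7⟩
      · left; exact ⟨h6, h7⟩
    obtain ⟨hzR, -, -⟩ := hz.mem hG
    obtain ⟨S', hL', ⟨h6, h7⟩ | ⟨h6, h7⟩⟩ := h5 V E G hM e _ y hz
    · exact h3 V E a b G hp hM e e0 _ x y hz hHE ⟨⟨e, hz⟩, S', hL', h6, h7⟩ hO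
    · exfalso
      have hzH : G.oth e y ∈ Hd := mem_filter.2 ⟨hzR, y, ⟨e, hz.symm⟩, S', hL', h6, h7⟩
      have h8 := hmin _ hzH
      have h9 : n (G.oth e y) < n y := by
        apply card_lt_card
        refine ⟨?_, ?_⟩
        · intro T hT
          rw [mem_filter] at hT ⊢
          refine ⟨hT.1, hT.2.1, ?_⟩
          by_contra hyT
          exact h1 V E a b G hp hM e _ y hz T S' hT.2.1 hL' hT.2.2 hyT h6 h7
        · intro hsub
          have h10 : S' ∈ G.R.powerset.filter (fun T => Low a b G T ∧ y ∈ T) :=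
            mem_filter.2 ⟨mem_powerset.2 hL'.1, hL', h6⟩
          have h11 := hsub h10
          rw [mem_filter] at h11
          exact h7 h11.2.2
      omega
  · rintro rfl
    rw [mem_hat]
    refine ⟨hHE.1, ?_, hHE.2.1⟩
    rcases hHE.2.2 with ⟨h6, h7⟩ | ⟨h6, h7⟩
    · right; exact h7
    · left; exact h6

end Pool.Agent.Q115.DF
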