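import Pool.Agent.Q115.DF.Bas

/-! # MP_4006b4_co: job DF-21, the numbers of Step 8 -/

open Finset

namespace Pool.Agent.Q115.DF

theorem tS8a (h1 : XS3a) (h2 : XS4) (h3 : XS6e) : XS8a := by
  intro V E _ _ a b G e0 x y S hS
  obtain ⟨hp, hM, hHE, hhat, hLow, hxS, hyS⟩ := hS
  have hG := hM.1
  obtain ⟨hpx, hpy, hpne⟩ := hHE.mem hG
  have hB := h2 V E a b G hp hM y hpy
  rw [card_at, hhat, card_singleton] at hB
  obtain ⟨hA, hlt⟩ := h3 V E a b G hp hM S e0 x y hLow hHE hxS hyS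
  obtain ⟨hb, hab⟩ := par_int hp
  have hcB : ((G.B y : ℕ) : ℤ) ≤ 1 + ((G.sat y).card : ℤ) := by exact_mod_cast hB
  have hne : (G.sat y).Nonempty := by
    by_contra hemp
    rw [not_nonempty_iff_eq_empty] at hemp
    rw [hemp, card_empty] at hcB
    push_cast at hcB
    nlinarith
  have h2b : (a : ℤ) < 2 * b := by
    obtain ⟨e, he⟩ := hne
    rw [mem_sat] at he
    have h5 := h1 V E a b G hp hM e he.1 he.2.2
    have h6 := hM.2.1 G.R (Subset.refl _) ⟨x, hpx⟩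
    linarith
  refine ⟨hne, by exact_mod_cast h2b, hA, ?_, by omega⟩
  by_contra hcon
  push Not at hcon
  have h7 : ((G.B y : ℕ) : ℤ) + 3 ≤ a := by exact_mod_cast hcon
  nlinarith

end Pool.Agent.Q115.DF
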