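import Pool.Agent.Q115.DF.Bas

/-! # MP_4006b4_co: Step 8 (i), the colouring and the set `Q` -/

open Finset

namespace Pool.Agent.Q115.DF

section
variable {V E : Type} [DecidableEq V] [DecidableEq E]

theorem ld_insert_of_mem {L : E → Finset V} {X : Finset E} {e : E} {v : V} (he : e ∉ X) (hv : v ∈ L e) :
    ld L (insert e X) v = ld L X v + 1 := by
  unfold ld
  rw [filter_insert, if_pos hv, card_insert_of_notMem]
  intro h; exact he (mem_filter.1 h).1

theorem ld_insert_of_notMem {L : E → Finset V} {X : Finset E} {e : E} {v : V} (hv : v ∉ L e) :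
    ld L (insert e X) v = ld L X v := by
  unfold ld
  rw [filter_insert, if_neg hv]

end

theorem tS8b (h1 : XMin) (h2 : XS1) (h3 : XS6a) (h4 : XS8a) : XS8b := by
  intro V E _ _ a b G e0 x y S hSit
  obtain ⟨hne, hab, hA, hB1, hB2⟩ := h4 V E a b G e0 x y S hSit
  obtain ⟨e1, he1⟩ := hne
  obtain ⟨hp, hM, hHE, hhat, hLow, hxS, hyS⟩ := hSit
  have hWF : WF a b G := hM.1
  have hHyp : Hyp a b G := hM.2.1
  have hnc : ¬ Colorable G := hM.2.2.1
  obtain ⟨hb3, hba⟩ := hp
  have hp : Par a b := ⟨hb3, hba⟩
  have hpi := par_int hp
  have he1' := mem_sat.1 he1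
  obtain ⟨he1D, he1y, he1s⟩ := he1'
  have hyR : y ∈ G.R := by
    rcases he1y with h | h
    · rw [← h]; exact (hWF.1 e1 he1D).1
    · rw [← h]; exact (hWF.1 e1 he1D).2.1
  have hSR : S ⊆ G.R := hLow.1
  have hxR : x ∈ G.R := hSR hxS
  -- the colouring
  have hE : G.ins G.R \ {e1} = G.D.erase e1 := by
    rw [ins_R hWF, sdiff_singleton_eq_erase]
  have hsum : ∀ T : Finset V, (∑ v ∈ T, ((a : ℤ) * (((fun _ : V => 0) v : ℕ) : ℤ) +
      (b : ℤ) * (((fun v : V => if v = y then 1 else 0) v : ℕ) : ℤ))) = if y ∈ T then (b : ℤ) else 0 := by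
    intro T
    by_cases hyT : y ∈ T
    · rw [if_pos hyT, sum_eq_single_of_mem y hyT]
      · simp
      · intro v _ hv; simp [hv]
    · rw [if_neg hyT]
      apply sum_eq_zero
      intro v hv
      have : v ≠ y := fun h => hyT (h ▸ hv)
      simp [this]
  obtain ⟨f, L, hcol⟩ := h1 V E a b G G.R {e1} (fun _ => 0) (fun v => if v = y then 1 else 0) (by omega)
    (by omega) hM (Subset.refl _) (Or.inr ⟨e1, by simp [he1D]⟩) (by
      intro T hT hTne
      rw [hsum T]
      have hHT := hHyp T hT hTne
      have hcn : 0 ≤ ∑ e ∈ ({e1} : Finset E) ∩ G.ins T, G.cost (a : ℤ) b e :=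
        sum_nonneg (fun e _ => cost_nonneg (by omega) G e)
      by_cases hyT : y ∈ T
      · rw [if_pos hyT]
        by_cases h5 : e1 ∈ G.ins T
        · have h6 : ({e1} : Finset E) ∩ G.ins T = {e1} := by
            ext e; simp only [mem_inter, mem_singleton]
            constructor
            · exact fun h => h.1
            · intro h; exact ⟨h, h ▸ h5⟩
          rw [h6, sum_singleton, cost_soft he1s]
          linarith
        · have hTR : T ≠ G.R := by
            intro h; apply h5; rw [h, ins_R hWF]; exact he1D
          have := h2 V E a b G hp hM T hT hTne hTR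
          linarith
      · rw [if_neg hyT]
        linarith)
  rw [isCol_mod, hE] at hcol
  obtain ⟨hcov, hld⟩ := hcol
  have hld' : ∀ v ∈ G.R, ld L (G.D.erase e1) v + 1 ≤ G.cap f v := by
    intro v hv
    have := hld v hv
    unfold Str.cap
    split at this
    · next hf => simp only [hf, if_true]; omega
    · next hf => simp only [hf]; simp only [Bool.false_eq_true, if_false] at *; omega
  -- f y = true
  have hfy : f y = true := by
    by_contra hfy
    have hfy' : f y = false := by simpa using hfy
    apply hnc
    refine ⟨f, Function.update L e1 {y}, ?_, ?_⟩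
    · intro e he
      by_cases hee : e = e1
      · subst hee
        rw [Function.update_self]
        refine ⟨fun h => absurd (he1s.symm.trans h) (by simp), fun _ _ => ?_⟩
        rcases he1y with h | h
        · left; rw [h]; exact mem_singleton_self y
        · right; rw [h]; exact mem_singleton_self y
      · rw [Function.update_of_ne hee]
        exact hcov e (mem_erase.2 ⟨hee, he⟩)
    · intro v hv
      have hD : G.D = insert e1 (G.D.erase e1) := (insert_erase he1D).symm
      have hcongr : ld (Function.update L e1 {y}) (G.D.erase e1) v = ld L (G.D.erase e1) v := by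
        apply ld_congr
        intro e he
        rw [Function.update_of_ne (mem_erase.1 he).1]
      by_cases hvy : v = y
      · subst hvy
        have h5 := hld v hv
        rw [if_neg hfy] at h5
        simp only [if_true] at h5
        have h6 : ld (Function.update L e1 {v}) G.D v = ld L (G.D.erase e1) v + 1 := by
          rw [hD]
          rw [ld_insert_of_mem (by simp) (by rw [Function.update_self]; exact mem_singleton_self v)]
          rw [← hD, hcongr]
        rw [h6]
        unfold Str.cap
        rw [if_neg hfy]
        omega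
      · have h6 : ld (Function.update L e1 {y}) G.D v = ld L (G.D.erase e1) v := by
          rw [hD]
          rw [ld_insert_of_notMem (by rw [Function.update_self]; simpa using hvy)]
          rw [← hD, hcongr]
        rw [h6]
        exact hld' v hv
  -- facts on e0
  obtain ⟨he0D, he0h, he0e⟩ := hHE
  have he01 : e0 ≠ e1 := by
    intro h; rw [h, he1s] at he0h; exact absurd he0h (by simp)
  have he0E : e0 ∈ G.D.erase e1 := mem_erase.2 ⟨he01, he0D⟩
  have hinsS : G.ins S ⊆ G.D.erase e1 := by
    intro e he
    have := mem_ins.1 he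
    refine mem_erase.2 ⟨?_, this.1⟩
    intro h
    rw [h] at this
    rcases he1y with h' | h'
    · rw [h'] at this; exact hyS this.2.1
    · rw [h'] at this; exact hyS this.2.2
  have he0S : e0 ∉ G.ins S := by
    intro he
    have := mem_ins.1 he
    rcases he0e with h' | h'
    · rw [h'.2] at this; exact hyS this.2.2
    · rw [h'.1] at this; exact hyS this.2.1
  have hfx : f x = false := by
    by_contra hfx
    have hfx' : f x = true := by simpa using hfx
    have hxL : x ∈ L e0 := by
      have h5 := (hcov e0 he0E).1 he0h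
      rcases he0e with h' | h'
      · rw [h'.1, h'.2, hfx', hfy] at h5
        exact (h5 rfl).1
      · rw [h'.1, h'.2, hfx', hfy] at h5
        exact (h5 rfl).2
    have hcolS : IsCol (G.res S) f L := res_of_sub hSR hinsS hcov hld'
    have hBd : Bd G S x := by
      refine ⟨hxS, e0, he0D, ?_⟩
      rcases he0e with h' | h'
      · left; rw [h'.1, h'.2]; exact ⟨rfl, hyS⟩
      · right; rw [h'.1, h'.2]; exact ⟨rfl, hyS⟩
    have h6 := h3 V E a b G hp hM S f L x hLow hcolS hBd
    have h7 : ld L (G.ins S) x + 1 ≤ ld L (G.D.erase e1) x := by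
      rw [← ld_insert_of_mem he0S hxL]
      apply ld_mono
      intro e he
      rcases mem_insert.1 he with h | h
      · rw [h]; exact he0E
      · exact hinsS h
    have h8 := hld' x hxR
    omega
  -- the set Q
  have hcard : (((G.sat y).erase e1).filter (fun e => y ∈ L e)).card ≤ ld L (G.D.erase e1) y := by
    unfold ld
    apply card_le_card
    intro e he
    rw [mem_filter, mem_erase] at he
    rw [mem_filter, mem_erase]
    exact ⟨⟨he.1.1, (mem_sat.1 he.1.2).1⟩, he.2⟩
  have hcard2 : (((G.sat y).erase e1).filter (fun e => y ∈ L e)).card +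
      (((G.sat y).erase e1).filter (fun e => ¬ y ∈ L e)).card = (G.sat y).card - 1 := by
    rw [Finset.card_filter_add_card_filter_not, card_erase_of_mem he1]
  have hsat : 1 ≤ (G.sat y).card := card_pos.2 ⟨e1, he1⟩
  have hly := hld' y hyR
  unfold Str.cap at hly
  rw [if_pos hfy] at hly
  obtain ⟨Q, hQ, hQc⟩ := exists_subset_card_eq
    (s := ((G.sat y).erase e1).filter (fun e => ¬ y ∈ L e)) (n := (G.sat y).card + 1 - G.B y) (by omega)
  refine ⟨e1, f, L, Q, he1, hcov, hld', hfy, hfx, ?_, ?_, ?_⟩
  · exact hQ.trans (filter_subset _ _)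
  · rw [hQc]; omega
  · intro e he; exact (mem_filter.1 (hQ he)).2

end Pool.Agent.Q115.DF
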