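import Pool.Agent.Q115.DF.Bas

/-! # MP_4006b4_co: Step 8 (ii), (iii), the obstructing set -/

open Finset

namespace Pool.Agent.Q115.DF

section
variable {V E : Type} [DecidableEq V] [DecidableEq E]

theorem kk_mono' (G : Str V E) (Q : Finset E) (y : V)
    {S T : Finset V} (h : S ⊆ T) : kk G Q y S ≤ kk G Q y T := by
  unfold kk
  apply card_le_card
  intro e he
  rw [mem_filter] at he ⊢
  exact ⟨he.1, h he.2⟩

theorem kk_sum (G : Str V E) (Q : Finset E) (y : V) (T : Finset V) :
    kk G Q y T = ∑ v ∈ T, (Q.filter (fun e => G.oth e y = v)).card := by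
  unfold kk
  have hmap : Set.MapsTo (fun e => G.oth e y) (↑(Q.filter (fun e => G.oth e y ∈ T)) : Set E) (↑T : Set V) := by
    intro e he
    rw [mem_coe, mem_filter] at he
    exact he.2
  rw [card_eq_sum_card_fiberwise hmap]
  apply sum_congr rfl
  intro v hv
  congr 1
  ext e
  simp only [mem_filter]
  constructor
  · rintro ⟨⟨h1, h2⟩, h3⟩; exact ⟨h1, h3⟩
  · rintro ⟨h1, h3⟩; exact ⟨⟨h1, h3 ▸ hv⟩, h3⟩

/-- the new structure is not colourable -/
theorem s8c_claim (h3 : XS6a) (a b : ℕ) (G : Str V E) (e0 : E) (x y : V) (S : Finset V) (e1 : E)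
    (f : V → Bool) (L : E → Finset V) (Q : Finset E) (hSit : Sit a b G e0 x y S)
    (hDat : Dat a b G x y e1 f L Q) :
    ¬ Colorable (G.mod (G.R.erase y) ∅ (fun v => (Q.filter (fun e => G.oth e y = v)).card)
      (fun v => if v = x then 1 else 0)) := by
  rintro ⟨g, M, hgM⟩
  obtain ⟨hp, hM, hHE, hhat, hLow, hxS, hyS⟩ := hSit
  obtain ⟨he1, -, -, -, -, hQ, hQc, -⟩ := hDat
  have hWF : WF a b G := hM.1
  have hnc : ¬ Colorable G := hM.2.2.1
  obtain ⟨hcol, hslack⟩ := res_of_mod hgM
  rw [isCol_res] at hcol
  obtain ⟨hcov, -⟩ := hcol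
  have hSR : S ⊆ G.R := hLow.1
  have hxR : x ∈ G.R := hSR hxS
  have hxy : x ≠ y := fun h => hyS (h ▸ hxS)
  have hSR' : S ⊆ G.R.erase y := fun v hv => mem_erase.2 ⟨fun h => hyS (h ▸ hv), hSR hv⟩
  have hxR' : x ∈ G.R.erase y := hSR' hxS
  have hQs : Q ⊆ G.sat y := hQ.trans (erase_subset _ _)
  obtain ⟨he0D, he0h, he0e⟩ := id hHE
  -- g x = true
  have hgx : g x = true := by
    by_contra hgx
    have hcolS : IsCol (G.res S) g M := by
      rw [isCol_res]
      refine ⟨fun e he => hcov e (ins_mono hSR' he), fun v hv => ?_⟩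
      have h5 := hslack v (hSR' hv)
      have h6 : ld M (G.ins S) v ≤ ld M (G.ins (G.R.erase y)) v := ld_mono M (ins_mono hSR') v
      omega
    have hBd : Bd G S x := by
      refine ⟨hxS, e0, he0D, ?_⟩
      rcases he0e with h' | h'
      · left; rw [h'.1, h'.2]; exact ⟨rfl, hyS⟩
      · right; rw [h'.1, h'.2]; exact ⟨rfl, hyS⟩
    have h5 := h3 V E a b G hp hM S g M x hLow hcolS hBd
    have h6 := hslack x hxR'
    rw [if_neg hgx] at h6
    simp only [if_true] at h6
    have h7 : ld M (G.ins S) x ≤ ld M (G.ins (G.R.erase y)) x := ld_mono M (ins_mono hSR') x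
    omega
  apply hnc
  -- the colouring of G
  have hat_of : ∀ e ∈ G.D, e ∉ G.ins (G.R.erase y) → e ∈ G.at y := by
    intro e he hni
    rw [mem_at]
    refine ⟨he, ?_⟩
    by_contra h5
    push Not at h5
    apply hni
    rw [mem_ins]
    exact ⟨he, mem_erase.2 ⟨h5.1, (hWF.1 e he).1⟩, mem_erase.2 ⟨h5.2, (hWF.1 e he).2.1⟩⟩
  have hg'y : (Function.update g y false) y = false := Function.update_self ..
  have hg'n : ∀ v, v ≠ y → (Function.update g y false) v = g v := fun v hv => Function.update_of_ne hv ..
  let L' : E → Finset V := fun e => if e ∈ G.ins (G.R.erase y) then (M e).erase y else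
    if e ∈ Q then (if g (G.oth e y) = true then {G.oth e y} else ∅) else
      if e ∈ G.sat y then {y} else ∅
  have hL1 : ∀ e, e ∈ G.ins (G.R.erase y) → L' e = (M e).erase y := by
    intro e he; simp only [L', if_pos he]
  have hL2 : ∀ e, e ∉ G.ins (G.R.erase y) → e ∈ Q → L' e = if g (G.oth e y) = true then {G.oth e y} else ∅ := by
    intro e he he2; simp only [L', if_neg he, if_pos he2]
  have hL3 : ∀ e, e ∉ G.ins (G.R.erase y) → e ∉ Q → e ∈ G.sat y → L' e = {y} := by
    intro e he he2 he3; simp only [L', if_neg he, if_neg he2, if_pos he3]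
  have hL4 : ∀ e, e ∉ G.ins (G.R.erase y) → e ∉ Q → e ∉ G.sat y → L' e = ∅ := by
    intro e he he2 he3; simp only [L', if_neg he, if_neg he2, if_neg he3]
  have hQni : ∀ e ∈ Q, e ∉ G.ins (G.R.erase y) := by
    intro e he h5
    have h6 := mem_sat.1 (hQs he)
    have h7 := mem_ins.1 h5
    rcases h6.2.1 with h | h
    · exact (mem_erase.1 h7.2.1).1 h
    · exact (mem_erase.1 h7.2.2).1 h
  refine ⟨Function.update g y false, L', ?_, ?_⟩
  · intro e he
    by_cases hi : e ∈ G.ins (G.R.erase y)
    · rw [hL1 e hi]
      have h5 := mem_ins.1 hi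
      have h6 := (mem_erase.1 h5.2.1).1
      have h7 := (mem_erase.1 h5.2.2).1
      have h8 := hcov e hi
      refine ⟨fun hh heq => ?_, fun hh hne => ?_⟩
      · rw [hg'n _ h6, hg'n _ h7] at heq
        have := h8.1 hh heq
        exact ⟨mem_erase.2 ⟨h6, this.1⟩, mem_erase.2 ⟨h7, this.2⟩⟩
      · rw [hg'n _ h6, hg'n _ h7] at hne
        rcases h8.2 hh hne with h | h
        · left; exact mem_erase.2 ⟨h6, h⟩
        · right; exact mem_erase.2 ⟨h7, h⟩
    · have hey := hat_of e he hi
      have hends := at_ends hWF hey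
      have hoth := oth_mem hWF hey
      by_cases hh : G.hd e = true
      · -- hard: e = e0
        have h5 : e ∈ G.hat y := by
          rw [mem_hat]; exact ⟨he, (mem_at.1 hey).2, hh⟩
        rw [hhat, mem_singleton] at h5
        subst h5
        apply cov_of_ne hh
        rcases he0e with h' | h'
        · rw [h'.1, h'.2, hg'y, hg'n _ hxy, hgx]; simp
        · rw [h'.1, h'.2, hg'y, hg'n _ hxy, hgx]; simp
      · have hs : G.hd e = false := by simpa using hh
        by_cases heQ : e ∈ Q
        · rw [hL2 e hi heQ]
          by_cases hgo : g (G.oth e y) = true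
          · rw [if_pos hgo]
            refine ⟨fun h => absurd h hh, fun _ _ => ?_⟩
            rcases hends with h' | h'
            · right; rw [h'.2]; exact mem_singleton_self _
            · left; rw [h'.1]; exact mem_singleton_self _
          · rw [if_neg hgo]
            apply cov_of_eq hs
            have hgo' : g (G.oth e y) = false := by simpa using hgo
            rcases hends with h' | h'
            · rw [h'.1, h'.2, hg'y, hg'n _ hoth.2, hgo']
            · rw [h'.1, h'.2, hg'y, hg'n _ hoth.2, hgo']
        · have hesat : e ∈ G.sat y := by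
            rw [mem_sat]; exact ⟨he, (mem_at.1 hey).2, hs⟩
          rw [hL3 e hi heQ hesat]
          refine ⟨fun h => absurd h hh, fun _ _ => ?_⟩
          rcases hends with h' | h'
          · left; rw [h'.1]; exact mem_singleton_self _
          · right; rw [h'.2]; exact mem_singleton_self _
  · intro v hv
    by_cases hvy : v = y
    · subst hvy
      have h5 : ld L' G.D v ≤ (G.sat v \ Q).card := by
        unfold ld
        apply card_le_card
        intro e he
        rw [mem_filter] at he
        obtain ⟨heD, heL⟩ := he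
        by_cases hi : e ∈ G.ins (G.R.erase v)
        · rw [hL1 e hi] at heL; exact absurd rfl (mem_erase.1 heL).1
        · by_cases heQ : e ∈ Q
          · rw [hL2 e hi heQ] at heL
            exfalso
            split at heL
            · rw [mem_singleton] at heL
              exact (oth_mem hWF (hat_of e heD hi)).2 heL.symm
            · exact absurd heL (notMem_empty _)
          · by_cases hesat : e ∈ G.sat v
            · exact mem_sdiff.2 ⟨hesat, heQ⟩
            · rw [hL4 e hi heQ hesat] at heL
              exact absurd heL (notMem_empty _)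
      have h6 : (G.sat v \ Q).card = (G.sat v).card - Q.card := card_sdiff_of_subset hQs
      have h7 : Q.card ≤ (G.sat v).card := card_le_card hQs
      unfold Str.cap
      rw [hg'y]
      simp only [Bool.false_eq_true, if_false]
      omega
    · have hvS : v ∈ G.R.erase y := mem_erase.2 ⟨hvy, hv⟩
      have h5 := hslack v hvS
      have hcap : G.cap (Function.update g y false) v = G.cap g v := by
        unfold Str.cap; rw [hg'n v hvy]
      rw [hcap]
      have h6 : ld L' G.D v ≤ ld M (G.ins (G.R.erase y)) v +
          (if g v = true then (Q.filter (fun e => G.oth e y = v)).card else 0) := by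
        have h7 : G.D.filter (fun e => v ∈ L' e) ⊆ (G.ins (G.R.erase y)).filter (fun e => v ∈ M e) ∪
            (if g v = true then Q.filter (fun e => G.oth e y = v) else ∅) := by
          intro e he
          rw [mem_filter] at he
          obtain ⟨heD, heL⟩ := he
          rw [mem_union]
          by_cases hi : e ∈ G.ins (G.R.erase y)
          · left
            rw [hL1 e hi] at heL
            exact mem_filter.2 ⟨hi, (mem_erase.1 heL).2⟩
          · right
            by_cases heQ : e ∈ Q
            · rw [hL2 e hi heQ] at heL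
              split at heL
              · next hgo =>
                rw [mem_singleton] at heL
                rw [← heL] at hgo
                rw [if_pos hgo]
                exact mem_filter.2 ⟨heQ, heL.symm⟩
              · exact absurd heL (notMem_empty _)
            · exfalso
              by_cases hesat : e ∈ G.sat y
              · rw [hL3 e hi heQ hesat, mem_singleton] at heL
                exact hvy heL
              · rw [hL4 e hi heQ hesat] at heL
                exact absurd heL (notMem_empty _)
        have h8 := (card_le_card h7).trans (card_union_le _ _)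
        unfold ld
        refine h8.trans (Nat.add_le_add_left ?_ _)
        split
        · exact le_refl _
        · simp
      by_cases hgv : g v = true
      · rw [if_pos hgv] at h5 h6
        omega
      · rw [if_neg hgv] at h5 h6
        omega

end

theorem tS8c (h1 : XMin) (h2 : XSub) (h3 : XS6a) (h4 : XS1) : XS8c := by
  intro V E _ _ a b G e0 x y S e1 f L Q hSit hDat
  have hclaim := s8c_claim h3 a b G e0 x y S e1 f L Q hSit hDat
  obtain ⟨hp, hM, hHE, hhat, hLow, hxS, hyS⟩ := hSit
  obtain ⟨he1, -, -, -, -, hQ, hQc, -⟩ := hDat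
  have hWF : WF a b G := hM.1
  have hHyp : Hyp a b G := hM.2.1
  have hpi := par_int hp
  have hSR : S ⊆ G.R := hLow.1
  have hSa : G.rho a b S ≤ a := hLow.2.2.2
  have hxR : x ∈ G.R := hSR hxS
  have hyR : y ∈ G.R := (HE.mem hWF hHE).2.1
  by_contra hcon
  apply hclaim
  apply h1 V E a b G (G.R.erase y) ∅ _ _ (by have := hp.1; omega) (by have := hp.2; omega) hM
    (erase_subset _ _) (Or.inl (by
      intro h; have : y ∈ G.R.erase y := h.symm ▸ hyR
      exact (mem_erase.1 this).1 rfl))
  intro T hT hTne
  rw [empty_inter, sum_empty, add_zero]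
  by_contra hlt
  apply hcon
  have hTR : T ⊆ G.R := hT.trans (erase_subset _ _)
  have hyT : y ∉ T := fun h => (mem_erase.1 (hT h)).1 rfl
  have hsum : (∑ v ∈ T, ((a : ℤ) * (((Q.filter (fun e => G.oth e y = v)).card : ℕ) : ℤ) +
      (b : ℤ) * (((if v = x then 1 else 0 : ℕ)) : ℤ))) =
      (a : ℤ) * (kk G Q y T : ℤ) + if x ∈ T then (b : ℤ) else 0 := by
    rw [sum_add_distrib, ← mul_sum, kk_sum]
    push_cast
    congr 1
    by_cases hxT : x ∈ T
    · rw [if_pos hxT, sum_eq_single_of_mem x hxT]
      · simp
      · intro v _ hv; simp [hv]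
    · rw [if_neg hxT]
      apply sum_eq_zero
      intro v hv
      have : v ≠ x := fun h => hxT (h ▸ hv)
      simp [this]
  rw [hsum] at hlt
  by_cases hxT : x ∈ T
  · rw [if_pos hxT] at hlt
    refine ⟨T, hTR, hxT, hyT, ?_⟩
    linarith
  · rw [if_neg hxT] at hlt
    have h5 := h2 V E (a : ℤ) b G T S
    have h6 : 0 ≤ ∑ e ∈ G.cro (T \ S) (S \ T), G.cost (a : ℤ) b e :=
      sum_nonneg (fun e _ => cost_nonneg (by have := hp.1; have := hp.2; omega) G e)
    have h7 : 0 ≤ G.rho a b (T ∩ S) := by
      by_cases hne : (T ∩ S).Nonempty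
      · apply le_of_lt
        apply h4 V E a b G hp hM _ (inter_subset_left.trans hTR) hne
        intro h
        have : y ∈ T ∩ S := h.symm ▸ hyR
        exact hyT (mem_inter.1 this).1
      · rw [not_nonempty_iff_eq_empty] at hne
        rw [hne, rho_empty]
    have h8 : (kk G Q y T : ℤ) ≤ kk G Q y (T ∪ S) := by
      exact_mod_cast kk_mono' G Q y subset_union_left
    have h9 : (a : ℤ) * (kk G Q y T : ℤ) ≤ a * (kk G Q y (T ∪ S) : ℤ) :=
      mul_le_mul_of_nonneg_left h8 (by positivity)
    refine ⟨T ∪ S, union_subset hTR hSR, mem_union_right _ hxS, ?_, ?_⟩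
    · rw [mem_union]; push Not; exact ⟨hyT, hyS⟩
    · linarith

end Pool.Agent.Q115.DF
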