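import Pool.Agent.Q115.DF.Bas

/-! # MP_4006b4_co: Step 8 (iv), the set `V*` -/

open Finset

namespace Pool.Agent.Q115.DF

theorem kk_mono {V E : Type} [DecidableEq V] [DecidableEq E] (G : Str V E) (Q : Finset E) (y : V)
    {S T : Finset V} (h : S ⊆ T) : kk G Q y S ≤ kk G Q y T := by
  unfold kk
  apply card_le_card
  intro e he
  rw [mem_filter] at he ⊢
  exact ⟨he.1, h he.2⟩

theorem tS8d (h1 : XS8c) : XS8d := by
  intro V E _ _ a b G e0 x y S e1 f L Q hSit hDat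
  obtain ⟨W0, hW0R, hxW0, hyW0, hrho⟩ := h1 V E a b G e0 x y S e1 f L Q hSit hDat
  classical
  -- the family of candidates
  let F : Finset (Finset V) := G.R.powerset.filter (fun W => W0 ⊆ W ∧ y ∉ W)
  have hF : ∀ W, W ∈ F ↔ W ⊆ G.R ∧ W0 ⊆ W ∧ y ∉ W := by
    intro W; simp only [F, mem_filter, mem_powerset]
  have hne : F.Nonempty := ⟨W0, (hF W0).2 ⟨hW0R, Subset.refl _, hyW0⟩⟩
  obtain ⟨W1, hW1, hmin⟩ := exists_min_image F (fun W => G.rho a b W) hne
  let F2 : Finset (Finset V) := F.filter (fun W => G.rho a b W = G.rho a b W1)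
  have hne2 : F2.Nonempty := ⟨W1, by simp only [F2, mem_filter]; exact ⟨hW1, trivial⟩⟩
  obtain ⟨W, hW, hmax⟩ := exists_max_image F2 (fun W => W.card) hne2
  have hWF : W ∈ F := (mem_filter.1 hW).1
  have hWr : G.rho a b W = G.rho a b W1 := (mem_filter.1 hW).2
  obtain ⟨hWR, hW0W, hyW⟩ := (hF W).1 hWF
  refine ⟨W, hWR, hW0W hxW0, hyW, ?_, ?_⟩
  · have h2 : G.rho a b W ≤ G.rho a b W0 := by
      rw [hWr]; exact hmin W0 ((hF W0).2 ⟨hW0R, Subset.refl _, hyW0⟩)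
    have h3 : (kk G Q y W0 : ℤ) ≤ kk G Q y W := by exact_mod_cast kk_mono G Q y hW0W
    have h4 : (a : ℤ) * (kk G Q y W0 : ℤ) ≤ a * (kk G Q y W : ℤ) :=
      mul_le_mul_of_nonneg_left h3 (by positivity)
    linarith
  · intro T hTR hyT hWT hne'
    have hTF : T ∈ F := (hF T).2 ⟨hTR, hW0W.trans hWT, hyT⟩
    have h2 : G.rho a b W1 ≤ G.rho a b T := hmin T hTF
    rcases lt_or_eq_of_le h2 with h3 | h3
    · rw [hWr]; exact h3
    · exfalso
      have hTF2 : T ∈ F2 := mem_filter.2 ⟨hTF, h3.symm⟩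
      have h4 := hmax T hTF2
      have h5 : W ⊂ T := (Finset.ssubset_iff_subset_ne).2 ⟨hWT, fun h => hne' h.symm⟩
      have := card_lt_card h5
      omega

end Pool.Agent.Q115.DF
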