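import Pool.Agent.Q115.DF.Bas

/-! # MP_4006b4_co, job DF-25 (helper154): Step 8, Case 1 -/

open Finset

namespace Pool.Agent.Q115.DF

theorem tS8e (h1 : XMinR) (h2 : XComb) (h3 : XS2) (h4 : XS8a) : XS8e := by
  intro V E _ _ a b G e0 x y S e1 f L Q W hSit hDat hWR hxW hyW hrho hmax e2 he2
  by_contra huW
  obtain ⟨hp, hG, hHE, hhat, hLow, hxS, hyS⟩ := hSit
  obtain ⟨he1, hcov, hld, hfy, hfx, hQ, -, hyQ⟩ := hDat
  have hW := hG.1
  obtain ⟨ib3, iab⟩ := par_int hp
  obtain ⟨hb3, hab⟩ := hp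
  have hp : Par a b := ⟨hb3, hab⟩
  obtain ⟨u, hu⟩ : ∃ u, u = G.oth e2 y := ⟨_, rfl⟩
  rw [← hu] at huW
  have he2at : e2 ∈ G.at y := mem_at.2 ⟨(mem_sat.1 he2).1, (mem_sat.1 he2).2.1⟩
  have he2s : G.hd e2 = false := (mem_sat.1 he2).2.2
  obtain ⟨huR, huy⟩ := oth_mem hW he2at
  rw [← hu] at huR huy
  have hends2 := at_ends hW he2at
  rw [← hu] at hends2
  obtain ⟨hxR, hyR, hxy⟩ := HE.mem hW hHE
  obtain ⟨he0D, he0h, he0e⟩ := hHE
  -- facts on `Q`
  have hQs : ∀ e ∈ Q, e ∈ G.sat y ∧ e ≠ e1 := fun e he => by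
    have := mem_erase.1 (hQ he)
    exact ⟨this.2, this.1⟩
  have hQat : ∀ e ∈ Q, e ∈ G.at y := fun e he =>
    mem_at.2 ⟨(mem_sat.1 (hQs e he).1).1, (mem_sat.1 (hQs e he).1).2.1⟩
  have hQsoft : ∀ e ∈ Q, G.hd e = false := fun e he => (mem_sat.1 (hQs e he).1).2.2
  have he0Q : e0 ∉ Q := fun h => by
    have := hQsoft e0 h
    rw [he0h] at this
    exact absurd this (by simp)
  -- an edge at `y` is not inside `W`
  have hatW : ∀ e ∈ G.at y, e ∉ G.ins W := by
    intro e he hin
    obtain ⟨-, k1, k2⟩ := mem_ins.1 hin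
    rcases (mem_at.1 he).2 with k | k
    · exact hyW (k ▸ k1)
    · exact hyW (k ▸ k2)
  have hatcro : ∀ e ∈ G.at y, ∀ T ⊆ G.R \ W, e ∈ G.cro W T ↔ y ∈ T ∧ G.oth e y ∈ W := by
    intro e he T hT
    rw [mem_cro]
    have hTW : ∀ v ∈ T, v ∉ W := fun v hv => (mem_sdiff.1 (hT hv)).2
    rcases at_ends hW he with ⟨k1, k2⟩ | ⟨k1, k2⟩
    · rw [k1, k2]
      constructor
      · rintro ⟨-, ⟨k3, -⟩ | ⟨k3, k4⟩⟩
        · exact absurd k3 hyW
        · exact ⟨k3, k4⟩
      · rintro ⟨k3, k4⟩; exact ⟨(mem_at.1 he).1, Or.inr ⟨k3, k4⟩⟩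
    · rw [k1, k2]
      constructor
      · rintro ⟨-, ⟨k3, k4⟩ | ⟨k3, k4⟩⟩
        · exact ⟨k4, k3⟩
        · exact absurd k4 hyW
      · rintro ⟨k3, k4⟩; exact ⟨(mem_at.1 he).1, Or.inl ⟨k4, k3⟩⟩
  have he0at : e0 ∈ G.at y := mem_at.2 ⟨he0D, by
    rcases he0e with h | h
    · exact Or.inr h.2
    · exact Or.inl h.1⟩
  have he0oth : G.oth e0 y = x := by
    rcases he0e with h | h
    · rw [oth_q hW he0D h.2, h.1]
    · rw [oth_p h.1, h.2]
  have hcroMono : ∀ T ⊆ G.R \ W, G.cro W T ⊆ G.cro W (G.R \ W) := by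
    intro T hT e he
    rw [mem_cro] at he ⊢
    exact ⟨he.1, he.2.imp (fun k => ⟨k.1, hT k.2⟩) (fun k => ⟨hT k.1, k.2⟩)⟩
  obtain ⟨K, hK⟩ : ∃ K, K = G.cro W (G.R \ W) \ ({e0} ∪ Q) := ⟨_, rfl⟩
  obtain ⟨yf, hyf⟩ : ∃ yf : V → ℕ, yf = fun v => (if v = y then G.B y else 0) +
    (if v = u then 1 else 0) := ⟨_, rfl⟩
  have hyfy : G.B y ≤ yf y := by rw [hyf]; simp
  have hyfu : 1 ≤ yf u := by rw [hyf]; simp
  have hKsub : K ⊆ G.cro W (G.R \ W) := by rw [hK]; exact sdiff_subset
  have hres : IsCol (G.res W) f L := by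
    refine res_of_sub (X := G.D.erase e1) hWR ?_ hcov hld
    intro e he
    refine mem_erase.2 ⟨fun k => ?_, ins_sub he⟩
    rw [k] at he
    exact hatW e1 (mem_at.2 ⟨(mem_sat.1 he1).1, (mem_sat.1 he1).2.1⟩) he
  have ha1 : 1 ≤ a := by omega
  have hcnn : ∀ e, 0 ≤ G.cost (a : ℤ) b e := cost_nonneg ha1 G
  have hBy : (b : ℤ) * (G.B y : ℤ) ≤ b * (a - 1) := by
    have k1 := (hW.2 y hyR).2
    have k2 : (G.B y : ℤ) + 1 ≤ a := by exact_mod_cast k1
    exact mul_le_mul_of_nonneg_left (by linarith) (by linarith)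
  -- the residual structure is colourable
  have hcolr : Colorable (G.rsd W K {e2} f (fun _ => 0) yf) := by
    refine h1 V E a b G W K {e2} f (fun _ => 0) yf (by omega) (by omega) hG hWR ⟨x, hxW⟩ hKsub ?_
    intro T hT hTn
    have hTW : ∀ v ∈ T, v ∉ W := fun v hv => (mem_sdiff.1 (hT hv)).2
    have hTR : T ⊆ G.R := fun v hv => (mem_sdiff.1 (hT hv)).1
    have hWT : W ∪ T ⊆ G.R := union_subset hWR hTR
    have hWTn : (W ∪ T).Nonempty := ⟨x, mem_union_left _ hxW⟩
    have hn1 : 0 ≤ ((a : ℤ) - b) * (G.n1 K f W T : ℤ) :=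
      mul_nonneg (by linarith) (Int.natCast_nonneg _)
    have hsum : ∑ v ∈ T, ((a : ℤ) * (((fun _ : V => 0) v : ℕ) : ℤ) + (b : ℤ) * (yf v : ℤ)) =
        b * (if y ∈ T then (G.B y : ℤ) else 0) + b * (if u ∈ T then 1 else 0) := by
      have k1 : ∀ v ∈ T, (a : ℤ) * (((fun _ : V => 0) v : ℕ) : ℤ) + (b : ℤ) * (yf v : ℤ) =
          b * (if v = y then (G.B y : ℤ) else 0) + b * (if v = u then 1 else 0) := by
        intro v _
        rw [hyf]
        push_cast
        ring
      rw [sum_congr rfl k1, sum_add_distrib, ← mul_sum, ← mul_sum, sum_ite_eq', sum_ite_eq']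
    rw [hsum]
    have hc0 : 0 ≤ ∑ e ∈ G.cro W T \ K, G.cost (a : ℤ) b e := sum_nonneg fun e _ => hcnn e
    have hz0 : 0 ≤ ∑ e ∈ {e2} ∩ G.ins T, G.cost (a : ℤ) b e := sum_nonneg fun e _ => hcnn e
    by_cases hyT : y ∈ T
    · rw [if_pos hyT]
      have hcc : (b : ℤ) * (a - 1) + a * (kk G Q y W : ℤ) ≤
          ∑ e ∈ G.cro W T \ K, G.cost (a : ℤ) b e := by
        have hsub : {e0} ∪ Q.filter (fun e => G.oth e y ∈ W) ⊆ G.cro W T \ K := by
          intro e he
          have k2 : e ∈ G.cro W T := by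
            rcases mem_union.1 he with k | k
            · rw [mem_singleton.1 k]
              exact (hatcro e0 he0at T hT).2 ⟨hyT, by rw [he0oth]; exact hxW⟩
            · exact (hatcro e (hQat e (mem_filter.1 k).1) T hT).2 ⟨hyT, (mem_filter.1 k).2⟩
          refine mem_sdiff.2 ⟨k2, fun k3 => ?_⟩
          rw [hK] at k3
          refine (mem_sdiff.1 k3).2 ?_
          rcases mem_union.1 he with k | k
          · exact mem_union_left _ k
          · exact mem_union_right _ (mem_filter.1 k).1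
        refine le_trans ?_ (sum_le_sum_of_subset_of_nonneg hsub fun e _ _ => hcnn e)
        rw [sum_union (disjoint_singleton_left.2 fun k => he0Q (mem_filter.1 k).1), sum_singleton,
          cost_hard he0h, sum_congr rfl fun e he => cost_soft (hQsoft e (mem_filter.1 he).1),
          sum_const, nsmul_eq_mul]
        unfold kk
        linarith
      have hzz : (if u ∈ T then (a : ℤ) else 0) ≤ ∑ e ∈ {e2} ∩ G.ins T, G.cost (a : ℤ) b e := by
        by_cases huT : u ∈ T
        · rw [if_pos huT]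
          have k1 : e2 ∈ G.ins T := by
            rw [mem_ins]
            rcases hends2 with ⟨k2, k3⟩ | ⟨k2, k3⟩
            · rw [k2, k3]; exact ⟨(mem_at.1 he2at).1, hyT, huT⟩
            · rw [k2, k3]; exact ⟨(mem_at.1 he2at).1, huT, hyT⟩
          rw [singleton_inter_of_mem k1, sum_singleton, cost_soft he2s]
        · rw [if_neg huT]; exact hz0
      by_cases hWTR : W ∪ T = G.R
      · have huT : u ∈ T := by
          have : u ∈ W ∪ T := by rw [hWTR]; exact huR
          exact (mem_union.1 this).resolve_left huW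
        rw [if_pos huT] at hzz ⊢
        have k1 := hG.2.1 (W ∪ T) hWT hWTn
        linarith
      · have k1 := low_lt h3 hp hG hWT hWTn hWTR
        by_cases huT : u ∈ T
        · rw [if_pos huT] at hzz ⊢
          linarith
        · rw [if_neg huT] at hzz ⊢
          linarith
    · rw [if_neg hyT]
      have k1 : W ∪ T ≠ W := by
        obtain ⟨t, ht⟩ := hTn
        intro k
        exact hTW t ht (k ▸ mem_union_right _ ht)
      have k2 := hmax (W ∪ T) hWT (fun k => by
        rcases mem_union.1 k with k | k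
        · exact hyW k
        · exact hyT k) subset_union_left k1
      split_ifs <;> linarith
  obtain ⟨f2, L2, hc2⟩ := hcolr
  have hc2' := isCol_rsd.1 hc2
  have hyRW : y ∈ G.R \ W := mem_sdiff.2 ⟨hyR, hyW⟩
  have huRW : u ∈ G.R \ W := mem_sdiff.2 ⟨huR, huW⟩
  have hf2y : f2 y = true := by
    by_contra hne
    have k1 := hc2'.2 y hyRW
    rw [if_neg hne] at k1
    omega
  obtain ⟨X, hX⟩ : ∃ X : E → Finset V, ∀ e, X e = if e = e0 then ∅ else
      if e = e2 then (if f2 u = false then {u} else ∅) else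
        (if f (G.oth e y) = false then {G.oth e y} else ∅) := ⟨_, fun _ => rfl⟩
  -- the special edges
  have hFcl : ∀ e ∈ (G.cro W (G.R \ W) \ K) ∪ ({e2} ∩ G.ins (G.R \ W)),
      e = e0 ∨ e = e2 ∨ (e ≠ e0 ∧ e ≠ e2 ∧ e ∈ Q ∧ G.oth e y ∈ W) := by
    intro e he
    rcases mem_union.1 he with k | k
    · obtain ⟨k1, k2⟩ := mem_sdiff.1 k
      by_cases k3 : e = e0
      · exact Or.inl k3
      · by_cases k4 : e = e2
        · exact Or.inr (Or.inl k4)
        · refine Or.inr (Or.inr ⟨k3, k4, ?_⟩)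
          have k5 : e ∈ Q := by
            by_contra k6
            apply k2
            rw [hK]
            refine mem_sdiff.2 ⟨k1, fun k7 => ?_⟩
            rcases mem_union.1 k7 with k8 | k8
            · exact k3 (mem_singleton.1 k8)
            · exact k6 k8
          exact ⟨k5, ((hatcro e (hQat e k5) (G.R \ W) (Subset.refl _)).1 k1).2⟩
    · exact Or.inr (Or.inl (mem_singleton.1 (mem_inter.1 k).1))
  refine hG.2.2.1 (h2 V E a b G W K {e2} (fun _ => 0) yf f f2 L L2 X hW hWR hKsub hres hc2 ?_ ?_ ?_)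
  · intro e he
    rcases hFcl e he with k | k | ⟨k1, k2, k3, k4⟩
    · rw [k]
      refine cov_of_ne he0h ?_ _
      rcases he0e with ⟨k5, k6⟩ | ⟨k5, k6⟩
      · rw [k5, k6, if_pos hxW, if_neg hyW, hfx, hf2y]; simp
      · rw [k5, k6, if_pos hxW, if_neg hyW, hfx, hf2y]; simp
    · rw [k]
      have hne : e2 ≠ e0 := fun k5 => by
        rw [k5, he0h] at he2s
        exact absurd he2s (by simp)
      rw [hX, if_neg hne, if_pos rfl]
      cases hfu : f2 u with
      | true =>
        refine cov_of_eq he2s ?_ _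
        rcases hends2 with ⟨k5, k6⟩ | ⟨k5, k6⟩
        · rw [k5, k6, if_neg hyW, if_neg huW, hf2y, hfu]
        · rw [k5, k6, if_neg hyW, if_neg huW, hf2y, hfu]
      | false =>
        refine ⟨fun k7 => absurd (he2s.symm.trans k7) (by simp), fun _ _ => ?_⟩
        rcases hends2 with ⟨k5, k6⟩ | ⟨k5, k6⟩
        · rw [k6]; exact Or.inr (by simp)
        · rw [k5]; exact Or.inl (by simp)
    · rw [hX, if_neg k1, if_neg k2]
      have hso := hQsoft e k3
      have hen := at_ends hW (hQat e k3)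
      cases hfo : f (G.oth e y) with
      | true =>
        refine cov_of_eq hso ?_ _
        rcases hen with ⟨k5, k6⟩ | ⟨k5, k6⟩
        · rw [k5, k6, if_neg hyW, if_pos k4, hf2y, hfo]
        · rw [k5, k6, if_neg hyW, if_pos k4, hf2y, hfo]
      | false =>
        refine ⟨fun k7 => absurd (hso.symm.trans k7) (by simp), fun _ _ => ?_⟩
        rcases hen with ⟨k5, k6⟩ | ⟨k5, k6⟩
        · rw [k6]; exact Or.inr (by simp)
        · rw [k5]; exact Or.inl (by simp)
  · intro v hv
    -- membership in `X e`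
    have hXv : ∀ e ∈ ((G.cro W (G.R \ W) \ K) ∪ ({e2} ∩ G.ins (G.R \ W))).filter (fun e => v ∈ X e),
        e ∈ Q ∧ G.oth e y = v ∧ f v = false := by
      intro e he
      obtain ⟨k5, k6⟩ := mem_filter.1 he
      rcases hFcl e k5 with k | k | ⟨k1, k2, k3, k4⟩
      · rw [hX, if_pos k] at k6
        exact absurd k6 (notMem_empty v)
      · exfalso
        have hne : e ≠ e0 := fun k5 => by
          rw [← k, k5, he0h] at he2s
          exact absurd he2s (by simp)
        rw [hX, if_neg hne, if_pos k] at k6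
        split_ifs at k6 with k7
        · exact huW ((mem_singleton.1 k6) ▸ hv)
        · exact absurd k6 (notMem_empty v)
      · rw [hX, if_neg k1, if_neg k2] at k6
        split_ifs at k6 with k7
        · have k8 := mem_singleton.1 k6
          exact ⟨k3, k8.symm, by rw [k8]; exact k7⟩
        · exact absurd k6 (notMem_empty v)
    have hdisj : Disjoint ((G.ins W).filter (fun e => v ∈ L e))
        (((G.cro W (G.R \ W) \ K) ∪ ({e2} ∩ G.ins (G.R \ W))).filter (fun e => v ∈ X e)) := by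
      rw [disjoint_left]
      intro e k1 k2
      exact hatW e (hQat e (hXv e k2).1) (mem_filter.1 k1).1
    have hsub : (G.ins W).filter (fun e => v ∈ L e) ∪
        (((G.cro W (G.R \ W) \ K) ∪ ({e2} ∩ G.ins (G.R \ W))).filter (fun e => v ∈ X e)) ⊆
        (G.D.erase e1).filter (fun e => v ∈ L e) := by
      intro e he
      rcases mem_union.1 he with k | k
      · obtain ⟨k1, k2⟩ := mem_filter.1 k
        refine mem_filter.2 ⟨mem_erase.2 ⟨fun k3 => ?_, ins_sub k1⟩, k2⟩
        rw [k3] at k1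
        exact hatW e1 (mem_at.2 ⟨(mem_sat.1 he1).1, (mem_sat.1 he1).2.1⟩) k1
      · obtain ⟨k1, k2, k3⟩ := hXv e k
        have k4 : e ∈ G.D.erase e1 := mem_erase.2 ⟨(hQs e k1).2, (mem_at.1 (hQat e k1)).1⟩
        refine mem_filter.2 ⟨k4, ?_⟩
        have k5 := (hcov e k4).2 (hQsoft e k1)
        have hen := at_ends hW (hQat e k1)
        rw [k2] at hen
        rcases hen with ⟨k6, k7⟩ | ⟨k6, k7⟩
        · rw [k6, k7, hfy, k3] at k5
          exact (k5 (by simp)).resolve_left (hyQ e k1)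
        · rw [k6, k7, hfy, k3] at k5
          exact (k5 (by simp)).resolve_right (hyQ e k1)
    have k1 := card_le_card hsub
    rw [card_union_of_disjoint hdisj] at k1
    have k2 := hld v (hWR hv)
    unfold ld at k2 ⊢
    omega
  · intro v hv
    have hvW := (mem_sdiff.1 hv).2
    have hXv : ∀ e ∈ ((G.cro W (G.R \ W) \ K) ∪ ({e2} ∩ G.ins (G.R \ W))).filter (fun e => v ∈ X e),
        e = e2 ∧ v = u ∧ f2 u = false := by
      intro e he
      obtain ⟨k5, k6⟩ := mem_filter.1 he
      rcases hFcl e k5 with k | k | ⟨k1, k2, k3, k4⟩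
      · rw [hX, if_pos k] at k6
        exact absurd k6 (notMem_empty v)
      · have hne : e ≠ e0 := fun k5 => by
          rw [← k, k5, he0h] at he2s
          exact absurd he2s (by simp)
        rw [hX, if_neg hne, if_pos k] at k6
        split_ifs at k6 with k7
        · exact ⟨k, mem_singleton.1 k6, k7⟩
        · exact absurd k6 (notMem_empty v)
      · exfalso
        rw [hX, if_neg k1, if_neg k2] at k6
        split_ifs at k6 with k7
        · exact hvW ((mem_singleton.1 k6) ▸ k4)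
        · exact absurd k6 (notMem_empty v)
    have hsub : ((G.cro W (G.R \ W) \ K) ∪ ({e2} ∩ G.ins (G.R \ W))).filter (fun e => v ∈ X e) ⊆
        {e2} := fun e he => mem_singleton.2 (hXv e he).1
    by_cases hem : (((G.cro W (G.R \ W) \ K) ∪ ({e2} ∩ G.ins (G.R \ W))).filter
        (fun e => v ∈ X e)).Nonempty
    · obtain ⟨e, he⟩ := hem
      obtain ⟨-, k1, k2⟩ := hXv e he
      have k3 := card_le_card hsub
      rw [card_singleton] at k3
      rw [k1, if_neg (by rw [k2]; simp)]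
      rw [k1] at k3
      exact le_trans k3 hyfu
    · rw [not_nonempty_iff_eq_empty] at hem
      unfold ld
      rw [hem, card_empty]
      exact Nat.zero_le _

end Pool.Agent.Q115.DF
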