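import Pool.Agent.Q115.DF.Bas

/-! # MP_4006b4_co: job DF-26, the end of Step 8 -/

set_option linter.unusedVariables false

open Finset

namespace Pool.Agent.Q115.DF

theorem tS8 (h1 : XUnion) (h2 : XS8a) (h3 : XS8b) (h4 : XS8c) (h5 : XS8d) (h6 : XS8e) : XS8 := by
  intro V E _ _ a b G e0 x y S hS
  obtain ⟨e1, f, L, Q, hD⟩ := h3 V E a b G e0 x y S hS
  obtain ⟨W, hWR, hxW, hyW, hW1, hW2⟩ := h5 V E a b G e0 x y S e1 f L Q hS hD
  have hall := h6 V E a b G e0 x y S e1 f L Q W hS hD hWR hxW hyW hW1 hW2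
  obtain ⟨hne, h2b, hA, hB, hBs⟩ := h2 V E a b G e0 x y S hS
  obtain ⟨hp, hM, hHE, hhat, hLow, hxS, hyS⟩ := hS
  obtain ⟨he1, -, -, -, -, hQs, hQc, -⟩ := hD
  have hG := hM.1
  obtain ⟨hpx, hpy, hpne⟩ := hHE.mem hG
  have hkk : kk G Q y W = Q.card := by
    unfold kk
    rw [filter_true_of_mem]
    intro e he
    exact hall e (mem_of_mem_erase (hQs he))
  -- crossing edges
  have hcro : G.cro W {y} = {e0} ∪ G.sat y := by
    rw [← hhat]
    ext e
    rw [mem_cro, mem_union, mem_hat, mem_sat]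
    simp only [mem_singleton]
    constructor
    · rintro ⟨hd, ⟨h7, h8⟩ | ⟨h7, h8⟩⟩
      · rcases Bool.eq_false_or_eq_true (G.hd e) with h9 | h9
        · left; exact ⟨hd, Or.inr h8, h9⟩
        · right; exact ⟨hd, Or.inr h8, h9⟩
      · rcases Bool.eq_false_or_eq_true (G.hd e) with h9 | h9
        · left; exact ⟨hd, Or.inl h7, h9⟩
        · right; exact ⟨hd, Or.inl h7, h9⟩
    · intro h7
      rcases h7 with ⟨hd, hpq, hh⟩ | ⟨hd, hpq, hh⟩
      · have : e ∈ G.hat y := mem_hat.2 ⟨hd, hpq, hh⟩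
        rw [hhat, mem_singleton] at this
        subst this
        refine ⟨hd, ?_⟩
        rcases hHE.2.2 with ⟨h8, h9⟩ | ⟨h8, h9⟩
        · left; exact ⟨by rw [h8]; exact hxW, h9⟩
        · right; exact ⟨h8, by rw [h9]; exact hxW⟩
      · have hs : e ∈ G.sat y := mem_sat.2 ⟨hd, hpq, hh⟩
        have ha : e ∈ G.at y := mem_at.2 ⟨hd, hpq⟩
        have hw := hall e hs
        refine ⟨hd, ?_⟩
        rcases at_ends hG ha with ⟨h8, h9⟩ | ⟨h8, h9⟩
        · right; exact ⟨h8, by rw [h9]; exact hw⟩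
        · left; exact ⟨by rw [h8]; exact hw, h9⟩
  have hdis : Disjoint W {y} := by
    rw [disjoint_singleton_right]; exact hyW
  have hU := h1 V E (a : ℤ) (b : ℤ) G W {y} hdis
  rw [hcro, rho_single hG] at hU
  have hdis2 : Disjoint ({e0} : Finset E) (G.sat y) := by
    rw [disjoint_singleton_left, mem_sat]
    rintro ⟨-, -, h7⟩
    rw [hHE.2.1] at h7
    exact absurd h7 (by simp)
  have hsum : ∑ e ∈ {e0} ∪ G.sat y, G.cost (a : ℤ) b e = (b : ℤ) * (a - 1) + (G.sat y).card * a := by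
    rw [sum_union hdis2, sum_singleton, cost_hard hHE.2.1]
    congr 1
    rw [sum_congr rfl (fun e he => cost_soft (mem_sat.1 he).2.2), sum_const]
    simp
  rw [hsum] at hU
  have hlow := hM.2.1 (W ∪ {y}) (union_subset hWR (by simpa using hpy)) ⟨y, by simp⟩
  rw [hkk] at hW1
  obtain ⟨hb, hab⟩ := par_int hp
  have hAz : (G.A y : ℤ) = b - 1 := by
    have : ((G.A y : ℤ)) + 1 = b := by exact_mod_cast hA
    linarith
  have hBz : (a : ℤ) ≤ (G.B y : ℤ) + 2 := by exact_mod_cast hB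
  have hQz : (Q.card : ℤ) + (G.B y : ℤ) = ((G.sat y).card : ℤ) + 1 := by exact_mod_cast hQc
  have hQz' : (Q.card : ℤ) = ((G.sat y).card : ℤ) + 1 - (G.B y : ℤ) := by linarith
  rw [hU] at hlow
  unfold Str.wt at hlow
  rw [hAz] at hlow
  rw [hQz'] at hW1
  nlinarith [mul_nonneg (sub_nonneg.2 (show (2 : ℤ) ≤ (a : ℤ) - b by linarith)) (show (0 : ℤ) ≤ (G.B y : ℤ) - 1 by linarith)]

end Pool.Agent.Q115.DF
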