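import Pool.Agent.Q115.DF.Bas

/-! # MP_4006b4_co: job DF-27, assembly for structures -/

open Finset

namespace Pool.Agent.Q115.DF

theorem tMain (a b : ℕ) (hp : Par a b) (h1 : XS5a a b) (h2 : XS7d) (h3 : XS8) : XMain a b := by
  intro V E _ _ G hW hH
  suffices key : ∀ (n : ℕ) (G : Str V E), G.meas = n → WF a b G → Hyp a b G → Colorable G from
    key _ G rfl hW hH
  intro n
  induction n using Nat.strong_induction_on with
  | _ n ih =>
    intro G hn hWG hHG
    by_contra hc
    have hM : MinCE a b G := ⟨hWG, hHG, hc, fun G' hlt hW' hH' => ih G'.meas (by rw [← hn]; exact hlt) G' rfl hW' hH'⟩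
    obtain ⟨e0, x, y, S, hHE, hhat, hLow, hxS, hyS⟩ := h2 V E a b G hp h1 hM
    exact h3 V E a b G e0 x y S ⟨hp, hM, hHE, hhat, hLow, hxS, hyS⟩

end Pool.Agent.Q115.DF
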