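import Pool.Agent.Q115.DF.StmP

/-!
# MP_4006b4_co: graphs

`DefCol d1 d2 G`: there is a partition into two classes inducing maximum degree at most `d1` and at most `d2`.
-/

open Finset

namespace Pool.Agent.Q115.DF

/-- `G` has a `(Δ_{d1}, Δ_{d2})`-colouring (`true` = first class) -/
def DefCol {V : Type} (d1 d2 : ℕ) (G : SimpleGraph V) : Prop :=
  ∃ f : V → Bool, (∀ v, f v = true → {w | G.Adj v w ∧ f w = true}.ncard ≤ d1) ∧
    (∀ v, f v = false → {w | G.Adj v w ∧ f w = false}.ncard ≤ d2)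

/-- `G` is critical: no colouring, but every proper subgraph has one -/
def Critical {V : Type} (d1 d2 : ℕ) (G : SimpleGraph V) : Prop :=
  ¬ DefCol d1 d2 G ∧ ∀ H : G.Subgraph, H ≠ ⊤ → DefCol d1 d2 H.coe

/-- the structure of a graph: all edges are hard, all vertices are full. -/
noncomputable def gs {V : Type} [Fintype V] [DecidableEq V] (d1 d2 : ℕ) (G : SimpleGraph V) : Str V (Sym2 V) where
  R := Finset.univ
  D := (Set.toFinite G.edgeSet).toFinset
  p := fun e => (Quot.out e).1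
  q := fun e => (Quot.out e).2
  hd := fun _ => true
  A := fun _ => d1 + 1
  B := fun _ => d2 + 1

/-- well formed -/
def XG0 : Prop := ∀ (V : Type) [Fintype V] [DecidableEq V] (d1 d2 : ℕ) (G : SimpleGraph V),
  WF (d2 + 2) (d1 + 2) (gs d1 d2 G)

/-- the potential of the whole structure -/
def XG1 : Prop := ∀ (V : Type) [Fintype V] [DecidableEq V] (d1 d2 : ℕ) (G : SimpleGraph V),
  (gs d1 d2 G).rho ((d2 + 2 : ℕ) : ℤ) ((d1 + 2 : ℕ) : ℤ) Finset.univ =
    (2 * ((d1 : ℤ) + 2) * ((d2 : ℤ) + 1) - (d2 + 2)) * (Nat.card V : ℤ) -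
      ((d1 : ℤ) + 2) * ((d2 : ℤ) + 1) * (G.edgeSet.ncard : ℤ)

/-- colouring of the structure gives a colouring of the graph -/
def XG2 : Prop := ∀ (V : Type) [Fintype V] [DecidableEq V] (d1 d2 : ℕ) (G : SimpleGraph V),
  Colorable (gs d1 d2 G) → DefCol d1 d2 G

/-- for critical `G` all proper restrictions are colourable -/
def XG3 : Prop := ∀ (V : Type) [Fintype V] [DecidableEq V] (d1 d2 : ℕ) (G : SimpleGraph V) (S : Finset V),
  Critical d1 d2 G → S ≠ Finset.univ → Colorable ((gs d1 d2 G).res S)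

/-- the theorem for graphs -/
def XG (d1 d2 : ℕ) : Prop := ∀ (V : Type) [Finite V] (G : SimpleGraph V), Critical d1 d2 G →
  (2 - ((d2 : ℚ) + 2) / (((d1 : ℚ) + 2) * ((d2 : ℚ) + 1))) * (Nat.card V : ℚ) + 1 / ((d2 : ℚ) + 1)
    ≤ (G.edgeSet.ncard : ℚ)

/-- from structures to graphs -/
def XG4 : Prop := ∀ d1 d2 : ℕ, 1 ≤ d1 → d1 + 2 ≤ d2 → XMain (d2 + 2) (d1 + 2) → XG d1 d2

end Pool.Agent.Q115.DF
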