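import Pool.Agent.Q115.DF.Bas
import Pool.Agent.Q115.DF.StmG

/-! # MP_4006b4_co: job DF-28, graphs, part 1 -/

set_option linter.unusedSectionVars false

open Finset

namespace Pool.Agent.Q115.DF

theorem gs_mk {V : Type} (e : Sym2 V) : s((Quot.out e).1, (Quot.out e).2) = e := Quot.out_eq e

theorem gs_mem {V : Type} [Fintype V] [DecidableEq V] {d1 d2 : ℕ} {G : SimpleGraph V} {e : Sym2 V} :
    e ∈ (gs d1 d2 G).D ↔ e ∈ G.edgeSet := by
  simp [gs]

theorem gs_adj {V : Type} [Fintype V] [DecidableEq V] {d1 d2 : ℕ} {G : SimpleGraph V} {e : Sym2 V}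
    (he : e ∈ (gs d1 d2 G).D) : G.Adj (Quot.out e).1 (Quot.out e).2 := by
  rw [gs_mem] at he
  rw [← SimpleGraph.mem_edgeSet, gs_mk]
  exact he

theorem tG0 : XG0 := by
  intro V _ _ d1 d2 G
  refine ⟨fun e he => ⟨Finset.mem_univ _, Finset.mem_univ _, (gs_adj he).ne⟩, fun v _ => ?_⟩
  exact ⟨le_refl _, le_refl _⟩

theorem tG1 : XG1 := by
  intro V _ _ d1 d2 G
  have h1 : (gs d1 d2 G).ins Finset.univ = (gs d1 d2 G).D := by
    ext e
    rw [mem_ins]
    simp
  have h2 : (gs d1 d2 G).D.card = G.edgeSet.ncard := by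
    rw [Set.ncard_eq_toFinset_card G.edgeSet (Set.toFinite _)]
    rfl
  unfold Str.rho
  rw [h1]
  have h3 : ∀ e ∈ (gs d1 d2 G).D, (gs d1 d2 G).cost ((d2 + 2 : ℕ) : ℤ) ((d1 + 2 : ℕ) : ℤ) e =
      ((d1 : ℤ) + 2) * ((d2 : ℤ) + 1) := by
    intro e _
    rw [cost_hard (by rfl)]
    push_cast
    ring
  have h4 : ∀ v ∈ (Finset.univ : Finset V), (gs d1 d2 G).wt ((d2 + 2 : ℕ) : ℤ) ((d1 + 2 : ℕ) : ℤ) v =
      2 * ((d1 : ℤ) + 2) * ((d2 : ℤ) + 1) - (d2 + 2) := by
    intro v _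
    simp only [Str.wt, gs]
    push_cast
    ring
  rw [Finset.sum_congr rfl h3, Finset.sum_congr rfl h4, Finset.sum_const, Finset.sum_const, h2,
    Finset.card_univ, Nat.card_eq_fintype_card, nsmul_eq_mul, nsmul_eq_mul]
  ring

theorem gs_deg {V : Type} [Fintype V] [DecidableEq V] {d1 d2 : ℕ} {G : SimpleGraph V}
    {f : V → Bool} {L : Sym2 V → Finset V} (h : ∀ e ∈ (gs d1 d2 G).D, Cov (gs d1 d2 G) f e (L e))
    (v : V) (k : Bool) (hv : f v = k) :
    {w | G.Adj v w ∧ f w = k}.ncard ≤ ld L (gs d1 d2 G).D v := by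
  classical
  have h1 : {w | G.Adj v w ∧ f w = k}.ncard =
      (Finset.univ.filter (fun w => G.Adj v w ∧ f w = k)).card := by
    rw [← Set.ncard_coe_finset]
    congr 1
    ext w
    simp
  rw [h1]
  unfold ld
  refine Finset.card_le_card_of_injOn (fun w => s(v, w)) ?_ ?_
  · intro w hw
    have hw' : G.Adj v w ∧ f w = k := by simpa using hw
    have hD : s(v, w) ∈ (gs d1 d2 G).D := by
      rw [gs_mem]
      exact hw'.1
    have h2 := h _ hD
    have h3 := gs_mk s(v, w)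
    rw [Sym2.eq_iff] at h3
    have hp : (gs d1 d2 G).p s(v, w) = (Quot.out s(v, w)).1 := rfl
    have hq : (gs d1 d2 G).q s(v, w) = (Quot.out s(v, w)).2 := rfl
    have h4 := h2.1 (by rfl)
    rw [hp, hq] at h4
    have h5 : v ∈ L s(v, w) := by
      rcases h3 with ⟨e1, e2⟩ | ⟨e1, e2⟩
      · have := h4 (by rw [e1, e2, hv, hw'.2])
        rw [e1] at this
        exact this.1
      · have := h4 (by rw [e1, e2, hv, hw'.2])
        rw [e2] at this
        exact this.2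
    simpa using ⟨hD, h5⟩
  · intro w _ w' _ he
    have he' : s(v, w) = s(v, w') := he
    rw [Sym2.eq_iff] at he'
    rcases he' with ⟨_, e2⟩ | ⟨e1, e2⟩
    · exact e2
    · rw [e2, e1]

theorem tG2 : XG2 := by
  intro V _ _ d1 d2 G ⟨f, L, h1, h2⟩
  refine ⟨f, fun v hv => ?_, fun v hv => ?_⟩
  · have h3 := h2 v (Finset.mem_univ v)
    have h4 : (gs d1 d2 G).cap f v = d1 + 1 := by simp [Str.cap, hv, gs]
    have h5 := gs_deg h1 v true hv
    omega
  · have h3 := h2 v (Finset.mem_univ v)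
    have h4 : (gs d1 d2 G).cap f v = d2 + 1 := by simp [Str.cap, hv, gs]
    have h5 := gs_deg h1 v false hv
    omega

end Pool.Agent.Q115.DF
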