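import Pool.Agent.Q115.DF.Bas
import Pool.Agent.Q115.DF.StmG

/-! # MP_4006b4_co: restrictions of critical graphs are colourable (job DF-29) -/

set_option linter.unusedSectionVars false

open Finset

namespace Pool.Agent.Q115.DF

namespace J29

theorem out_eq {V : Type} (e : Sym2 V) : s((Quot.out e).1, (Quot.out e).2) = e := by
  have h : Quot.mk _ (Quot.out e) = e := Quot.out_eq e
  exact h

theorem mem_D {V : Type} [Fintype V] [DecidableEq V] {d1 d2 : ℕ} {G : SimpleGraph V} {e : Sym2 V} :
    e ∈ (gs d1 d2 G).D ↔ G.Adj ((gs d1 d2 G).p e) ((gs d1 d2 G).q e) := by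
  change e ∈ (Set.toFinite G.edgeSet).toFinset ↔ G.Adj (Quot.out e).1 (Quot.out e).2
  rw [Set.Finite.mem_toFinset, ← SimpleGraph.mem_edgeSet, out_eq]

/-- the number of loads at `v` is bounded by the number of neighbours of the same colour in `S` -/
theorem load_le {V : Type} [Fintype V] [DecidableEq V] {d1 d2 : ℕ} (G : SimpleGraph V) (S : Finset V)
    (f : V → Bool) (v : V) (c : Bool) (hv : f v = c)
    (W : Finset V) (hW : ∀ w, w ∈ S → G.Adj v w → f w = c → w ∈ W) :
    ld (fun e => if f ((gs d1 d2 G).p e) = f ((gs d1 d2 G).q e) then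
      {(gs d1 d2 G).p e, (gs d1 d2 G).q e} else ∅) ((gs d1 d2 G).ins S) v ≤ W.card := by
  unfold ld
  refine Finset.card_le_card_of_injOn (fun e => (gs d1 d2 G).oth e v) ?_ ?_
  · intro e he
    rw [Finset.mem_coe, Finset.mem_filter, mem_ins] at he
    obtain ⟨⟨h1, h2, h3⟩, h4⟩ := he
    beta_reduce at h4
    rw [mem_D] at h1
    by_cases h5 : f ((gs d1 d2 G).p e) = f ((gs d1 d2 G).q e)
    · rw [if_pos h5, Finset.mem_insert, Finset.mem_singleton] at h4
      rw [Finset.mem_coe]
      rcases h4 with h4 | h4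
      · have h6 : (gs d1 d2 G).oth e v = (gs d1 d2 G).q e := oth_p h4.symm
        simp only [h6]
        refine hW _ h3 (by rw [h4]; exact h1) ?_
        rw [← h5, ← h4, hv]
      · have h7 : (gs d1 d2 G).p e ≠ v := by rw [h4]; exact h1.ne
        have h6 : (gs d1 d2 G).oth e v = (gs d1 d2 G).p e := by unfold Str.oth; rw [if_neg h7]
        simp only [h6]
        refine hW _ h2 (by rw [h4]; exact h1.symm) ?_
        rw [h5, ← h4, hv]
    · rw [if_neg h5] at h4
      exact absurd h4 (Finset.notMem_empty v)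
  · intro e he e' he' hee
    -- `e = s(v, oth e v)`
    have key : ∀ e ∈ ((gs d1 d2 G).ins S).filter (fun e => v ∈
        (if f ((gs d1 d2 G).p e) = f ((gs d1 d2 G).q e) then
          {(gs d1 d2 G).p e, (gs d1 d2 G).q e} else (∅ : Finset V))),
        e = s(v, (gs d1 d2 G).oth e v) := by
      intro e he
      rw [Finset.mem_filter, mem_ins] at he
      obtain ⟨⟨h1, h2, h3⟩, h4⟩ := he
      rw [mem_D] at h1
      have hout : s((gs d1 d2 G).p e, (gs d1 d2 G).q e) = e := out_eq e
      by_cases h5 : f ((gs d1 d2 G).p e) = f ((gs d1 d2 G).q e)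
      · rw [if_pos h5, Finset.mem_insert, Finset.mem_singleton] at h4
        rcases h4 with h4 | h4
        · have h6 : (gs d1 d2 G).oth e v = (gs d1 d2 G).q e := oth_p h4.symm
          rw [h6, h4]
          exact hout.symm
        · have h7 : (gs d1 d2 G).p e ≠ v := by rw [h4]; exact h1.ne
          have h6 : (gs d1 d2 G).oth e v = (gs d1 d2 G).p e := by unfold Str.oth; rw [if_neg h7]
          rw [h6, h4, Sym2.eq_swap]
          exact hout.symm
      · rw [if_neg h5] at h4
        exact absurd h4 (Finset.notMem_empty v)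
    have hee' : (gs d1 d2 G).oth e v = (gs d1 d2 G).oth e' v := hee
    rw [key e he, key e' he', hee']

end J29

open J29

theorem tG3 : XG3 := by
  classical
  intro V _ _ d1 d2 G S hG hS
  obtain ⟨_, hcrit⟩ := hG
  have hH : (⊤ : G.Subgraph).induce (S : Set V) ≠ ⊤ := by
    intro h
    apply hS
    have h1 := congrArg SimpleGraph.Subgraph.verts h
    rw [SimpleGraph.Subgraph.induce_verts, SimpleGraph.Subgraph.verts_top] at h1
    exact_mod_cast h1
  obtain ⟨g, hg1, hg2⟩ := hcrit _ hH
  have hadj : ∀ (v w : V) (hv : v ∈ S) (hw : w ∈ S), G.Adj v w →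
      ((⊤ : G.Subgraph).induce (S : Set V)).coe.Adj ⟨v, hv⟩ ⟨w, hw⟩ := by
    intro v w hv hw h
    rw [SimpleGraph.Subgraph.coe_adj, SimpleGraph.Subgraph.induce_adj]
    exact ⟨hv, hw, h⟩
  let f : V → Bool := fun v => if h : v ∈ S then g ⟨v, h⟩ else true
  have hf : ∀ v (h : v ∈ S), f v = g ⟨v, h⟩ := fun v h => dif_pos h
  refine ⟨f, fun e => if f ((gs d1 d2 G).p e) = f ((gs d1 d2 G).q e) then
      {(gs d1 d2 G).p e, (gs d1 d2 G).q e} else ∅, ?_⟩
  rw [isCol_res]
  constructor
  · intro e _
    refine ⟨fun _ h => ?_, fun h => ?_⟩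
    · rw [if_pos h]
      exact ⟨Finset.mem_insert_self _ _, Finset.mem_insert_of_mem (Finset.mem_singleton_self _)⟩
    · exact absurd h (by simp [gs])
  · intro v hv
    -- bound by the neighbours of the colour `c`
    have gen : ∀ (c : Bool) (d : ℕ), f v = c →
        ({w | ((⊤ : G.Subgraph).induce (S : Set V)).coe.Adj ⟨v, hv⟩ w ∧ g w = c}).ncard ≤ d →
        ld (fun e => if f ((gs d1 d2 G).p e) = f ((gs d1 d2 G).q e) then
          {(gs d1 d2 G).p e, (gs d1 d2 G).q e} else ∅) ((gs d1 d2 G).ins S) v ≤ d := by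
      intro c d hc hd
      let T : Set ((⊤ : G.Subgraph).induce (S : Set V)).verts :=
        {w | ((⊤ : G.Subgraph).induce (S : Set V)).coe.Adj ⟨v, hv⟩ w ∧ g w = c}
      have hfin : (Subtype.val '' T : Set V).Finite := Set.toFinite _
      have h1 := load_le (d1 := d1) (d2 := d2) G S f v c hc hfin.toFinset (by
        intro w hw h1 h2
        rw [Set.Finite.mem_toFinset]
        refine ⟨⟨w, hw⟩, ⟨hadj v w hv hw h1, ?_⟩, rfl⟩
        rw [← hf w hw, h2])
      have h2 : hfin.toFinset.card = T.ncard := by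
        rw [← Set.ncard_eq_toFinset_card _ hfin]
        exact Set.ncard_image_of_injective T Subtype.val_injective
      rw [h2] at h1
      exact h1.trans hd
    unfold Str.cap
    by_cases hc : f v = true
    · rw [if_pos hc]
      have h1 := gen true d1 hc (hg1 ⟨v, hv⟩ (by rw [← hf v hv, hc]))
      exact Nat.add_le_add_right h1 1
    · rw [if_neg hc]
      have hc' : f v = false := by simpa using hc
      have h1 := gen false d2 hc' (hg2 ⟨v, hv⟩ (by rw [← hf v hv, hc']))
      exact Nat.add_le_add_right h1 1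

end Pool.Agent.Q115.DF
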