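import Pool.Agent.Q115.DF.Bas
import Pool.Agent.Q115.DF.StmG

/-!
# MP_4006b4_co: from structures to graphs (DF-30)
-/

set_option linter.unusedSectionVars false
set_option linter.unusedVariables false

open Finset

namespace Pool.Agent.Q115.DF

theorem tG4 (h0 : XG0) (h1 : XG1) (h2 : XG2) (h3 : XG3) (h4 : XRsd) (h5 : XComb) (h6 : XMod) :
    XG4 := by
  intro d1 d2 hd1 hd2 hMain V _ G hcr
  by_contra hlt
  rw [not_le] at hlt
  classical
  have : Fintype V := Fintype.ofFinite V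
  set S0 := gs d1 d2 G with hS0
  have hWF : WF (d2 + 2) (d1 + 2) S0 := h0 V d1 d2 G
  have hncol : ¬ Colorable S0 := fun hc => hcr.1 (h2 V d1 d2 G hc)
  have hR : S0.R = Finset.univ := rfl
  -- the potential of the whole structure
  have hrho : -((d1 + 2 : ℕ) : ℤ) < S0.rho ((d2 + 2 : ℕ) : ℤ) ((d1 + 2 : ℕ) : ℤ) Finset.univ := by
    rw [h1 V d1 d2 G]
    have e1 : (0 : ℚ) < ((d1 : ℚ) + 2) * ((d2 : ℚ) + 1) := by positivity
    have e2 := mul_lt_mul_of_pos_left hlt e1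
    have e3 : ((d1 : ℚ) + 2) * ((d2 : ℚ) + 1) *
        ((2 - ((d2 : ℚ) + 2) / (((d1 : ℚ) + 2) * ((d2 : ℚ) + 1))) * (Nat.card V : ℚ) +
          1 / ((d2 : ℚ) + 1)) =
        (2 * ((d1 : ℚ) + 2) * ((d2 : ℚ) + 1) - (d2 + 2)) * (Nat.card V : ℚ) + (d1 + 2) := by
      field_simp
    rw [e3] at e2
    have e4 : (((d1 : ℤ) + 2) * ((d2 : ℤ) + 1) * (G.edgeSet.ncard : ℤ) : ℤ) <
        (2 * ((d1 : ℤ) + 2) * ((d2 : ℤ) + 1) - (d2 + 2)) * (Nat.card V : ℤ) + (d1 + 2) := by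
      exact_mod_cast e2
    push_cast
    linarith
  -- there is a bad set
  by_cases hH : Hyp (d2 + 2) (d1 + 2) S0
  · exact hncol (hMain V (Sym2 V) S0 hWF hH)
  unfold Hyp at hH
  push Not at hH
  obtain ⟨S1, -, hS1ne, hS1⟩ := hH
  obtain ⟨S, hSmem, hSmin⟩ := Finset.exists_min_image
    ((Finset.univ : Finset (Finset V)).filter Finset.Nonempty)
    (fun T => S0.rho ((d2 + 2 : ℕ) : ℤ) ((d1 + 2 : ℕ) : ℤ) T)
    ⟨S1, Finset.mem_filter.2 ⟨Finset.mem_univ _, hS1ne⟩⟩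
  have hSne : S.Nonempty := (Finset.mem_filter.1 hSmem).2
  have hmin : ∀ T : Finset V, T.Nonempty →
      S0.rho ((d2 + 2 : ℕ) : ℤ) ((d1 + 2 : ℕ) : ℤ) S ≤
        S0.rho ((d2 + 2 : ℕ) : ℤ) ((d1 + 2 : ℕ) : ℤ) T := fun T hT =>
    hSmin T (Finset.mem_filter.2 ⟨Finset.mem_univ _, hT⟩)
  have hSle := (hmin S1 hS1ne).trans hS1
  have hSu : S ≠ Finset.univ := by
    intro h
    rw [h] at hSle
    exact absurd hrho (not_lt.2 hSle)
  obtain ⟨f, L, hfL⟩ := h3 V d1 d2 G S hcr hSu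
  have hSR : S ⊆ S0.R := Finset.subset_univ S
  set K := S0.cro S (S0.R \ S) with hK
  -- the residual structure
  have hWF' : WF (d2 + 2) (d1 + 2) (S0.rsd S K ∅ f (fun _ => 0) (fun _ => 0)) := by
    constructor
    · intro e he
      have he' : e ∈ S0.ins (S0.R \ S) \ ∅ := he
      rw [sdiff_empty, mem_ins] at he'
      exact ⟨he'.2.1, he'.2.2, (hWF.1 e he'.1).2.2⟩
    · intro v hv
      have hv' : v ∈ S0.R \ S := hv
      have := hWF.2 v (Finset.mem_sdiff.1 hv').1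
      constructor
      · exact le_trans (Nat.add_le_add_right (Nat.sub_le _ _) 1) this.1
      · exact le_trans (Nat.add_le_add_right (Nat.sub_le _ _) 1) this.2
  have hHyp' : Hyp (d2 + 2) (d1 + 2) (S0.rsd S K ∅ f (fun _ => 0) (fun _ => 0)) := by
    intro T hT hTne
    have hT' : T ⊆ S0.R \ S := hT
    have e1 := h4 V (Sym2 V) (d2 + 2) (d1 + 2) S0 S K ∅ f (fun _ => 0) (fun _ => 0) T (by omega)
      (by omega) hWF hSR (Finset.Subset.refl _) hT'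
    have e2 := hmin (S ∪ T) (hSne.mono Finset.subset_union_left)
    have e3 : (0 : ℤ) ≤ ∑ e ∈ S0.cro S T \ K, S0.cost ((d2 + 2 : ℕ) : ℤ) ((d1 + 2 : ℕ) : ℤ) e :=
      Finset.sum_nonneg fun e _ => cost_nonneg (by omega) S0 e
    have e4 : (0 : ℤ) ≤ ∑ e ∈ ∅ ∩ S0.ins T, S0.cost ((d2 + 2 : ℕ) : ℤ) ((d1 + 2 : ℕ) : ℤ) e :=
      Finset.sum_nonneg fun e _ => cost_nonneg (by omega) S0 e
    have e5 : (0 : ℤ) ≤ (((d2 + 2 : ℕ) : ℤ) - ((d1 + 2 : ℕ) : ℤ)) * (S0.n1 K f S T : ℤ) := by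
      apply mul_nonneg
      · push_cast
        have : (d1 : ℤ) + 2 ≤ d2 := by exact_mod_cast hd2
        linarith
      · exact Int.natCast_nonneg _
    have e6 : ∑ v ∈ T, (((d2 + 2 : ℕ) : ℤ) * (((fun _ => 0 : V → ℕ) v : ℕ) : ℤ) +
        ((d1 + 2 : ℕ) : ℤ) * (((fun _ => 0 : V → ℕ) v : ℕ) : ℤ)) = 0 := by simp
    have e7 : (0 : ℤ) < ((d1 + 2 : ℕ) : ℤ) := by positivity
    rw [e6] at e1
    linarith
  obtain ⟨f2, L2, hfL2⟩ := hMain V (Sym2 V) _ hWF' hHyp'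
  apply hncol
  have hres := (isCol_res.1 hfL).2
  have hF : (S0.cro S (S0.R \ S) \ K) ∪ (∅ ∩ S0.ins (S0.R \ S)) = ∅ := by
    rw [hK, sdiff_self]
    simp
  refine h5 V (Sym2 V) (d2 + 2) (d1 + 2) S0 S K ∅ (fun _ => 0) (fun _ => 0) f f2 L L2 (fun _ => ∅)
    hWF hSR (Finset.Subset.refl _) hfL hfL2 ?_ ?_ ?_
  · intro e he
    rw [hF] at he
    simp at he
  · intro v hv
    rw [hF, ld_empty, add_zero]
    exact hres v hv
  · intro v _
    rw [hF, ld_empty]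
    exact Nat.zero_le _

end Pool.Agent.Q115.DF
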