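import Pool.Agent.Q115.DF.J01
import Pool.Agent.Q115.DF.J02
import Pool.Agent.Q115.DF.J03
import Pool.Agent.Q115.DF.J04
import Pool.Agent.Q115.DF.J05
import Pool.Agent.Q115.DF.J06
import Pool.Agent.Q115.DF.J07
import Pool.Agent.Q115.DF.J08
import Pool.Agent.Q115.DF.J09
import Pool.Agent.Q115.DF.J10
import Pool.Agent.Q115.DF.J11
import Pool.Agent.Q115.DF.J12
import Pool.Agent.Q115.DF.J13
import Pool.Agent.Q115.DF.J14
import Pool.Agent.Q115.DF.J15
import Pool.Agent.Q115.DF.J16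
import Pool.Agent.Q115.DF.J17
import Pool.Agent.Q115.DF.J18
import Pool.Agent.Q115.DF.J19
import Pool.Agent.Q115.DF.J20
import Pool.Agent.Q115.DF.J21
import Pool.Agent.Q115.DF.J22
import Pool.Agent.Q115.DF.J23
import Pool.Agent.Q115.DF.J24
import Pool.Agent.Q115.DF.J25
import Pool.Agent.Q115.DF.J26
import Pool.Agent.Q115.DF.J27
import Pool.Agent.Q115.DF.J28
import Pool.Agent.Q115.DF.J29
import Pool.Agent.Q115.DF.J30

/-!
# MP_4006b4_co: assembly
-/

namespace Pool.Agent.Q115.DF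

theorem zRsd : XRsd := tRsd tMod tUnion
theorem zMin : XMin := tMin tMod
theorem zMinR : XMinR := tMinR zRsd
theorem zExt : XExt := tExt zMinR tComb
theorem zSlack : XSlack := tSlack zMinR tComb
theorem zForce : XForce := tForce zMinR tComb
theorem zS1 : XS1 := tS1 zMin zExt
theorem zCon : XCon := tCon zMin zMinR tComb
theorem zS2 : XS2 := tS2 zMin zExt zSlack zS1 zCon
theorem zS3a : XS3a := tS3a zMin zS2 zS1
theorem zS3b : XS3b := tS3b zMin zS2 zS1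
theorem zS4 : XS4 := tS4 zMin zS2 zS1 tTwo tUnion
theorem zS6a : XS6a := tS6a zSlack zS2
theorem zS6c : XS6c := tS6c zMin zS2 zS1 zS6a
theorem zS6e : XS6e := tS6e zForce zS2 zS6c
theorem zS6d : XS6d := tS6d zForce zS2 zRsd zMin zS4 tUnion
theorem zS5b : XS5b := tS5b zS2 tSub zS6c tComb
theorem zS7b : XS7b := tS7b tTwo zCon zS3b
theorem zS7e : XS7e := tS7e zMinR tComb zS2 zS5b zS6c zS6d
theorem zS7d : XS7d := tS7d zS5b zS7b zS7e
theorem zS8a : XS8a := tS8a zS3a zS4 zS6e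
theorem zS8b : XS8b := tS8b zMin zS1 zS6a zS8a
theorem zS8c : XS8c := tS8c zMin tSub zS6a zS1
theorem zS8d : XS8d := tS8d zS8c
theorem zS8e : XS8e := tS8e zMinR tComb zS2 zS8a
theorem zS8 : XS8 := tS8 tUnion zS8a zS8b zS8c zS8d zS8e

/-- all pairs for which the first half of Step 5 is available -/
theorem zMain (a b : ℕ) (hp : Par a b) (h : XS5a a b) : XMain a b := tMain a b hp h zS7d zS8

theorem zG4 : XG4 := tG4 tG0 tG1 tG2 tG3 zRsd tComb tMod

/-- the theorem for graphs, all `d1 ≥ 2` -/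
theorem zG (d1 d2 : ℕ) (h1 : 2 ≤ d1) (h2 : d1 + 2 ≤ d2) : XG d1 d2 := by
  refine zG4 d1 d2 (by omega) h2 (zMain _ _ ⟨by omega, by omega⟩ (tS5a _ _ ⟨by omega, by omega⟩ ?_ zMin zS1))
  have h3 : 4 * (d2 + 2 - 1) ≤ (d1 + 2) * (d2 + 2 - 1) := Nat.mul_le_mul_right _ (by omega)
  obtain ⟨k, rfl⟩ : ∃ k, d1 = k + 2 := ⟨d1 - 2, by omega⟩
  obtain ⟨m, rfl⟩ : ∃ m, d2 = k + 2 + 2 + m := ⟨d2 - (k + 4), by omega⟩
  have h5 : (k + 2 + 2) * (k + 2 + 2 + m + 2 - 1) = (k + 4) * (k + 5 + m) := by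
    congr 1; omega
  rw [h5]
  nlinarith

end Pool.Agent.Q115.DF
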