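import Pool.Agent.Q115.DF.StmP

/-! # MP_4006b4_co: elementary facts on the definitions -/

set_option linter.unusedSectionVars false
set_option linter.unusedVariables false

open Finset

namespace Pool.Agent.Q115.DF

variable {V E : Type} [DecidableEq V] [DecidableEq E]

theorem mem_ins {G : Str V E} {S : Finset V} {e : E} :
    e ∈ G.ins S ↔ e ∈ G.D ∧ G.p e ∈ S ∧ G.q e ∈ S := by
  simp [Str.ins]

theorem mem_cro {G : Str V E} {S T : Finset V} {e : E} :
    e ∈ G.cro S T ↔ e ∈ G.D ∧ ((G.p e ∈ S ∧ G.q e ∈ T) ∨ (G.p e ∈ T ∧ G.q e ∈ S)) := by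
  simp [Str.cro]

theorem cro_comm (G : Str V E) (S T : Finset V) : G.cro S T = G.cro T S := by
  ext e; rw [mem_cro, mem_cro]; tauto

theorem ins_mono {G : Str V E} {S T : Finset V} (h : S ⊆ T) : G.ins S ⊆ G.ins T := by
  intro e he; rw [mem_ins] at he ⊢; exact ⟨he.1, h he.2.1, h he.2.2⟩

theorem ins_sub {G : Str V E} {S : Finset V} : G.ins S ⊆ G.D := by
  intro e he; rw [mem_ins] at he; exact he.1

theorem ins_R {a b : ℕ} {G : Str V E} (h : WF a b G) : G.ins G.R = G.D := by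
  ext e; rw [mem_ins]; exact ⟨fun h => h.1, fun he => ⟨he, (h.1 e he).1, (h.1 e he).2.1⟩⟩

theorem ins_empty (G : Str V E) : G.ins ∅ = ∅ := by
  ext e; rw [mem_ins]; simp

theorem ins_single {a b : ℕ} {G : Str V E} (h : WF a b G) (v : V) : G.ins {v} = ∅ := by
  ext e; rw [mem_ins]
  constructor
  · rintro ⟨he, h1, h2⟩
    rw [mem_singleton] at h1 h2
    exact absurd (h1.trans h2.symm) (h.1 e he).2.2
  · intro he; simp at he

theorem rho_empty (a b : ℤ) (G : Str V E) : G.rho a b ∅ = 0 := by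
  simp [Str.rho, ins_empty]

theorem rho_single {a b : ℕ} {G : Str V E} (h : WF a b G) (s t : ℤ) (v : V) :
    G.rho s t {v} = G.wt s t v := by
  simp [Str.rho, ins_single h]

theorem cost_hard {a b : ℤ} {G : Str V E} {e : E} (h : G.hd e = true) : G.cost a b e = b * (a - 1) := by
  simp [Str.cost, h]

theorem cost_soft {a b : ℤ} {G : Str V E} {e : E} (h : G.hd e = false) : G.cost a b e = a := by
  simp [Str.cost, h]

/-- every edge costs at least `a` -/
theorem le_cost {a b : ℕ} (h : Par a b) (G : Str V E) (e : E) : (a : ℤ) ≤ G.cost a b e := by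
  obtain ⟨h1, h2⟩ := h
  have h1' : (3 : ℤ) ≤ b := by exact_mod_cast h1
  have h2' : (b : ℤ) + 2 ≤ a := by exact_mod_cast h2
  unfold Str.cost
  split
  · nlinarith
  · exact le_refl _

theorem cost_nonneg {a b : ℕ} (h : 1 ≤ a) (G : Str V E) (e : E) : 0 ≤ G.cost (a : ℤ) b e := by
  have h1' : (1 : ℤ) ≤ a := by exact_mod_cast h
  have h2' : (0 : ℤ) ≤ b := by positivity
  unfold Str.cost
  split
  · nlinarith
  · linarith

theorem oth_p {G : Str V E} {e : E} {v : V} (h : G.p e = v) : G.oth e v = G.q e := by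
  simp [Str.oth, h]

theorem oth_q {a b : ℕ} {G : Str V E} (hG : WF a b G) {e : E} (he : e ∈ G.D) {v : V} (h : G.q e = v) :
    G.oth e v = G.p e := by
  have h1 : G.p e ≠ v := by rw [← h]; exact (hG.1 e he).2.2
  simp [Str.oth, h1]

theorem mem_at {G : Str V E} {e : E} {v : V} : e ∈ G.at v ↔ e ∈ G.D ∧ (G.p e = v ∨ G.q e = v) := by
  simp [Str.at]

theorem mem_hat {G : Str V E} {e : E} {v : V} :
    e ∈ G.hat v ↔ e ∈ G.D ∧ (G.p e = v ∨ G.q e = v) ∧ G.hd e = true := by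
  simp [Str.hat, mem_at, and_assoc]

theorem mem_sat {G : Str V E} {e : E} {v : V} :
    e ∈ G.sat v ↔ e ∈ G.D ∧ (G.p e = v ∨ G.q e = v) ∧ G.hd e = false := by
  simp [Str.sat, mem_at, and_assoc]

theorem oth_mem {a b : ℕ} {G : Str V E} (hG : WF a b G) {e : E} {v : V} (he : e ∈ G.at v) :
    G.oth e v ∈ G.R ∧ G.oth e v ≠ v := by
  rw [mem_at] at he
  obtain ⟨h1, h2 | h2⟩ := he
  · rw [oth_p h2, ← h2]
    exact ⟨(hG.1 e h1).2.1, fun h => (hG.1 e h1).2.2 h.symm⟩
  · rw [oth_q hG h1 h2, ← h2]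
    exact ⟨(hG.1 e h1).1, (hG.1 e h1).2.2⟩

/-- `e` joins `v` and `oth e v` -/
theorem at_ends {a b : ℕ} {G : Str V E} (hG : WF a b G) {e : E} {v : V} (he : e ∈ G.at v) :
    (G.p e = v ∧ G.q e = G.oth e v) ∨ (G.p e = G.oth e v ∧ G.q e = v) := by
  rw [mem_at] at he
  obtain ⟨h1, h2 | h2⟩ := he
  · left; exact ⟨h2, (oth_p h2).symm⟩
  · right; exact ⟨(oth_q hG h1 h2).symm, h2⟩

theorem card_at (G : Str V E) (v : V) : (G.at v).card = (G.hat v).card + (G.sat v).card := by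
  have h : G.sat v = (G.at v).filter (fun e => ¬ G.hd e = true) := by
    ext e; rw [mem_sat, mem_filter, mem_at]
    constructor
    · rintro ⟨h1, h2, h3⟩; exact ⟨⟨h1, h2⟩, by simp [h3]⟩
    · rintro ⟨⟨h1, h2⟩, h3⟩; exact ⟨h1, h2, by simpa using h3⟩
  rw [h, Str.hat]
  exact (Finset.card_filter_add_card_filter_not (s := G.at v) (fun e => G.hd e = true)).symm

theorem HE.symm {G : Str V E} {e : E} {x y : V} (h : HE G e x y) : HE G e y x :=
  ⟨h.1, h.2.1, h.2.2.symm⟩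

theorem SE.symm {G : Str V E} {e : E} {x y : V} (h : SE G e x y) : SE G e y x :=
  ⟨h.1, h.2.1, h.2.2.symm⟩

theorem HE.mem {a b : ℕ} {G : Str V E} (hG : WF a b G) {e : E} {x y : V} (h : HE G e x y) :
    x ∈ G.R ∧ y ∈ G.R ∧ x ≠ y := by
  obtain ⟨h1, _, ⟨h3, h4⟩ | ⟨h3, h4⟩⟩ := h
  · rw [← h3, ← h4]; exact hG.1 e h1
  · rw [← h3, ← h4]; exact ⟨(hG.1 e h1).2.1, (hG.1 e h1).1, fun h => (hG.1 e h1).2.2 h.symm⟩

theorem SE.mem {a b : ℕ} {G : Str V E} (hG : WF a b G) {e : E} {x y : V} (h : SE G e x y) :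
    x ∈ G.R ∧ y ∈ G.R ∧ x ≠ y := by
  obtain ⟨h1, _, ⟨h3, h4⟩ | ⟨h3, h4⟩⟩ := h
  · rw [← h3, ← h4]; exact hG.1 e h1
  · rw [← h3, ← h4]; exact ⟨(hG.1 e h1).2.1, (hG.1 e h1).1, fun h => (hG.1 e h1).2.2 h.symm⟩

theorem ld_mono (L : E → Finset V) {X Y : Finset E} (h : X ⊆ Y) (v : V) : ld L X v ≤ ld L Y v :=
  card_le_card (filter_subset_filter _ h)

theorem ld_union (L : E → Finset V) {X Y : Finset E} (h : Disjoint X Y) (v : V) :
    ld L (X ∪ Y) v = ld L X v + ld L Y v := by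
  unfold ld
  rw [filter_union, card_union_of_disjoint (disjoint_filter_filter h)]

theorem ld_congr {L L' : E → Finset V} {X : Finset E} {v : V} (h : ∀ e ∈ X, (v ∈ L e ↔ v ∈ L' e)) :
    ld L X v = ld L' X v := by
  unfold ld; congr 1; exact filter_congr h

theorem ld_empty (L : E → Finset V) (v : V) : ld L ∅ v = 0 := by simp [ld]

/-- colouring of a modified structure, unfolded -/
theorem isCol_mod {G : Str V E} {S : Finset V} {Z : Finset E} {x y : V → ℕ} {f : V → Bool} {L : E → Finset V} :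
    IsCol (G.mod S Z x y) f L ↔ (∀ e ∈ G.ins S \ Z, Cov G f e (L e)) ∧
      ∀ v ∈ S, ld L (G.ins S \ Z) v + 1 ≤ if f v = true then G.A v - x v else G.B v - y v := by
  rfl

theorem isCol_res {G : Str V E} {S : Finset V} {f : V → Bool} {L : E → Finset V} :
    IsCol (G.res S) f L ↔ (∀ e ∈ G.ins S, Cov G f e (L e)) ∧ ∀ v ∈ S, ld L (G.ins S) v + 1 ≤ G.cap f v := by
  unfold Str.res
  rw [isCol_mod, sdiff_empty]
  simp [Str.cap]

theorem isCol_rsd {G : Str V E} {S : Finset V} {K Z : Finset E} {g : V → Bool} {x y : V → ℕ} {f : V → Bool}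
    {L : E → Finset V} :
    IsCol (G.rsd S K Z g x y) f L ↔ (∀ e ∈ G.ins (G.R \ S) \ Z, Cov G f e (L e)) ∧
      ∀ v ∈ G.R \ S, ld L (G.ins (G.R \ S) \ Z) v + 1 ≤
        if f v = true then G.A v - (G.tA K g v + x v) else G.B v - (G.tB K g v + y v) := by
  rfl

/-- a colouring of a modified structure `mod S ∅ x y` is a colouring of `res S` with slack -/
theorem res_of_mod {G : Str V E} {S : Finset V} {x y : V → ℕ} {f : V → Bool} {L : E → Finset V}
    (h : IsCol (G.mod S ∅ x y) f L) : IsCol (G.res S) f L ∧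
      ∀ v ∈ S, ld L (G.ins S) v + 1 + (if f v = true then x v else y v) ≤ G.cap f v := by
  rw [isCol_mod, sdiff_empty] at h
  have h2 : ∀ v ∈ S, ld L (G.ins S) v + 1 + (if f v = true then x v else y v) ≤ G.cap f v := by
    intro v hv
    have := h.2 v hv
    unfold Str.cap
    split at this
    · next hf => simp only [hf, if_true]; omega
    · next hf => simp only [hf]; simp only [Bool.false_eq_true, if_false] at *; omega
  refine ⟨?_, h2⟩
  rw [isCol_res]
  exact ⟨h.1, fun v hv => le_trans (Nat.le_add_right _ _) (h2 v hv)⟩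

/-- a colouring of the whole structure (or of the structure without some edges) restricts to subsets -/
theorem res_of_sub {G : Str V E} {S : Finset V} {X : Finset E} {f : V → Bool} {L : E → Finset V}
    (hS : S ⊆ G.R) (hX : G.ins S ⊆ X) (h1 : ∀ e ∈ X, Cov G f e (L e))
    (h2 : ∀ v ∈ G.R, ld L X v + 1 ≤ G.cap f v) : IsCol (G.res S) f L := by
  rw [isCol_res]
  exact ⟨fun e he => h1 e (hX he), fun v hv => le_trans (Nat.add_le_add_right (ld_mono L hX v) 1) (h2 v (hS hv))⟩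

theorem cov_of_ne {G : Str V E} {f : V → Bool} {e : E} (h : G.hd e = true) (h2 : f (G.p e) ≠ f (G.q e))
    (L : Finset V) : Cov G f e L :=
  ⟨fun _ h3 => absurd h3 h2, fun h3 => absurd (h.symm.trans h3) (by simp)⟩

theorem cov_of_eq {G : Str V E} {f : V → Bool} {e : E} (h : G.hd e = false) (h2 : f (G.p e) = f (G.q e))
    (L : Finset V) : Cov G f e L :=
  ⟨fun h3 => absurd (h.symm.trans h3) (by simp), fun _ h3 => absurd h2 h3⟩

/-- parameters as integers -/
theorem par_int {a b : ℕ} (h : Par a b) : (3 : ℤ) ≤ b ∧ (b : ℤ) + 2 ≤ a := by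
  obtain ⟨h1, h2⟩ := h
  exact ⟨by exact_mod_cast h1, by exact_mod_cast h2⟩

theorem low_lt {a b : ℕ} {G : Str V E} (hS2 : XS2) (hp : Par a b) (h : MinCE a b G) {S : Finset V}
    (h1 : S ⊆ G.R) (h2 : S.Nonempty) (h3 : S ≠ G.R) : (a : ℤ) - b < G.rho a b S := by
  have hR : G.R.Nonempty := h2.mono h1
  have := hS2 V E a b G hp h S h1 h2 h3
  have := h.2.1 G.R (Subset.refl _) hR
  linarith

end Pool.Agent.Q115.DF
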