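import Pool.Agent.Q115.DF.Bas

/-! # MP_4006b4_co, job DF-1: potential of a disjoint union, submodularity as an equality (helper91) -/

set_option linter.unusedSectionVars false
set_option linter.unusedVariables false

open Finset

namespace Pool.Agent.Q115.DF

/-- the cost of the edges inside a set, as a sum over all edges -/
theorem sum_ins_ite {V E : Type} [DecidableEq V] [DecidableEq E] (a b : ℤ) (G : Str V E) (S : Finset V) :
    ∑ e ∈ G.ins S, G.cost a b e = ∑ e ∈ G.D, if G.p e ∈ S ∧ G.q e ∈ S then G.cost a b e else 0 := by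
  unfold Str.ins
  rw [Finset.sum_filter]

theorem sum_cro_ite {V E : Type} [DecidableEq V] [DecidableEq E] (a b : ℤ) (G : Str V E) (S T : Finset V) :
    ∑ e ∈ G.cro S T, G.cost a b e =
      ∑ e ∈ G.D, if (G.p e ∈ S ∧ G.q e ∈ T) ∨ (G.p e ∈ T ∧ G.q e ∈ S) then G.cost a b e else 0 := by
  unfold Str.cro
  rw [Finset.sum_filter]

theorem tSub : XSub := by
  intro V E _ _ a b G S T
  have h1 : (∑ v ∈ S ∪ T, G.wt a b v) + ∑ v ∈ S ∩ T, G.wt a b v =
      (∑ v ∈ S, G.wt a b v) + ∑ v ∈ T, G.wt a b v := Finset.sum_union_inter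
  have h2 : (∑ e ∈ G.ins (S ∪ T), G.cost a b e) + ∑ e ∈ G.ins (S ∩ T), G.cost a b e =
      (∑ e ∈ G.ins S, G.cost a b e) + (∑ e ∈ G.ins T, G.cost a b e) +
        ∑ e ∈ G.cro (S \ T) (T \ S), G.cost a b e := by
    rw [sum_ins_ite, sum_ins_ite, sum_ins_ite, sum_ins_ite, sum_cro_ite, ← Finset.sum_add_distrib,
      ← Finset.sum_add_distrib, ← Finset.sum_add_distrib]
    apply Finset.sum_congr rfl
    intro e _
    simp only [mem_union, mem_inter, mem_sdiff]
    by_cases hp1 : G.p e ∈ S <;> by_cases hp2 : G.p e ∈ T <;> by_cases hq1 : G.q e ∈ S <;>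
      by_cases hq2 : G.q e ∈ T <;> simp [hp1, hp2, hq1, hq2]
  unfold Str.rho
  linarith

theorem tUnion : XUnion := by
  intro V E _ _ a b G S T hST
  have h := tSub V E a b G S T
  have h1 : S ∩ T = ∅ := Finset.disjoint_iff_inter_eq_empty.mp hST
  have h2 : S \ T = S := Finset.sdiff_eq_self_of_disjoint hST
  have h3 : T \ S = T := Finset.sdiff_eq_self_of_disjoint hST.symm
  rw [h1, h2, h3, rho_empty] at h
  linarith

end Pool.Agent.Q115.DF
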