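import Pool.Agent.Q115.DF.Bas

/-! # MP_4006b4_co: job DF-16, at most one hard edge from a low set to an outside vertex -/

open Finset

namespace Pool.Agent.Q115.DF

variable {V E : Type} [DecidableEq V] [DecidableEq E]

/-- the hard edge `e` from `x` (coloured `true`) takes all of the capacity `A` of `y` -/
theorem tA_full16 {a b : ℕ} {G : Str V E} (hG : WF a b G) {K : Finset E} {f : V → Bool} {e : E} {x y : V}
    (he : e ∈ K) (h : HE G e x y) (hf : f x = true) : G.tA K f y = G.A y := by
  unfold Str.tA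
  rw [if_neg]
  intro h0
  rw [card_eq_zero] at h0
  have : e ∈ K.filter (fun e => (G.p e = y ∨ G.q e = y) ∧ G.hd e = true ∧ f (G.oth e y) = true) := by
    rw [mem_filter]
    refine ⟨he, ?_, h.2.1, ?_⟩
    · rcases h.2.2 with ⟨h1, h2⟩ | ⟨h1, h2⟩
      · right; exact h2
      · left; exact h1
    · rcases h.2.2 with ⟨h1, h2⟩ | ⟨h1, h2⟩
      · rw [oth_q hG h.1 h2, h1]; exact hf
      · rw [oth_p h1, h2]; exact hf
  rw [h0] at this
  simp at this

theorem tB_full16 {a b : ℕ} {G : Str V E} (hG : WF a b G) {K : Finset E} {f : V → Bool} {e : E} {x y : V}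
    (he : e ∈ K) (h : HE G e x y) (hf : f x = false) : G.tB K f y = G.B y := by
  unfold Str.tB
  rw [if_neg]
  intro h0
  rw [card_eq_zero] at h0
  have : e ∈ K.filter (fun e => (G.p e = y ∨ G.q e = y) ∧ G.hd e = true ∧ f (G.oth e y) = false) := by
    rw [mem_filter]
    refine ⟨he, ?_, h.2.1, ?_⟩
    · rcases h.2.2 with ⟨h1, h2⟩ | ⟨h1, h2⟩
      · right; exact h2
      · left; exact h1
    · rcases h.2.2 with ⟨h1, h2⟩ | ⟨h1, h2⟩
      · rw [oth_q hG h.1 h2, h1]; exact hf
      · rw [oth_p h1, h2]; exact hf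
  rw [h0] at this
  simp at this

theorem mem_cro16 {G : Str V E} {S T : Finset V} {e : E} {x y : V}
    (h : HE G e x y) (hx : x ∈ S) (hy : y ∈ T) : e ∈ G.cro S T := by
  rw [mem_cro]
  refine ⟨h.1, ?_⟩
  rcases h.2.2 with ⟨h1, h2⟩ | ⟨h1, h2⟩
  · left; rw [h1, h2]; exact ⟨hx, hy⟩
  · right; rw [h1, h2]; exact ⟨hy, hx⟩

theorem tS6d (h1 : XForce) (h2 : XS2) (h3 : XRsd) (h4 : XMin) (h5 : XS4) (h6 : XUnion) : XS6d := by
  intro V E _ _ a b G hp hM S e1 e2 x1 x2 y hS hE1 hE2 hx1 hx2 hy
  by_contra hne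
  have hG := hM.1
  obtain ⟨hx1R, hyR, -⟩ := hE1.mem hG
  obtain ⟨hb, hab⟩ := par_int hp
  have hb1 : 1 ≤ b := by obtain ⟨h5, h6⟩ := hp; omega
  have hba : b ≤ a := by obtain ⟨h5, h6⟩ := hp; omega
  have hSr := hS.2.2.2
  -- a colouring of S
  have hcol : Colorable (G.mod S ∅ (fun _ => 0) (fun _ => 0)) := by
    refine h4 V E a b G S ∅ (fun _ => 0) (fun _ => 0) hb1 hba hM hS.1 (Or.inl hS.2.2.1) ?_
    intro T hT hTn
    have := hM.2.1 T (hT.trans hS.1) hTn
    simpa using this
  obtain ⟨f, L, hc⟩ := hcol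
  have hyRS : y ∈ G.R \ S := mem_sdiff.2 ⟨hyR, hy⟩
  obtain ⟨hAy, hBy⟩ := hG.2 y hyR
  have hAz : ((G.A y : ℕ) : ℤ) + 1 ≤ b := by exact_mod_cast hAy
  have hBz : ((G.B y : ℕ) : ℤ) + 1 ≤ a := by exact_mod_cast hBy
  have hAn : (0 : ℤ) ≤ G.A y := by positivity
  have hBn : (0 : ℤ) ≤ G.B y := by positivity
  by_cases hk : f x1 = f x2
  · obtain ⟨T, hTR, hTn, hT⟩ := h1 V E a b G S f L {e1, e2} y (f x1) hb1 hba hM hS.1 hS.2.1 hc hyRS (by
      intro e he
      rw [mem_insert, mem_singleton] at he
      rcases he with rfl | rfl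
      · exact ⟨x1, hx1, hE1, rfl⟩
      · exact ⟨x2, hx2, hE2, hk.symm⟩)
    have hUR : S ∪ T ⊆ G.R := union_subset hS.1 (hTR.trans sdiff_subset)
    have hUn : (S ∪ T).Nonempty := hS.2.1.mono subset_union_left
    by_cases hyT : y ∈ T
    · rw [if_pos hyT, card_pair hne] at hT
      have hr := hM.2.1 _ hUR hUn
      have hgain : (a : ℤ) ≤ ((2 : ℕ) : ℤ) * (b * ((a : ℤ) - 1)) -
          (if f x1 = true then (a : ℤ) * (G.A y : ℤ) else (b : ℤ) * (G.B y : ℤ)) := by
        push_cast
        split_ifs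
        · nlinarith
        · nlinarith
      linarith
    · rw [if_neg hyT] at hT
      have hr := low_lt h2 hp hM hUR hUn (by
        intro h; rw [← h, mem_union] at hyR
        rcases hyR with h | h
        · exact hy h
        · exact hyT h)
      linarith
  · -- different colours
    have hK : ({e1, e2} : Finset E) ⊆ G.cro S (G.R \ S) := by
      intro e he
      rw [mem_insert, mem_singleton] at he
      rcases he with rfl | rfl
      · exact mem_cro16 hE1 hx1 hyRS
      · exact mem_cro16 hE2 hx2 hyRS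
    have hKy : ({e1, e2} : Finset E) ⊆ G.cro S {y} := by
      intro e he
      rw [mem_insert, mem_singleton] at he
      rcases he with rfl | rfl
      · exact mem_cro16 hE1 hx1 (mem_singleton_self y)
      · exact mem_cro16 hE2 hx2 (mem_singleton_self y)
    have hr := h3 V E a b G S {e1, e2} ∅ f (fun _ => 0) (fun _ => 0) {y} hb1 hba hG hS.1 hK
      (by rw [singleton_subset_iff]; exact hyRS)
    have htA : G.tA {e1, e2} f y = G.A y := by
      rcases Bool.eq_false_or_eq_true (f x1) with h7 | h7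
      · exact tA_full16 hG (by simp) hE1 h7
      · rcases Bool.eq_false_or_eq_true (f x2) with h8 | h8
        · exact tA_full16 hG (by simp) hE2 h8
        · exact absurd (h7.trans h8.symm) hk
    have htB : G.tB {e1, e2} f y = G.B y := by
      rcases Bool.eq_false_or_eq_true (f x1) with h7 | h7
      · rcases Bool.eq_false_or_eq_true (f x2) with h8 | h8
        · exact absurd (h7.trans h8.symm) hk
        · exact tB_full16 hG (by simp) hE2 h8
      · exact tB_full16 hG (by simp) hE1 h7
    have hrs : (G.rsd S {e1, e2} ∅ f (fun _ => 0) (fun _ => 0)).rho a b {y} ≤ -(b : ℤ) := by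
      have hemp : (G.rsd S {e1, e2} ∅ f (fun _ => 0) (fun _ => 0)).ins {y} = ∅ := by
        ext e
        rw [mem_ins]
        constructor
        · rintro ⟨h7, h8, h9⟩
          exfalso
          have h10 : e ∈ G.D := by
            have : e ∈ G.ins (G.R \ S) \ ∅ := h7
            rw [sdiff_empty] at this
            exact ins_sub this
          have h8' : G.p e = y := mem_singleton.1 h8
          have h9' : G.q e = y := mem_singleton.1 h9
          exact (hG.1 e h10).2.2 (h8'.trans h9'.symm)
        · intro h; simp at h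
      unfold Str.rho
      rw [hemp, sum_singleton, sum_empty]
      have hwt : (G.rsd S {e1, e2} ∅ f (fun _ => 0) (fun _ => 0)).wt (a : ℤ) b y =
          (a : ℤ) * ((G.A y - (G.tA {e1, e2} f y + 0) : ℕ) : ℤ) +
          (b : ℤ) * ((G.B y - (G.tB {e1, e2} f y + 0) : ℕ) : ℤ) - b := rfl
      rw [hwt, htA, htB]
      simp
    have hn1 : (1 : ℤ) ≤ (G.n1 {e1, e2} f S {y} : ℤ) := by
      have : 0 < G.n1 {e1, e2} f S {y} := by
        unfold Str.n1
        rw [card_pos]
        have hwit : ∀ e x, e ∈ ({e1, e2} : Finset E) → HE G e x y → x ∈ S → f x = true →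
            (({e1, e2} : Finset E).filter (fun e => (G.p e ∈ S ∧ G.q e ∈ ({y} : Finset V) ∧ f (G.p e) = true) ∨
              (G.p e ∈ ({y} : Finset V) ∧ G.q e ∈ S ∧ f (G.q e) = true))).Nonempty := by
          intro e x he hE hx hfx
          refine ⟨e, mem_filter.2 ⟨he, ?_⟩⟩
          rcases hE.2.2 with ⟨h7, h8⟩ | ⟨h7, h8⟩
          · left; rw [h7, h8]; exact ⟨hx, mem_singleton_self y, hfx⟩
          · right; rw [h7, h8]; exact ⟨mem_singleton_self y, hx, hfx⟩
        rcases Bool.eq_false_or_eq_true (f x1) with h7 | h7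
        · exact hwit e1 x1 (by simp) hE1 hx1 h7
        · rcases Bool.eq_false_or_eq_true (f x2) with h8 | h8
          · exact hwit e2 x2 (by simp) hE2 hx2 h8
          · exact absurd (h7.trans h8.symm) hk
      exact_mod_cast this
    have hs0 : 0 ≤ ∑ e ∈ G.cro S {y} \ {e1, e2}, G.cost (a : ℤ) b e :=
      sum_nonneg (fun e _ => cost_nonneg (by omega) G e)
    simp only [empty_inter, sum_empty, Nat.cast_zero, mul_zero, add_zero, sum_const_zero, sub_zero] at hr
    have hUR : S ∪ {y} ⊆ G.R := union_subset hS.1 (by rw [singleton_subset_iff]; exact hyR)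
    have hUn : (S ∪ {y}).Nonempty := hS.2.1.mono subset_union_left
    have hcn : (a : ℤ) - b ≤ ((a : ℤ) - b) * (G.n1 {e1, e2} f S {y} : ℤ) := by nlinarith
    by_cases hR : S ∪ {y} = G.R
    · have hRr := hM.2.1 _ hUR hUn
      have hemp : G.cro S {y} \ {e1, e2} = ∅ := by
        by_contra h7
        obtain ⟨e, he⟩ := nonempty_iff_ne_empty.2 h7
        have h8 := single_le_sum (f := fun e => G.cost (a : ℤ) b e) (fun i _ => cost_nonneg (by omega) G i) he
        have h9 := le_cost hp G e
        linarith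
      have hcro : G.cro S {y} = {e1, e2} := by
        apply Subset.antisymm
        · intro e he
          by_contra h7
          have : e ∈ G.cro S {y} \ {e1, e2} := mem_sdiff.2 ⟨he, h7⟩
          rw [hemp] at this; simp at this
        · exact hKy
      have hat : G.at y = G.cro S {y} := by
        ext e
        rw [mem_cro]
        constructor
        · intro he
          have h7 := (oth_mem hG he)
          have h8 : G.oth e y ∈ S := by
            have h9 := h7.1
            rw [← hR, mem_union, mem_singleton] at h9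
            rcases h9 with h9 | h9
            · exact h9
            · exact absurd h9 h7.2
          refine ⟨(mem_at.1 he).1, ?_⟩
          rcases at_ends hG he with ⟨h9, h10⟩ | ⟨h9, h10⟩
          · right; rw [h9, h10]; exact ⟨mem_singleton_self y, h8⟩
          · left; rw [h9, h10]; exact ⟨h8, mem_singleton_self y⟩
        · rintro ⟨h7, ⟨h8, h9⟩ | ⟨h8, h9⟩⟩
          · exact mem_at.2 ⟨h7, Or.inr (mem_singleton.1 h9)⟩
          · exact mem_at.2 ⟨h7, Or.inl (mem_singleton.1 h8)⟩
      have hB2 := h5 V E a b G hp hM y hyR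
      rw [hat, hcro, card_pair hne] at hB2
      have hB2z : ((G.B y : ℕ) : ℤ) ≤ 2 := by exact_mod_cast hB2
      have hU := h6 V E (a : ℤ) (b : ℤ) G S {y} (by rw [disjoint_singleton_right]; exact hy)
      rw [hcro, sum_pair hne, cost_hard hE1.2.1, cost_hard hE2.2.1, rho_single hG] at hU
      unfold Str.wt at hU
      have hh1 : (a : ℤ) * G.A y ≤ a * (b - 1) := by nlinarith
      have hh2 : (b : ℤ) * G.B y ≤ b * 2 := by nlinarith
      nlinarith
    · have hr2 := low_lt h2 hp hM hUR hUn hR
      linarith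

end Pool.Agent.Q115.DF
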