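import Mathlib

/-!
# Sparse critical graphs for two-part defective colouring (MP_4006b4_co): definitions and statements

`a = k+2`, `b = j+2`, `c = a-b`, `H = b(a-1)`. A structure has hard edges and soft edges and capacities.
Colour 1 is `true`, colour 2 is `false`.
-/

open Finset

namespace Pool.Agent.Q115.DF

/-- A structure: vertex set `R`, edge set `D`, ends `p`, `q` of the edges, `hd e = true` for hard edges,
capacities `A` (colour 1 = `true`) and `B` (colour 2 = `false`). -/
structure Str (V E : Type) where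
  R : Finset V
  D : Finset E
  p : E → V
  q : E → V
  hd : E → Bool
  A : V → ℕ
  B : V → ℕ

variable {V E : Type} [DecidableEq V] [DecidableEq E]

/-- the edges with both ends in `S` -/
def Str.ins (G : Str V E) (S : Finset V) : Finset E :=
  G.D.filter (fun e => G.p e ∈ S ∧ G.q e ∈ S)

/-- the edges with one end in `S` and the other end in `T` (used for disjoint `S`, `T`) -/
def Str.cro (G : Str V E) (S T : Finset V) : Finset E :=
  G.D.filter (fun e => (G.p e ∈ S ∧ G.q e ∈ T) ∨ (G.p e ∈ T ∧ G.q e ∈ S))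

/-- cost of an edge -/
def Str.cost (a b : ℤ) (G : Str V E) (e : E) : ℤ := if G.hd e = true then b * (a - 1) else a

/-- weight of a vertex -/
def Str.wt (a b : ℤ) (G : Str V E) (v : V) : ℤ := a * (G.A v : ℤ) + b * (G.B v : ℤ) - b

/-- potential -/
def Str.rho (a b : ℤ) (G : Str V E) (S : Finset V) : ℤ :=
  (∑ v ∈ S, G.wt a b v) - ∑ e ∈ G.ins S, G.cost a b e

/-- the edge `e` is taken care of by the set `L` of vertices which get load from `e` -/
def Cov (G : Str V E) (f : V → Bool) (e : E) (L : Finset V) : Prop :=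
  (G.hd e = true → f (G.p e) = f (G.q e) → G.p e ∈ L ∧ G.q e ∈ L) ∧
  (G.hd e = false → f (G.p e) ≠ f (G.q e) → G.p e ∈ L ∨ G.q e ∈ L)

/-- capacity of `v` for the colouring `f` -/
def Str.cap (G : Str V E) (f : V → Bool) (v : V) : ℕ := if f v = true then G.A v else G.B v

/-- number of edges of the set `X` which give load to `v` -/
def ld (L : E → Finset V) (X : Finset E) (v : V) : ℕ := (X.filter (fun e => v ∈ L e)).card

/-- colouring -/
def IsCol (G : Str V E) (f : V → Bool) (L : E → Finset V) : Prop :=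
  (∀ e ∈ G.D, Cov G f e (L e)) ∧ ∀ v ∈ G.R, ld L G.D v + 1 ≤ G.cap f v

def Colorable (G : Str V E) : Prop := ∃ f L, IsCol G f L

/-- well formed, capacities bounded by `b-1` and `a-1` -/
def WF (a b : ℕ) (G : Str V E) : Prop :=
  (∀ e ∈ G.D, G.p e ∈ G.R ∧ G.q e ∈ G.R ∧ G.p e ≠ G.q e) ∧
  ∀ v ∈ G.R, G.A v + 1 ≤ b ∧ G.B v + 1 ≤ a

/-- all nonempty subsets have potential bigger than `-b` -/
def Hyp (a b : ℕ) (G : Str V E) : Prop :=
  ∀ S ⊆ G.R, S.Nonempty → -(b : ℤ) < G.rho a b S

def Str.meas (G : Str V E) : ℕ := G.R.card + G.D.card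

/-- minimal counterexample -/
def MinCE (a b : ℕ) (G : Str V E) : Prop :=
  WF a b G ∧ Hyp a b G ∧ ¬ Colorable G ∧
  ∀ G' : Str V E, G'.meas < G.meas → WF a b G' → Hyp a b G' → Colorable G'

/-- the general modification: keep the vertices of `S` and the edges inside `S` which are not in `Z`,
lower the capacities by `x` and `y` (truncated subtraction). -/
def Str.mod (G : Str V E) (S : Finset V) (Z : Finset E) (x y : V → ℕ) : Str V E where
  R := S
  D := (G.ins S) \ Z
  p := G.p
  q := G.q
  hd := G.hd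
  A := fun v => G.A v - x v
  B := fun v => G.B v - y v

/-- restriction to `S` -/
def Str.res (G : Str V E) (S : Finset V) : Str V E := G.mod S ∅ (fun _ => 0) (fun _ => 0)

/-- the end of `e` which is not `v` (for `v` an end of `e`) -/
def Str.oth (G : Str V E) (e : E) (v : V) : V := if G.p e = v then G.q e else G.p e

/-- the edges at `v` -/
def Str.at (G : Str V E) (v : V) : Finset E := G.D.filter (fun e => G.p e = v ∨ G.q e = v)

/-- the hard edges at `v`, the soft edges at `v` -/
def Str.hat (G : Str V E) (v : V) : Finset E := (G.at v).filter (fun e => G.hd e = true)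
def Str.sat (G : Str V E) (v : V) : Finset E := (G.at v).filter (fun e => G.hd e = false)

/-- what the crossing edges of the set `K` (each with exactly one end in `S`, `S` coloured by `f`) take from
the capacity `A` (colour 1, `true`) of the vertex `v` outside `S`. -/
def Str.tA (G : Str V E) (K : Finset E) (f : V → Bool) (v : V) : ℕ :=
  if ((K.filter (fun e => (G.p e = v ∨ G.q e = v) ∧ G.hd e = true ∧ f (G.oth e v) = true)).card = 0)
  then (K.filter (fun e => (G.p e = v ∨ G.q e = v) ∧ G.hd e = false ∧ f (G.oth e v) = false)).card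
  else G.A v

/-- the same for the capacity `B` (colour 2, `false`) -/
def Str.tB (G : Str V E) (K : Finset E) (f : V → Bool) (v : V) : ℕ :=
  if ((K.filter (fun e => (G.p e = v ∨ G.q e = v) ∧ G.hd e = true ∧ f (G.oth e v) = false)).card = 0)
  then (K.filter (fun e => (G.p e = v ∨ G.q e = v) ∧ G.hd e = false ∧ f (G.oth e v) = true)).card
  else G.B v

/-- The residual structure: `S` is coloured by `f`, the crossing edges of `K` are handled in the standard way,
the edges of `Z` inside the complement are deleted, capacities are lowered by `x`, `y` in addition. -/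
def Str.rsd (G : Str V E) (S : Finset V) (K Z : Finset E) (f : V → Bool) (x y : V → ℕ) : Str V E :=
  G.mod (G.R \ S) Z (fun v => G.tA K f v + x v) (fun v => G.tB K f v + y v)

/-- number of edges of `K` between `T` and vertices of `S` of colour 1 (`true`) -/
def Str.n1 (G : Str V E) (K : Finset E) (f : V → Bool) (S T : Finset V) : ℕ :=
  (K.filter (fun e => (G.p e ∈ S ∧ G.q e ∈ T ∧ f (G.p e) = true) ∨
    (G.p e ∈ T ∧ G.q e ∈ S ∧ f (G.q e) = true))).card

/-- low sets -/
def Low (a b : ℕ) (G : Str V E) (S : Finset V) : Prop :=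
  S ⊆ G.R ∧ S.Nonempty ∧ S ≠ G.R ∧ G.rho a b S ≤ a

/-- `u` is an end of an edge which leaves `S` -/
def Bd (G : Str V E) (S : Finset V) (u : V) : Prop :=
  u ∈ S ∧ ∃ e ∈ G.D, (G.p e = u ∧ G.q e ∉ S) ∨ (G.q e = u ∧ G.p e ∉ S)

/-- `e` is a hard edge with ends `x` and `y` -/
def HE (G : Str V E) (e : E) (x y : V) : Prop :=
  e ∈ G.D ∧ G.hd e = true ∧ ((G.p e = x ∧ G.q e = y) ∨ (G.p e = y ∧ G.q e = x))

/-- `e` is a soft edge with ends `x` and `y` -/
def SE (G : Str V E) (e : E) (x y : V) : Prop :=
  e ∈ G.D ∧ G.hd e = false ∧ ((G.p e = x ∧ G.q e = y) ∨ (G.p e = y ∧ G.q e = x))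

/-- orientation of the hard edges -/
def Ori (a b : ℕ) (G : Str V E) (x y : V) : Prop :=
  (∃ e, HE G e x y) ∧ ∃ S, Low a b G S ∧ x ∈ S ∧ y ∉ S

/-- parameters -/
def Par (a b : ℕ) : Prop := 3 ≤ b ∧ b + 2 ≤ a

end Pool.Agent.Q115.DF
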