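import Pool.Agent.Q115.DF.Stm

/-!
# MP_4006b4_co: the statements of the lemmas (Prop-valued definitions)

Jobs prove `theorem tXX (h.. : Xyy) : Xzz`.
-/

set_option linter.unusedSectionVars false
set_option linter.unusedVariables false

open Finset

namespace Pool.Agent.Q115.DF

/-- potential of a disjoint union (equality) -/
def XUnion : Prop := ∀ (V E : Type) [DecidableEq V] [DecidableEq E] (a b : ℤ) (G : Str V E) (S T : Finset V),
  Disjoint S T → G.rho a b (S ∪ T) = G.rho a b S + G.rho a b T - ∑ e ∈ G.cro S T, G.cost a b e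

/-- submodularity (equality) -/
def XSub : Prop := ∀ (V E : Type) [DecidableEq V] [DecidableEq E] (a b : ℤ) (G : Str V E) (S T : Finset V),
  G.rho a b (S ∪ T) + G.rho a b (S ∩ T) =
    G.rho a b S + G.rho a b T - ∑ e ∈ G.cro (S \ T) (T \ S), G.cost a b e

/-- potential in a modified structure -/
def XMod : Prop := ∀ (V E : Type) [DecidableEq V] [DecidableEq E] (a b : ℕ) (G : Str V E) (S : Finset V)
  (Z : Finset E) (x y : V → ℕ) (T : Finset V), T ⊆ S → 1 ≤ a →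
  G.rho a b T + (∑ e ∈ Z ∩ G.ins T, G.cost a b e) - (∑ v ∈ T, ((a : ℤ) * (x v : ℤ) + (b : ℤ) * (y v : ℤ)))
    ≤ (G.mod S Z x y).rho a b T

/-- potential in the residual structure -/
def XRsd : Prop := ∀ (V E : Type) [DecidableEq V] [DecidableEq E] (a b : ℕ) (G : Str V E) (S : Finset V)
  (K Z : Finset E) (f : V → Bool) (x y : V → ℕ) (T : Finset V), 1 ≤ b → b ≤ a → WF a b G → S ⊆ G.R →
  K ⊆ G.cro S (G.R \ S) → T ⊆ G.R \ S →
  G.rho a b (S ∪ T) - G.rho a b S + (∑ e ∈ G.cro S T \ K, G.cost a b e) + (∑ e ∈ Z ∩ G.ins T, G.cost a b e)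
    + ((a : ℤ) - b) * (G.n1 K f S T : ℤ)
    - (∑ v ∈ T, ((a : ℤ) * (x v : ℤ) + (b : ℤ) * (y v : ℤ)))
    ≤ (G.rsd S K Z f x y).rho a b T

/-- combination of a colouring of `S` and a colouring of the residual structure. `X e` handles the crossing
edges outside `K` and the deleted edges `Z`. -/
def XComb : Prop := ∀ (V E : Type) [DecidableEq V] [DecidableEq E] (a b : ℕ) (G : Str V E) (S : Finset V)
  (K Z : Finset E) (x y : V → ℕ) (f1 f2 : V → Bool) (L1 L2 X : E → Finset V), WF a b G → S ⊆ G.R →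
  K ⊆ G.cro S (G.R \ S) → IsCol (G.res S) f1 L1 → IsCol (G.rsd S K Z f1 x y) f2 L2 →
  (∀ e ∈ (G.cro S (G.R \ S) \ K) ∪ (Z ∩ G.ins (G.R \ S)), Cov G (fun v => if v ∈ S then f1 v else f2 v) e (X e)) →
  (∀ v ∈ S, ld L1 (G.ins S) v + ld X ((G.cro S (G.R \ S) \ K) ∪ (Z ∩ G.ins (G.R \ S))) v + 1 ≤ G.cap f1 v) →
  (∀ v ∈ G.R \ S, ld X ((G.cro S (G.R \ S) \ K) ∪ (Z ∩ G.ins (G.R \ S))) v ≤ if f2 v = true then x v else y v) →
  Colorable G

/-- minimality applied to a modified structure -/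
def XMin : Prop := ∀ (V E : Type) [DecidableEq V] [DecidableEq E] (a b : ℕ) (G : Str V E) (S : Finset V)
  (Z : Finset E) (x y : V → ℕ), 1 ≤ b → b ≤ a → MinCE a b G → S ⊆ G.R → (S ≠ G.R ∨ (Z ∩ G.D).Nonempty) →
  (∀ T ⊆ S, T.Nonempty → -(b : ℤ) < G.rho a b T + (∑ e ∈ Z ∩ G.ins T, G.cost a b e)
    - (∑ v ∈ T, ((a : ℤ) * (x v : ℤ) + (b : ℤ) * (y v : ℤ)))) →
  Colorable (G.mod S Z x y)

/-- minimality applied to a residual structure -/
def XMinR : Prop := ∀ (V E : Type) [DecidableEq V] [DecidableEq E] (a b : ℕ) (G : Str V E) (S : Finset V)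
  (K Z : Finset E) (f : V → Bool) (x y : V → ℕ), 1 ≤ b → b ≤ a → MinCE a b G → S ⊆ G.R → S.Nonempty →
  K ⊆ G.cro S (G.R \ S) →
  (∀ T ⊆ G.R \ S, T.Nonempty → -(b : ℤ) <
    G.rho a b (S ∪ T) - G.rho a b S + (∑ e ∈ G.cro S T \ K, G.cost a b e) + (∑ e ∈ Z ∩ G.ins T, G.cost a b e)
    + ((a : ℤ) - b) * (G.n1 K f S T : ℤ)
    - (∑ v ∈ T, ((a : ℤ) * (x v : ℤ) + (b : ℤ) * (y v : ℤ)))) →
  Colorable (G.rsd S K Z f x y)

/-- standard extension -/
def XExt : Prop := ∀ (V E : Type) [DecidableEq V] [DecidableEq E] (a b : ℕ) (G : Str V E) (S : Finset V)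
  (f : V → Bool) (L : E → Finset V), 1 ≤ b → b ≤ a → MinCE a b G → S ⊆ G.R → S.Nonempty →
  IsCol (G.res S) f L →
  ∃ T ⊆ G.R \ S, T.Nonempty ∧
    G.rho a b (S ∪ T) - G.rho a b S + ((a : ℤ) - b) * (G.n1 (G.cro S (G.R \ S)) f S T : ℤ) ≤ -(b : ℤ)

/-- extension with slack at a boundary vertex `u`, used for the edge `e0` from `u` to `t` -/
def XSlack : Prop := ∀ (V E : Type) [DecidableEq V] [DecidableEq E] (a b : ℕ) (G : Str V E) (S : Finset V)
  (f : V → Bool) (L : E → Finset V) (e0 : E) (u t : V), Par a b → MinCE a b G → S ⊆ G.R →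
  IsCol (G.res S) f L → u ∈ S → t ∈ G.R \ S → e0 ∈ G.D →
  ((G.p e0 = u ∧ G.q e0 = t) ∨ (G.p e0 = t ∧ G.q e0 = u)) →
  ld L (G.ins S) u + 2 ≤ G.cap f u →
  ∃ T ⊆ G.R \ S, T.Nonempty ∧
    G.rho a b (S ∪ T) - G.rho a b S + (if t ∈ T then (a : ℤ) else 0) ≤ -(b : ℤ)

/-- extension where hard edges from vertices of `S` of the same colour `κ` force the colour of `y` -/
def XForce : Prop := ∀ (V E : Type) [DecidableEq V] [DecidableEq E] (a b : ℕ) (G : Str V E) (S : Finset V)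
  (f : V → Bool) (L : E → Finset V) (E0 : Finset E) (y : V) (κ : Bool), 1 ≤ b → b ≤ a → MinCE a b G → S ⊆ G.R →
  S.Nonempty → IsCol (G.res S) f L → y ∈ G.R \ S →
  (∀ e ∈ E0, ∃ x ∈ S, HE G e x y ∧ f x = κ) →
  ∃ T ⊆ G.R \ S, T.Nonempty ∧
    G.rho a b (S ∪ T) - G.rho a b S +
      (if y ∈ T then (E0.card : ℤ) * (b * ((a : ℤ) - 1)) -
        (if κ = true then (a : ℤ) * (G.A y : ℤ) else (b : ℤ) * (G.B y : ℤ)) else 0) ≤ -(b : ℤ)

/-- Step 1 -/
def XS1 : Prop := ∀ (V E : Type) [DecidableEq V] [DecidableEq E] (a b : ℕ) (G : Str V E), Par a b → MinCE a b G →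
  ∀ S ⊆ G.R, S.Nonempty → S ≠ G.R → 0 < G.rho a b S

/-- connectivity -/
def XCon : Prop := ∀ (V E : Type) [DecidableEq V] [DecidableEq E] (a b : ℕ) (G : Str V E), Par a b → MinCE a b G →
  ∀ S ⊆ G.R, S.Nonempty → S ≠ G.R → (G.cro S (G.R \ S)).Nonempty

/-- `R` has at least two vertices -/
def XTwo : Prop := ∀ (V E : Type) [DecidableEq V] [DecidableEq E] (a b : ℕ) (G : Str V E), Par a b → MinCE a b G →
  2 ≤ G.R.card

/-- Step 2 -/
def XS2 : Prop := ∀ (V E : Type) [DecidableEq V] [DecidableEq E] (a b : ℕ) (G : Str V E), Par a b → MinCE a b G →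
  ∀ S ⊆ G.R, S.Nonempty → S ≠ G.R → G.rho a b G.R + a ≤ G.rho a b S

/-- Step 3, soft edge implies small potential -/
def XS3a : Prop := ∀ (V E : Type) [DecidableEq V] [DecidableEq E] (a b : ℕ) (G : Str V E), Par a b → MinCE a b G →
  ∀ e ∈ G.D, G.hd e = false → G.rho a b G.R ≤ (b : ℤ) - a

/-- Step 3, capacities at the ends of a soft edge -/
def XS3b : Prop := ∀ (V E : Type) [DecidableEq V] [DecidableEq E] (a b : ℕ) (G : Str V E), Par a b → MinCE a b G →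
  ∀ e x y, SE G e x y → 1 ≤ G.A x ∧ 1 ≤ G.B x

/-- Step 4 -/
def XS4 : Prop := ∀ (V E : Type) [DecidableEq V] [DecidableEq E] (a b : ℕ) (G : Str V E), Par a b → MinCE a b G →
  ∀ v ∈ G.R, G.B v ≤ (G.at v).card

/-- Step 5, first half -/
def XS5a (a b : ℕ) : Prop := ∀ (V E : Type) [DecidableEq V] [DecidableEq E] (G : Str V E), MinCE a b G →
  ∀ e x y, HE G e x y → ∃ S, Low a b G S ∧ ((x ∈ S ∧ y ∉ S) ∨ (y ∈ S ∧ x ∉ S))

/-- Step 5, second half -/
def XS5b : Prop := ∀ (V E : Type) [DecidableEq V] [DecidableEq E] (a b : ℕ) (G : Str V E), Par a b → MinCE a b G →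
  ∀ e x y, HE G e x y → ∀ S T, Low a b G S → Low a b G T → x ∈ S → y ∉ S → y ∈ T → x ∉ T → False

/-- Step 6: saturation -/
def XS6a : Prop := ∀ (V E : Type) [DecidableEq V] [DecidableEq E] (a b : ℕ) (G : Str V E), Par a b → MinCE a b G →
  ∀ S f L u, Low a b G S → IsCol (G.res S) f L → Bd G S u → G.cap f u ≤ ld L (G.ins S) u + 1

/-- Step 6: both colours occur -/
def XS6c : Prop := ∀ (V E : Type) [DecidableEq V] [DecidableEq E] (a b : ℕ) (G : Str V E), Par a b → MinCE a b G →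
  ∀ S u (κ : Bool), Low a b G S → Bd G S u → ∃ f L, IsCol (G.res S) f L ∧ f u = κ

/-- Step 6: capacities of a hard neighbour outside -/
def XS6e : Prop := ∀ (V E : Type) [DecidableEq V] [DecidableEq E] (a b : ℕ) (G : Str V E), Par a b → MinCE a b G →
  ∀ S e x y, Low a b G S → HE G e x y → x ∈ S → y ∉ S →
    G.A y + 1 = b ∧ (b : ℤ) * ((a : ℤ) - 1 - G.B y) < a

/-- Step 6: at most one hard edge from a low set to an outside vertex -/
def XS6d : Prop := ∀ (V E : Type) [DecidableEq V] [DecidableEq E] (a b : ℕ) (G : Str V E), Par a b → MinCE a b G →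
  ∀ S e1 e2 x1 x2 y, Low a b G S → HE G e1 x1 y → HE G e2 x2 y → x1 ∈ S → x2 ∈ S → y ∉ S → e1 = e2

/-- Step 7: there is a hard edge -/
def XS7b : Prop := ∀ (V E : Type) [DecidableEq V] [DecidableEq E] (a b : ℕ) (G : Str V E), Par a b → MinCE a b G →
  ∃ e x y, HE G e x y

/-- Step 7: in-degree at most one -/
def XS7e : Prop := ∀ (V E : Type) [DecidableEq V] [DecidableEq E] (a b : ℕ) (G : Str V E), Par a b → MinCE a b G →
  ∀ e1 e2 x1 x2 y, HE G e1 x1 y → HE G e2 x2 y → Ori a b G x1 y → Ori a b G x2 y → e1 = e2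

/-- Step 7: a sink -/
def XS7d : Prop := ∀ (V E : Type) [DecidableEq V] [DecidableEq E] (a b : ℕ) (G : Str V E), Par a b → XS5a a b →
  MinCE a b G → ∃ e0 x y S, HE G e0 x y ∧ G.hat y = {e0} ∧ Low a b G S ∧ x ∈ S ∧ y ∉ S

/-- the situation of Step 8 -/
def Sit (a b : ℕ) {V E : Type} [DecidableEq V] [DecidableEq E] (G : Str V E) (e0 : E) (x y : V) (S : Finset V) : Prop :=
  Par a b ∧ MinCE a b G ∧ HE G e0 x y ∧ G.hat y = {e0} ∧ Low a b G S ∧ x ∈ S ∧ y ∉ S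

/-- Step 8, numbers -/
def XS8a : Prop := ∀ (V E : Type) [DecidableEq V] [DecidableEq E] (a b : ℕ) (G : Str V E) e0 x y S,
  Sit a b G e0 x y S → (G.sat y).Nonempty ∧ a < 2 * b ∧ G.A y + 1 = b ∧ a ≤ G.B y + 2 ∧ G.B y ≤ (G.sat y).card + 1

/-- data of Step 8 (i): `ψ = (f, L)` colours `G` without the soft edge `e1` at `y`, `Q` is a set of soft edges at `y` -/
def Dat (a b : ℕ) {V E : Type} [DecidableEq V] [DecidableEq E] (G : Str V E) (x y : V) (e1 : E)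
    (f : V → Bool) (L : E → Finset V) (Q : Finset E) : Prop :=
  e1 ∈ G.sat y ∧ (∀ e ∈ G.D.erase e1, Cov G f e (L e)) ∧ (∀ v ∈ G.R, ld L (G.D.erase e1) v + 1 ≤ G.cap f v) ∧
  f y = true ∧ f x = false ∧ Q ⊆ (G.sat y).erase e1 ∧ Q.card + G.B y = (G.sat y).card + 1 ∧ ∀ e ∈ Q, y ∉ L e

/-- Step 8 (i) -/
def XS8b : Prop := ∀ (V E : Type) [DecidableEq V] [DecidableEq E] (a b : ℕ) (G : Str V E) e0 x y S,
  Sit a b G e0 x y S → ∃ e1 f L Q, Dat a b G x y e1 f L Q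

/-- number of edges of `Q` (edges at `y`) with the other end in `W` -/
def kk {V E : Type} [DecidableEq V] [DecidableEq E] (G : Str V E) (Q : Finset E) (y : V) (W : Finset V) : ℕ :=
  (Q.filter (fun e => G.oth e y ∈ W)).card

/-- Step 8 (ii), (iii) -/
def XS8c : Prop := ∀ (V E : Type) [DecidableEq V] [DecidableEq E] (a b : ℕ) (G : Str V E) e0 x y S e1 f L Q,
  Sit a b G e0 x y S → Dat a b G x y e1 f L Q →
  ∃ W ⊆ G.R, x ∈ W ∧ y ∉ W ∧ G.rho a b W ≤ a * (kk G Q y W : ℤ) + ((a : ℤ) - b)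

/-- Step 8 (iv): the set `V*` -/
def XS8d : Prop := ∀ (V E : Type) [DecidableEq V] [DecidableEq E] (a b : ℕ) (G : Str V E) e0 x y S e1 f L Q,
  Sit a b G e0 x y S → Dat a b G x y e1 f L Q →
  ∃ W ⊆ G.R, x ∈ W ∧ y ∉ W ∧ G.rho a b W ≤ a * (kk G Q y W : ℤ) + ((a : ℤ) - b) ∧
    ∀ T ⊆ G.R, y ∉ T → W ⊆ T → T ≠ W → G.rho a b W < G.rho a b T

/-- Step 8, Case 1: no soft neighbour of `y` outside `V*` -/
def XS8e : Prop := ∀ (V E : Type) [DecidableEq V] [DecidableEq E] (a b : ℕ) (G : Str V E) e0 x y S e1 f L Q W,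
  Sit a b G e0 x y S → Dat a b G x y e1 f L Q → W ⊆ G.R → x ∈ W → y ∉ W →
  G.rho a b W ≤ a * (kk G Q y W : ℤ) + ((a : ℤ) - b) →
  (∀ T ⊆ G.R, y ∉ T → W ⊆ T → T ≠ W → G.rho a b W < G.rho a b T) →
  ∀ e ∈ G.sat y, G.oth e y ∈ W

/-- Step 8, the end -/
def XS8 : Prop := ∀ (V E : Type) [DecidableEq V] [DecidableEq E] (a b : ℕ) (G : Str V E) e0 x y S,
  ¬ Sit a b G e0 x y S

/-- the main theorem for structures -/
def XMain (a b : ℕ) : Prop := ∀ (V E : Type) [DecidableEq V] [DecidableEq E] (G : Str V E),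
  WF a b G → Hyp a b G → Colorable G

end Pool.Agent.Q115.DF
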